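import Mathlib

/-!
The ring generated by the shift of `ℤ` and a matrix unit, and its approximations by cyclic
permutations: a ring which is locally embeddable into the locally finite ring of the operators
`scalar + finite matrix`.
-/

set_option autoImplicit false
set_option linter.unusedSectionVars false
set_option linter.unusedSimpArgs false

namespace Pool.Agent.TH256.HT

open Filter

instance fact11 : Fact (Nat.Prime 11) := ⟨by norm_num⟩

/-- the ground field -/
abbrev FF : Type := ZMod 11

/-- the space with basis `ℤ` -/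
abbrev VV : Type := ℤ →₀ FF

/-- the operators on it -/
abbrev Op : Type := Module.End FF VV

/-- basis vectors -/
noncomputable abbrev bv (p : ℤ) : VV := Finsupp.single p 1

/-- the operator of a permutation -/
noncomputable def Pm : Equiv.Perm ℤ →* Op where
  toFun s := Finsupp.lmapDomain FF FF s
  map_one' := by
    apply Finsupp.lhom_ext'
    intro p
    ext
    simp
  map_mul' s t := by
    apply Finsupp.lhom_ext'
    intro p
    ext
    simp

theorem Pm_bv (s : Equiv.Perm ℤ) (p : ℤ) : Pm s (bv p) = bv (s p) := by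
  show Finsupp.mapDomain s (Finsupp.single p 1) = _
  rw [Finsupp.mapDomain_single]

/-- matrix units -/
noncomputable def Em (p q : ℤ) : Op := (Finsupp.lsingle p).comp (Finsupp.lapply q)

theorem Em_apply (p q : ℤ) (v : VV) : Em p q v = Finsupp.single p (v q) := rfl

theorem Em_bv (p q r : ℤ) : Em p q (bv r) = if r = q then bv p else 0 := by
  rw [Em_apply]
  by_cases h : r = q
  · rw [if_pos h, h, Finsupp.single_eq_same]
  · rw [if_neg h, Finsupp.single_apply, if_neg h, Finsupp.single_zero]

theorem Em_bv_self (p q : ℤ) : Em p q (bv q) = bv p := by rw [Em_bv, if_pos rfl]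

theorem Op_ext {S T : Op} (h : ∀ p, S (bv p) = T (bv p)) : S = T := by
  apply Finsupp.lhom_ext'
  intro p
  ext1
  exact h p

/-! ### permutations -/

/-- the shift -/
def sI : Equiv.Perm ℤ := Equiv.addRight 1

/-- the cyclic permutation of `[-n, n]` -/
def sn (n : ℕ) : Equiv.Perm ℤ where
  toFun j := if -(n : ℤ) ≤ j ∧ j < n then j + 1 else if j = n then -(n : ℤ) else j
  invFun j := if -(n : ℤ) < j ∧ j ≤ n then j - 1 else if j = -(n : ℤ) then n else j
  left_inv j := by
    dsimp only
    split_ifs <;> omega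
  right_inv j := by
    dsimp only
    split_ifs <;> omega

theorem sn_apply (n : ℕ) (j : ℤ) :
    sn n j = if -(n : ℤ) ≤ j ∧ j < n then j + 1 else if j = n then -(n : ℤ) else j := rfl

theorem sn_symm_apply (n : ℕ) (j : ℤ) :
    (sn n)⁻¹ j = if -(n : ℤ) < j ∧ j ≤ n then j - 1 else if j = -(n : ℤ) then n else j := rfl

theorem sn_in {n : ℕ} {j : ℤ} (h : |j| < n) : sn n j = j + 1 := by
  rw [abs_lt] at h
  rw [sn_apply, if_pos ⟨by omega, by omega⟩]

theorem sn_inv_in {n : ℕ} {j : ℤ} (h : |j| < n) : (sn n)⁻¹ j = j - 1 := by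
  rw [abs_lt] at h
  rw [sn_symm_apply, if_pos ⟨by omega, by omega⟩]

theorem sn_out {n : ℕ} {j : ℤ} (h : (n : ℤ) < |j|) : sn n j = j := by
  rw [lt_abs] at h
  rw [sn_apply, if_neg (by omega), if_neg (by omega)]

theorem sn_inv_out {n : ℕ} {j : ℤ} (h : (n : ℤ) < |j|) : (sn n)⁻¹ j = j := by
  rw [lt_abs] at h
  rw [sn_symm_apply, if_neg (by omega), if_neg (by omega)]

theorem sI_zpow (i j : ℤ) : (sI ^ i) j = j + i := by
  have h1 : ∀ m : ℕ, ∀ j : ℤ, (sI ^ m) j = j + m := by
    intro m
    induction m with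
    | zero => intro j; simp
    | succ m ih =>
      intro j
      rw [pow_succ, Equiv.Perm.mul_apply, ih]
      show j + 1 + (m : ℤ) = _
      push_cast
      ring
  cases i with
  | ofNat m => exact h1 m j
  | negSucc m =>
    rw [zpow_negSucc, Equiv.Perm.inv_eq_iff_eq, h1]
    rw [Int.negSucc_eq]
    push_cast
    ring

/-- the powers of the cyclic permutations are eventually the powers of the shift -/
theorem sn_zpow (i j : ℤ) : ∀ᶠ n : ℕ in atTop, ((sn n) ^ i) j = j + i := by
  have h1 : ∀ m : ℕ, ∀ j : ℤ, ∀ n : ℕ, |j| + m ≤ n → ((sn n) ^ m) j = j + m := by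
    intro m
    induction m with
    | zero => intro j n _; simp
    | succ m ih =>
      intro j n hn
      push_cast at hn
      rw [pow_succ, Equiv.Perm.mul_apply, sn_in (by omega), ih (j + 1) n (by
        have := abs_add_le j 1
        rw [abs_one] at this
        omega)]
      push_cast
      ring
  have h2 : ∀ m : ℕ, ∀ j : ℤ, ∀ n : ℕ, |j| + m ≤ n → (((sn n)⁻¹) ^ m) j = j - m := by
    intro m
    induction m with
    | zero => intro j n _; simp
    | succ m ih =>
      intro j n hn
      push_cast at hn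
      rw [pow_succ, Equiv.Perm.mul_apply, sn_inv_in (by omega), ih (j - 1) n (by
        have := abs_sub j 1
        rw [abs_one] at this
        omega)]
      push_cast
      ring
  cases i with
  | ofNat m =>
    filter_upwards [eventually_ge_atTop (j.natAbs + m)] with n hn
    exact h1 m j n (by rw [Int.abs_eq_natAbs]; omega)
  | negSucc m =>
    filter_upwards [eventually_ge_atTop (j.natAbs + (m + 1))] with n hn
    have hj := Int.abs_eq_natAbs j
    have hm : |j| + ((m + 1 : ℕ) : ℤ) ≤ n := by
      push_cast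
      omega
    rw [zpow_negSucc, ← inv_pow, h2 (m + 1) j n hm, Int.negSucc_eq]
    push_cast
    ring

/-! ### the free algebra and its evaluations -/

/-- the free algebra on three generators -/
abbrev AA : Type := FreeAlgebra FF (Fin 3)

/-- the evaluation -/
noncomputable def ev (s : Equiv.Perm ℤ) : AA →ₐ[FF] Op :=
  FreeAlgebra.lift FF ![Pm s, Pm s⁻¹, Em 0 0]

theorem ev_0 (s : Equiv.Perm ℤ) : ev s (FreeAlgebra.ι FF 0) = Pm s := by
  rw [ev, FreeAlgebra.lift_ι_apply]; rfl

theorem ev_1 (s : Equiv.Perm ℤ) : ev s (FreeAlgebra.ι FF 1) = Pm s⁻¹ := by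
  rw [ev, FreeAlgebra.lift_ι_apply]; rfl

theorem ev_2 (s : Equiv.Perm ℤ) : ev s (FreeAlgebra.ι FF 2) = Em 0 0 := by
  rw [ev, FreeAlgebra.lift_ι_apply]; rfl

/-- coefficients of normal forms -/
abbrev WW : Type := (ℤ →₀ FF) × ((ℤ × ℤ) →₀ FF)

/-- the operator with a given normal form -/
noncomputable def nf (s : Equiv.Perm ℤ) : WW →ₗ[FF] Op :=
  (Finsupp.linearCombination FF (fun i : ℤ => Pm (s ^ i))).coprod
    (Finsupp.linearCombination FF (fun pq : ℤ × ℤ => Em pq.1 pq.2))

theorem nf_left (s : Equiv.Perm ℤ) (i : ℤ) : nf s (Finsupp.single i 1, 0) = Pm (s ^ i) := by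
  simp [nf]

theorem nf_right (s : Equiv.Perm ℤ) (p q : ℤ) : nf s (0, Finsupp.single (p, q) 1) = Em p q := by
  simp [nf]

/-- induction on coefficients -/
theorem WW_top (S : Submodule FF WW) (h1 : ∀ i : ℤ, ((Finsupp.single i 1, 0) : WW) ∈ S)
    (h2 : ∀ p q : ℤ, ((0, Finsupp.single (p, q) 1) : WW) ∈ S) (w : WW) : w ∈ S := by
  have e1 : ∀ c : ℤ →₀ FF, ((c, 0) : WW) ∈ S := by
    intro c
    induction c using Finsupp.induction_linear with
    | zero => exact S.zero_mem
    | add f g hf hg =>
      have := S.add_mem hf hg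
      simpa using this
    | single i x =>
      have := S.smul_mem x (h1 i)
      simpa using this
  have e2 : ∀ c : (ℤ × ℤ) →₀ FF, ((0, c) : WW) ∈ S := by
    intro c
    induction c using Finsupp.induction_linear with
    | zero => exact S.zero_mem
    | add f g hf hg =>
      have := S.add_mem hf hg
      simpa using this
    | single i x =>
      have := S.smul_mem x (h2 i.1 i.2)
      simpa using this
  have := S.add_mem (e1 w.1) (e2 w.2)
  simpa using this

/-- pointwise convergence -/
theorem nf_tendsto (w : WW) (j : ℤ) : ∀ᶠ n : ℕ in atTop, nf (sn n) w (bv j) = nf sI w (bv j) := by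
  let S : Submodule FF WW :=
    { carrier := {w | ∀ᶠ n : ℕ in atTop, nf (sn n) w (bv j) = nf sI w (bv j)}
      zero_mem' := by
        refine Eventually.of_forall fun n => ?_
        rw [map_zero, map_zero]
      add_mem' := by
        intro a b ha hb
        filter_upwards [ha, hb] with n h1 h2
        rw [map_add, map_add, LinearMap.add_apply, LinearMap.add_apply, h1, h2]
      smul_mem' := by
        intro c a ha
        filter_upwards [ha] with n h1
        rw [map_smul, map_smul, LinearMap.smul_apply, LinearMap.smul_apply, h1] }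
  refine WW_top S (fun i => ?_) (fun p q => ?_) w
  · show ∀ᶠ n : ℕ in atTop, _
    filter_upwards [sn_zpow i j] with n hn
    rw [nf_left, nf_left, Pm_bv, Pm_bv, hn, sI_zpow]
  · show ∀ᶠ n : ℕ in atTop, _
    refine Eventually.of_forall fun n => ?_
    rw [nf_right, nf_right]

/-- the normal form is unique -/
theorem nf_inj (w : WW) (h : nf sI w = 0) : w = 0 := by
  obtain ⟨c, f⟩ := w
  have key : ∀ i j : ℤ, c i + f (j + i, j) = 0 := by
    intro i j
    have h1 : nf sI (c, f) (bv j) (j + i) = 0 := by rw [h]; rfl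
    have h2 : nf sI (c, f) (bv j) (j + i) =
        (c.sum fun i' x => x * (Pm (sI ^ i') (bv j) (j + i))) +
        (f.sum fun pq x => x * (Em pq.1 pq.2 (bv j) (j + i))) := by
      unfold nf
      rw [LinearMap.coprod_apply, LinearMap.add_apply, Finsupp.add_apply,
        Finsupp.linearCombination_apply, Finsupp.linearCombination_apply, Finsupp.sum, Finsupp.sum,
        LinearMap.sum_apply, LinearMap.sum_apply, Finsupp.finsetSum_apply, Finsupp.finsetSum_apply]
      rfl
    rw [h2] at h1
    have h3 : (c.sum fun i' x => x * (Pm (sI ^ i') (bv j) (j + i))) = c i := by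
      rw [Finsupp.sum_eq_single i]
      · rw [Pm_bv, sI_zpow, Finsupp.single_eq_same, mul_one]
      · intro b _ hb
        rw [Pm_bv, sI_zpow, Finsupp.single_apply, if_neg (by omega), mul_zero]
      · intro _
        rw [zero_mul]
    have h4 : (f.sum fun pq x => x * (Em pq.1 pq.2 (bv j) (j + i))) = f (j + i, j) := by
      rw [Finsupp.sum_eq_single (j + i, j)]
      · rw [Em_bv_self, Finsupp.single_eq_same, mul_one]
      · rintro ⟨p, q⟩ _ hb
        rw [Em_bv]
        dsimp only
        split_ifs with h5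
        · rw [Finsupp.single_apply, if_neg, mul_zero]
          intro h6
          exact hb (by rw [h6, h5])
        · rw [Finsupp.zero_apply, mul_zero]
      · intro _
        rw [zero_mul]
    rw [h3, h4] at h1
    exact h1
  have hc : c = 0 := by
    ext i
    -- choose `j` outside of the support
    have hfin : ((f.support.image Prod.snd : Finset ℤ) : Set ℤ).Finite :=
      (f.support.image Prod.snd).finite_toSet
    obtain ⟨j, hj⟩ := hfin.infinite_compl.nonempty
    have h1 := key i j
    have h2 : f (j + i, j) = 0 := by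
      by_contra hne
      apply hj
      rw [Finset.mem_coe, Finset.mem_image]
      exact ⟨(j + i, j), Finsupp.mem_support_iff.2 hne, rfl⟩
    rw [h2, add_zero] at h1
    exact h1
  subst hc
  have hf : f = 0 := by
    ext ⟨p, q⟩
    have h1 := key (p - q) q
    rw [Finsupp.zero_apply, zero_add] at h1
    have h2 : q + (p - q) = p := by ring
    rw [h2] at h1
    exact h1
  rw [hf]
  rfl

/-- existence of normal forms -/
def HasNF (a : AA) : Prop :=
  ∃ w : WW, ev sI a = nf sI w ∧ ∀ᶠ n : ℕ in atTop, ev (sn n) a = nf (sn n) w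

/-- `z` acts on normal forms -/
def Good (z : AA) : Prop :=
  ∀ w : WW, ∃ w' : WW, ev sI z * nf sI w = nf sI w' ∧
    ∀ᶠ n : ℕ in atTop, ev (sn n) z * nf (sn n) w = nf (sn n) w'

theorem good_of_basis (z : AA)
    (h1 : ∀ i : ℤ, ∃ w' : WW, ev sI z * Pm (sI ^ i) = nf sI w' ∧
      ∀ᶠ n : ℕ in atTop, ev (sn n) z * Pm ((sn n) ^ i) = nf (sn n) w')
    (h2 : ∀ p q : ℤ, ∃ w' : WW, ev sI z * Em p q = nf sI w' ∧
      ∀ᶠ n : ℕ in atTop, ev (sn n) z * Em p q = nf (sn n) w') : Good z := by
  intro w
  let S : Submodule FF WW :=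
    { carrier := {w | ∃ w' : WW, ev sI z * nf sI w = nf sI w' ∧
        ∀ᶠ n : ℕ in atTop, ev (sn n) z * nf (sn n) w = nf (sn n) w'}
      zero_mem' := by
        refine ⟨0, ?_, Eventually.of_forall fun n => ?_⟩
        · rw [map_zero, mul_zero]
        · rw [map_zero, mul_zero]
      add_mem' := by
        rintro a b ⟨a', ha1, ha2⟩ ⟨b', hb1, hb2⟩
        refine ⟨a' + b', ?_, ?_⟩
        · rw [map_add, mul_add, ha1, hb1, map_add]
        · filter_upwards [ha2, hb2] with n e1 e2
          rw [map_add, mul_add, e1, e2, map_add]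
      smul_mem' := by
        rintro c a ⟨a', ha1, ha2⟩
        refine ⟨c • a', ?_, ?_⟩
        · rw [map_smul, mul_smul_comm, ha1, map_smul]
        · filter_upwards [ha2] with n e1
          rw [map_smul, mul_smul_comm, e1, map_smul] }
  refine WW_top S (fun i => ?_) (fun p q => ?_) w
  · obtain ⟨w', e1, e2⟩ := h1 i
    refine ⟨w', ?_, ?_⟩
    · rw [nf_left]; exact e1
    · filter_upwards [e2] with n hn
      rw [nf_left]; exact hn
  · obtain ⟨w', e1, e2⟩ := h2 p q
    refine ⟨w', ?_, ?_⟩
    · rw [nf_right]; exact e1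
    · filter_upwards [e2] with n hn
      rw [nf_right]; exact hn

theorem Pm_Em (s : Equiv.Perm ℤ) (p q : ℤ) : Pm s * Em p q = Em (s p) q := by
  apply Op_ext
  intro r
  rw [Module.End.mul_apply, Em_bv, Em_bv]
  split_ifs
  · exact Pm_bv s p
  · exact map_zero _

theorem Em_Em (p q r t : ℤ) : Em p q * Em r t = if r = q then Em p t else 0 := by
  apply Op_ext
  intro u
  rw [Module.End.mul_apply, Em_bv r t u]
  by_cases h : r = q
  · rw [if_pos h, Em_bv p t u]
    by_cases h2 : u = t
    · rw [if_pos h2, if_pos h2, Em_bv, if_pos h]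
    · rw [if_neg h2, if_neg h2, map_zero]
  · rw [if_neg h]
    by_cases h2 : u = t
    · rw [if_pos h2, Em_bv, if_neg h]; rfl
    · rw [if_neg h2, map_zero]; rfl

theorem Em_Pm (p q : ℤ) (s : Equiv.Perm ℤ) : Em p q * Pm s = Em p (s⁻¹ q) := by
  apply Op_ext
  intro r
  rw [Module.End.mul_apply, Pm_bv, Em_bv, Em_bv]
  by_cases h : s r = q
  · rw [if_pos h, if_pos]
    rw [← h]; exact (s.symm_apply_apply r).symm
  · rw [if_neg h, if_neg]
    intro h2
    exact h (by rw [h2]; exact s.apply_symm_apply q)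

theorem good_0 : Good (FreeAlgebra.ι FF 0) := by
  apply good_of_basis
  · intro i
    refine ⟨(Finsupp.single (i + 1) 1, 0), ?_, Eventually.of_forall fun n => ?_⟩
    · rw [ev_0, nf_left, ← map_mul, add_comm, zpow_add, zpow_one]
    · rw [ev_0, nf_left, ← map_mul, add_comm, zpow_add, zpow_one]
  · intro p q
    refine ⟨(0, Finsupp.single (p + 1, q) 1), ?_, ?_⟩
    · rw [ev_0, nf_right, Pm_Em]; rfl
    · filter_upwards [sn_zpow 1 p] with n hn
      rw [zpow_one] at hn
      rw [ev_0, nf_right, Pm_Em, hn]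

theorem good_1 : Good (FreeAlgebra.ι FF 1) := by
  apply good_of_basis
  · intro i
    refine ⟨(Finsupp.single (i - 1) 1, 0), ?_, Eventually.of_forall fun n => ?_⟩
    · rw [ev_1, nf_left, ← map_mul, sub_eq_add_neg, add_comm, zpow_add, zpow_neg, zpow_one]
    · rw [ev_1, nf_left, ← map_mul, sub_eq_add_neg, add_comm, zpow_add, zpow_neg, zpow_one]
  · intro p q
    refine ⟨(0, Finsupp.single (p - 1, q) 1), ?_, ?_⟩
    · rw [ev_1, nf_right, Pm_Em]
      have := sI_zpow (-1) p
      rw [zpow_neg, zpow_one] at this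
      rw [this]; rfl
    · filter_upwards [sn_zpow (-1) p] with n hn
      rw [zpow_neg, zpow_one] at hn
      rw [ev_1, nf_right, Pm_Em, hn]; rfl

theorem good_2 : Good (FreeAlgebra.ι FF 2) := by
  apply good_of_basis
  · intro i
    refine ⟨(0, Finsupp.single (0, -i) 1), ?_, ?_⟩
    · rw [ev_2, nf_right, Em_Pm, ← zpow_neg, sI_zpow, zero_add]
    · filter_upwards [sn_zpow (-i) 0] with n hn
      rw [ev_2, nf_right, Em_Pm, ← zpow_neg, hn, zero_add]
  · intro p q
    by_cases hp : p = 0
    · refine ⟨(0, Finsupp.single (0, q) 1), ?_, Eventually.of_forall fun n => ?_⟩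
      · rw [ev_2, nf_right, Em_Em, if_pos hp]
      · rw [ev_2, nf_right, Em_Em, if_pos hp]
    · refine ⟨0, ?_, Eventually.of_forall fun n => ?_⟩
      · rw [ev_2, map_zero, Em_Em, if_neg hp]
      · rw [ev_2, map_zero, Em_Em, if_neg hp]

theorem good_all (a : AA) : Good a := by
  induction a using FreeAlgebra.induction with
  | grade0 r =>
    intro w
    refine ⟨r • w, ?_, Eventually.of_forall fun n => ?_⟩
    · rw [AlgHom.commutes, map_smul, Algebra.smul_def]
    · rw [AlgHom.commutes, map_smul, Algebra.smul_def]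
  | grade1 x =>
    fin_cases x
    · exact good_0
    · exact good_1
    · exact good_2
  | mul a b ha hb =>
    intro w
    obtain ⟨w1, e1, e2⟩ := hb w
    obtain ⟨w2, e3, e4⟩ := ha w1
    refine ⟨w2, ?_, ?_⟩
    · rw [map_mul, mul_assoc, e1, e3]
    · filter_upwards [e2, e4] with n h1 h2
      rw [map_mul, mul_assoc, h1, h2]
  | add a b ha hb =>
    intro w
    obtain ⟨w1, e1, e2⟩ := ha w
    obtain ⟨w2, e3, e4⟩ := hb w
    refine ⟨w1 + w2, ?_, ?_⟩
    · rw [map_add, add_mul, e1, e3, map_add]
    · filter_upwards [e2, e4] with n h1 h2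
      rw [map_add, add_mul, h1, h2, map_add]

theorem hasNF (a : AA) : HasNF a := by
  obtain ⟨w, h1, h2⟩ := good_all a (Finsupp.single 0 1, 0)
  refine ⟨w, ?_, ?_⟩
  · rw [nf_left, zpow_zero, map_one, mul_one] at h1
    exact h1
  · filter_upwards [h2] with n hn
    rw [nf_left, zpow_zero, map_one, mul_one] at hn
    exact hn

theorem ev_tendsto (a : AA) (j : ℤ) : ∀ᶠ n : ℕ in atTop, ev (sn n) a (bv j) = ev sI a (bv j) := by
  obtain ⟨w, h1, h2⟩ := hasNF a
  filter_upwards [h2, nf_tendsto w j] with n e1 e2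
  rw [e1, h1, e2]

theorem ev_zero (a : AA) (h : ev sI a = 0) : ∀ᶠ n : ℕ in atTop, ev (sn n) a = 0 := by
  obtain ⟨w, h1, h2⟩ := hasNF a
  rw [h1] at h
  have hw := nf_inj w h
  filter_upwards [h2] with n e1
  rw [e1, hw, map_zero]

theorem ev_ne_zero (a : AA) (h : ev sI a ≠ 0) : ∀ᶠ n : ℕ in atTop, ev (sn n) a ≠ 0 := by
  have h1 : ∃ j, ev sI a (bv j) ≠ 0 := by
    by_contra hcon
    push Not at hcon
    apply h
    apply Op_ext
    intro p
    rw [hcon p]; rfl
  obtain ⟨j, hj⟩ := h1
  filter_upwards [ev_tendsto a j] with n hn h2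
  apply hj
  rw [← hn, h2]; rfl

/-! ### the augmentation -/

/-- the augmentation -/
noncomputable def aug : AA →ₐ[FF] FF := FreeAlgebra.lift FF ![1, 1, 0]

theorem aug_spec (n : ℕ) (a : AA) : ∀ j : ℤ, (n : ℤ) < |j| → ev (sn n) a (bv j) = aug a • bv j := by
  induction a using FreeAlgebra.induction with
  | grade0 r =>
    intro j _
    rw [AlgHom.commutes, AlgHom.commutes]; rfl
  | grade1 x =>
    intro j hj
    fin_cases x
    · show ev (sn n) (FreeAlgebra.ι FF 0) (bv j) = aug (FreeAlgebra.ι FF 0) • bv j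
      rw [ev_0, Pm_bv, sn_out hj, aug, FreeAlgebra.lift_ι_apply]
      simp
    · show ev (sn n) (FreeAlgebra.ι FF 1) (bv j) = aug (FreeAlgebra.ι FF 1) • bv j
      rw [ev_1, Pm_bv, sn_inv_out hj, aug, FreeAlgebra.lift_ι_apply]
      simp
    · show ev (sn n) (FreeAlgebra.ι FF 2) (bv j) = aug (FreeAlgebra.ι FF 2) • bv j
      rw [ev_2, Em_bv, if_neg, aug, FreeAlgebra.lift_ι_apply]
      · simp
      · intro h
        rw [h] at hj
        simp at hj
        omega
  | mul a b ha hb =>
    intro j hj
    rw [map_mul, Module.End.mul_apply, hb j hj, map_smul, ha j hj, map_mul, smul_smul, mul_comm]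
  | add a b ha hb =>
    intro j hj
    rw [map_add, LinearMap.add_apply, ha j hj, hb j hj, map_add, add_smul]

end Pool.Agent.TH256.HT
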