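import Mathlib
import Pool.Agent.TH256.HT.Rng

/-!
The ring of the operators `scalar + finite matrix` is locally finite.
-/

set_option autoImplicit false
set_option linter.unusedSectionVars false
set_option linter.unusedSimpArgs false

namespace Pool.Agent.TH256.HT

open Filter

/-- the operator `T` is the scalar `c` outside of `S` and preserves the vectors supported in `S` -/
def InD (S : Finset ℤ) (c : FF) (T : Op) : Prop :=
  (∀ v : VV, (∀ i ∈ S, v i = 0) → T v = c • v) ∧
    ∀ v : VV, (∀ i, i ∉ S → v i = 0) → ∀ i, i ∉ S → T v i = 0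

theorem InD.mono {S S' : Finset ℤ} {c : FF} {T : Op} (h : InD S c T) (hS : S ⊆ S') :
    InD S' c T := by
  refine ⟨fun v hv => h.1 v fun i hi => hv i (hS hi), ?_⟩
  intro v hv i hi
  have h1 : v = v.filter (· ∈ S) + v.filter (fun j => ¬ j ∈ S) :=
    (Finsupp.filter_add_filter_not v (· ∈ S)).symm
  have h2 : T (v.filter (fun j => ¬ j ∈ S)) = c • v.filter (fun j => ¬ j ∈ S) := by
    apply h.1
    intro j hj
    rw [Finsupp.filter_apply, if_neg (by simpa using hj)]
  have h3 : T (v.filter (· ∈ S)) i = 0 := by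
    apply h.2
    · intro j hj
      rw [Finsupp.filter_apply, if_neg hj]
    · exact fun h4 => hi (hS h4)
  rw [h1, map_add, Finsupp.add_apply, h2, h3, zero_add, Finsupp.smul_apply, Finsupp.filter_apply]
  split_ifs
  all_goals first
    | rw [hv i hi, smul_zero]
    | rw [smul_zero]

theorem InD.add {S : Finset ℤ} {c d : FF} {T U : Op} (h : InD S c T) (h' : InD S d U) :
    InD S (c + d) (T + U) := by
  refine ⟨fun v hv => ?_, fun v hv i hi => ?_⟩
  · rw [LinearMap.add_apply, h.1 v hv, h'.1 v hv, add_smul]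
  · rw [LinearMap.add_apply, Finsupp.add_apply, h.2 v hv i hi, h'.2 v hv i hi, add_zero]

theorem InD.mul {S : Finset ℤ} {c d : FF} {T U : Op} (h : InD S c T) (h' : InD S d U) :
    InD S (c * d) (T * U) := by
  refine ⟨fun v hv => ?_, fun v hv i hi => ?_⟩
  · rw [Module.End.mul_apply, h'.1 v hv, map_smul, h.1 v hv, smul_smul, mul_comm]
  · rw [Module.End.mul_apply]
    exact h.2 _ (h'.2 v hv) i hi

theorem InD.scal (S : Finset ℤ) (c : FF) : InD S c (algebraMap FF Op c) := by
  refine ⟨fun v _ => rfl, fun v hv i hi => ?_⟩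
  show (c • v) i = 0
  rw [Finsupp.smul_apply, hv i hi, smul_zero]

/-- the operators `scalar + matrix supported in S` -/
def DS (S : Finset ℤ) : Subalgebra FF Op where
  carrier := {T | ∃ c, InD S c T}
  mul_mem' := by
    rintro a b ⟨c, hc⟩ ⟨d, hd⟩
    exact ⟨_, hc.mul hd⟩
  add_mem' := by
    rintro a b ⟨c, hc⟩ ⟨d, hd⟩
    exact ⟨_, hc.add hd⟩
  algebraMap_mem' c := ⟨c, InD.scal S c⟩

theorem mem_DS {S : Finset ℤ} {T : Op} : T ∈ DS S ↔ ∃ c, InD S c T := Iff.rfl

theorem DS_mono {S S' : Finset ℤ} (h : S ⊆ S') : DS S ≤ DS S' := by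
  rintro T ⟨c, hc⟩
  exact ⟨c, hc.mono h⟩

/-- expansion of an operator of `DS S` -/
theorem InD.expand {S : Finset ℤ} {c : FF} {T : Op} (h : InD S c T) :
    T = algebraMap FF Op c + ∑ q ∈ S, ∑ p ∈ S, (T (bv q) p - c * bv q p) • Em p q := by
  apply Op_ext
  intro r
  rw [LinearMap.add_apply, LinearMap.sum_apply]
  have h0 : (algebraMap FF Op c) (bv r) = c • bv r := rfl
  rw [h0]
  by_cases hr : r ∈ S
  · rw [Finset.sum_eq_single r]
    · rw [LinearMap.sum_apply]
      ext i
      rw [Finsupp.add_apply, Finsupp.finsetSum_apply]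
      by_cases hi : i ∈ S
      · rw [Finset.sum_eq_single i]
        · rw [LinearMap.smul_apply, Em_bv_self, Finsupp.smul_apply, Finsupp.smul_apply,
            Finsupp.single_eq_same]
          simp
        · intro p _ hp
          have h9 : bv p i = 0 := by rw [Finsupp.single_apply, if_neg hp]
          rw [LinearMap.smul_apply, Em_bv_self, Finsupp.smul_apply, h9, smul_zero]
        · exact fun h => absurd hi h
      · rw [Finset.sum_eq_zero]
        · rw [h.2 (bv r) _ i hi, Finsupp.smul_apply, Finsupp.single_apply, if_neg, smul_zero,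
            add_zero]
          · rintro rfl; exact hi hr
          · intro j hj
            rw [Finsupp.single_apply, if_neg]
            rintro rfl; exact hj hr
        · intro p hp
          have h9 : bv p i = 0 := by
            rw [Finsupp.single_apply, if_neg]
            rintro rfl; exact hi hp
          rw [LinearMap.smul_apply, Em_bv_self, Finsupp.smul_apply, h9, smul_zero]
    · intro q _ hq
      rw [LinearMap.sum_apply]
      apply Finset.sum_eq_zero
      intro p _
      rw [LinearMap.smul_apply, Em_bv, if_neg (Ne.symm hq), smul_zero]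
    · exact fun h => absurd hr h
  · rw [Finset.sum_eq_zero, add_zero]
    · apply h.1
      intro i hi
      rw [Finsupp.single_apply, if_neg]
      rintro rfl; exact hr hi
    · intro q hq
      rw [LinearMap.sum_apply]
      apply Finset.sum_eq_zero
      intro p _
      rw [LinearMap.smul_apply, Em_bv, if_neg, smul_zero]
      rintro rfl; exact hr hq

instance finite_DS (S : Finset ℤ) : Finite (DS S) := by
  let f : FF × (S → S → FF) → Op := fun x =>
    algebraMap FF Op x.1 + ∑ q : S, ∑ p : S, x.2 q p • Em p q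
  have hsub : ((DS S : Subalgebra FF Op) : Set Op) ⊆ Set.range f := by
    rintro T ⟨c, hc⟩
    refine ⟨(c, fun q p => T (bv q) p - c * bv (q : ℤ) (p : ℤ)), ?_⟩
    show _ = T
    conv_rhs => rw [hc.expand]
    show _ + _ = _ + _
    congr 1
    rw [← Finset.sum_coe_sort S (fun q => ∑ p ∈ S, (T (bv q) p - c * bv q p) • Em p q)]
    refine Finset.sum_congr rfl fun q _ => ?_
    rw [← Finset.sum_coe_sort S (fun p => (T (bv (q : ℤ)) p - c * bv (q : ℤ) p) • Em p (q : ℤ))]
  exact ((Set.finite_range f).subset hsub).to_subtype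

/-- the ring of the operators `scalar + finite matrix` -/
def Dp : Subalgebra FF Op where
  carrier := {T | ∃ S : Finset ℤ, T ∈ DS S}
  mul_mem' := by
    rintro a b ⟨S, hS⟩ ⟨S', hS'⟩
    exact ⟨S ∪ S', (DS _).mul_mem (DS_mono Finset.subset_union_left hS)
      (DS_mono Finset.subset_union_right hS')⟩
  add_mem' := by
    rintro a b ⟨S, hS⟩ ⟨S', hS'⟩
    exact ⟨S ∪ S', (DS _).add_mem (DS_mono Finset.subset_union_left hS)
      (DS_mono Finset.subset_union_right hS')⟩
  algebraMap_mem' c := ⟨∅, (DS _).algebraMap_mem c⟩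

theorem mem_Dp {T : Op} : T ∈ Dp ↔ ∃ S : Finset ℤ, T ∈ DS S := Iff.rfl

theorem Em_mem (p q : ℤ) : Em p q ∈ Dp := by
  refine ⟨{p, q}, 0, fun v hv => ?_, fun v hv i hi => ?_⟩
  · rw [Em_apply, hv q (by simp), Finsupp.single_zero, zero_smul]
  · rw [Em_apply, Finsupp.single_apply, if_neg]
    rintro rfl
    simp at hi

theorem Pm_mem (s : Equiv.Perm ℤ) (S : Finset ℤ) (hS : ∀ i, i ∉ S → s i = i) : Pm s ∈ Dp := by
  have hpres : ∀ v : VV, ∀ i, Pm s v (s i) = v i := by
    intro v i
    show Finsupp.mapDomain s v (s i) = v i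
    exact Finsupp.mapDomain_apply s.injective v i
  refine ⟨S, 1, fun v hv => ?_, fun v hv i hi => ?_⟩
  · rw [one_smul]
    ext i
    obtain ⟨j, rfl⟩ := s.surjective i
    rw [hpres]
    by_cases hj : j ∈ S
    · by_cases hsj : s j ∈ S
      · rw [hv j hj, hv _ hsj]
      · exfalso
        have := s.injective (hS _ hsj)
        rw [this] at hsj
        exact hsj hj
    · rw [hS j hj]
  · have h1 := hpres v i
    rw [hS i hi] at h1
    rw [h1, hv i hi]

theorem sn_fix (n : ℕ) : ∀ i, i ∉ Finset.Icc (-(n : ℤ)) n → sn n i = i := by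
  intro i hi
  rw [Finset.mem_Icc] at hi
  rw [sn_apply, if_neg (by omega), if_neg (by omega)]

theorem sn_inv_fix (n : ℕ) : ∀ i, i ∉ Finset.Icc (-(n : ℤ)) n → (sn n)⁻¹ i = i := by
  intro i hi
  rw [Finset.mem_Icc] at hi
  rw [sn_symm_apply, if_neg (by omega), if_neg (by omega)]

theorem ev_mem (n : ℕ) (a : AA) : ev (sn n) a ∈ Dp := by
  induction a using FreeAlgebra.induction with
  | grade0 r => rw [AlgHom.commutes]; exact Dp.algebraMap_mem r
  | grade1 x =>
    fin_cases x
    · show ev (sn n) (FreeAlgebra.ι FF 0) ∈ Dp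
      rw [ev_0]; exact Pm_mem _ _ (sn_fix n)
    · show ev (sn n) (FreeAlgebra.ι FF 1) ∈ Dp
      rw [ev_1]; exact Pm_mem _ _ (sn_inv_fix n)
    · show ev (sn n) (FreeAlgebra.ι FF 2) ∈ Dp
      rw [ev_2]; exact Em_mem _ _
  | mul a b ha hb => rw [map_mul]; exact Dp.mul_mem ha hb
  | add a b ha hb => rw [map_add]; exact Dp.add_mem ha hb

/-- the evaluation with values in the ring `Dp` -/
noncomputable def evD (n : ℕ) : AA →ₐ[FF] Dp := (ev (sn n)).codRestrict Dp (ev_mem n)

theorem evD_coe (n : ℕ) (a : AA) : ((evD n a : Dp) : Op) = ev (sn n) a := rfl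

/-- every element of `Dp` is eventually an evaluation -/
theorem exists_lift (d : Dp) : ∃ a : AA, ∀ᶠ n : ℕ in atTop, evD n a = d := by
  have hE : ∀ p q : ℤ, ∃ a : AA, ∀ᶠ n : ℕ in atTop, ev (sn n) a = Em p q := by
    intro p q
    have hpow : ∀ i : ℤ, ∃ a : AA, ∀ n : ℕ, ev (sn n) a = Pm ((sn n) ^ i) := by
      intro i
      cases i with
      | ofNat m =>
        refine ⟨(FreeAlgebra.ι FF 0) ^ m, fun n => ?_⟩
        rw [map_pow, ev_0, ← map_pow]
        rfl
      | negSucc m =>
        refine ⟨(FreeAlgebra.ι FF 1) ^ (m + 1), fun n => ?_⟩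
        rw [map_pow, ev_1, ← map_pow, zpow_negSucc, inv_pow]
    obtain ⟨a, ha⟩ := hpow p
    obtain ⟨b, hb⟩ := hpow (-q)
    refine ⟨a * FreeAlgebra.ι FF 2 * b, ?_⟩
    filter_upwards [sn_zpow p 0, sn_zpow q 0] with n h1 h2
    rw [map_mul, map_mul, ha, hb, ev_2, Pm_Em, Em_Pm, h1, ← zpow_neg, neg_neg, h2, zero_add,
      zero_add]
  have hC : ∀ T : Op, T ∈ Submodule.span FF ({1} ∪ {T | ∃ p q, T = Em p q}) →
      ∃ a : AA, ∀ᶠ n : ℕ in atTop, ev (sn n) a = T := by
    intro T hT
    induction hT using Submodule.span_induction with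
    | mem x hx =>
      rcases hx with hx | ⟨p, q, rfl⟩
      · rw [Set.mem_singleton_iff] at hx
        exact ⟨1, Eventually.of_forall fun n => by rw [map_one, hx]⟩
      · exact hE p q
    | zero => exact ⟨0, Eventually.of_forall fun n => map_zero _⟩
    | add x y _ _ hx hy =>
      obtain ⟨a, ha⟩ := hx
      obtain ⟨b, hb⟩ := hy
      refine ⟨a + b, ?_⟩
      filter_upwards [ha, hb] with n h1 h2
      rw [map_add, h1, h2]
    | smul c x _ hx =>
      obtain ⟨a, ha⟩ := hx
      refine ⟨c • a, ?_⟩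
      filter_upwards [ha] with n h1
      rw [map_smul, h1]
  obtain ⟨T, S, c, hc⟩ := d
  obtain ⟨a, ha⟩ := hC T (by
    rw [hc.expand]
    refine Submodule.add_mem _ ?_ (Submodule.sum_mem _ fun q _ => Submodule.sum_mem _ fun p _ =>
      Submodule.smul_mem _ _ (Submodule.subset_span (Or.inr ⟨p, q, rfl⟩)))
    rw [Algebra.algebraMap_eq_smul_one]
    exact Submodule.smul_mem _ _ (Submodule.subset_span (Or.inl rfl)))
  refine ⟨a, ?_⟩
  filter_upwards [ha] with n hn
  apply Subtype.ext
  rw [evD_coe, hn]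

end Pool.Agent.TH256.HT
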