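import Mathlib
import Pool.Agent.TH256.HT.EL
import Pool.Agent.TH256.HT.Dp

/-!
The groups: `HH = EL_3(Dp)` is locally finite, `GG` is a quotient of `EL_3` of the free algebra on
three generators, it contains `HH` and it embeds in the ultrapowers of `HH`.
-/

set_option autoImplicit false
set_option linter.unusedSectionVars false
set_option linter.unusedSimpArgs false

namespace Pool.Agent.TH256.HT

open Filter

noncomputable instance ringDp : Ring Dp := Algebra.semiringToRing FF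

theorem Dp_coe_sub (x y : Dp) : ((x - y : Dp) : Op) = x - y := by
  have h : (x - y) + y = x := sub_add_cancel x y
  have h2 : ((x - y : Dp) : Op) + (y : Op) = (x : Op) := congrArg (fun z : Dp => (z : Op)) h
  rw [← h2]
  apply LinearMap.ext
  intro v
  show ((x - y : Dp) : Op) v = (((x - y : Dp) : Op) v + (y : Op) v) - (y : Op) v
  rw [add_sub_cancel_right]

/-- the locally finite group -/
abbrev HH : Type := EG Dp

/-- the evaluation at level `n` -/
noncomputable def gn (n : ℕ) : EG AA →* HH := mapEG (evD n : AA →+* Dp)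

theorem gn_entry (n : ℕ) (g : EG AA) (a b : Fin 3) :
    ((((gn n g : GL3 Dp) : Matrix (Fin 3) (Fin 3) Dp) a b : Dp) : Op) =
      ev (sn n) (((g : GL3 AA) : Matrix (Fin 3) (Fin 3) AA) a b) := rfl

/-- germs at infinity of sequences in `HH` -/
abbrev GM : Type := Germ (atTop : Filter ℕ) HH

/-- the germ of the sequence of the evaluations -/
noncomputable def Phi : EG AA →* GM := (Germ.coeMulHom atTop).comp (MonoidHom.pi gn)

/-- constant germs -/
noncomputable def cH : HH →* GM := (Germ.coeMulHom atTop).comp (Pi.constMonoidHom ℕ HH)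

theorem Phi_eq (g : EG AA) : Phi g = ((fun n => gn n g : ℕ → HH) : GM) := rfl

theorem cH_eq (h : HH) : cH h = ((fun _ => h : ℕ → HH) : GM) := rfl

theorem cH_inj : Function.Injective cH := by
  intro a b h
  rw [cH_eq, cH_eq, Germ.coe_eq] at h
  obtain ⟨n, hn⟩ := h.exists
  exact hn

theorem Phi_eq_cH {g : EG AA} {h : HH} : Phi g = cH h ↔ ∀ᶠ n : ℕ in atTop, gn n g = h := by
  rw [Phi_eq, cH_eq, Germ.coe_eq]
  rfl

/-- the group with property (T) -/
noncomputable abbrev GG : Subgroup GM := Phi.range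

theorem const_mem (h : HH) : cH h ∈ GG := by
  have hle : EG Dp ≤ ((GG.comap cH).map (EG Dp).subtype) := by
    unfold EG
    rw [Subgroup.closure_le]
    rintro _ ⟨i, j, hij, r, rfl⟩
    refine ⟨eG hij r, ?_, rfl⟩
    show cH (eG hij r) ∈ GG
    obtain ⟨a, ha⟩ := exists_lift r
    refine ⟨eG hij a, ?_⟩
    rw [Phi_eq_cH]
    filter_upwards [ha] with n hn
    show mapEG _ (eG hij a) = _
    rw [mapEG_eG]
    congr 1
  obtain ⟨x, hx, hxh⟩ := hle h.2
  have : x = h := Subtype.ext hxh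
  rwa [← this]

/-- entries of the elements of the elementary group -/
abbrev ent (g : EG AA) (a b : Fin 3) : AA := ((g : GL3 AA) : Matrix (Fin 3) (Fin 3) AA) a b

theorem gn_eq_iff (n : ℕ) (g : EG AA) (h : HH) : gn n g = h ↔ ∀ a b, ev (sn n) (ent g a b) =
    ((((h : GL3 Dp) : Matrix (Fin 3) (Fin 3) Dp) a b : Dp) : Op) := by
  constructor
  · rintro rfl a b
    rfl
  · intro hh
    apply Subtype.ext
    apply Units.ext
    apply Matrix.ext
    intro a b
    apply Subtype.ext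
    exact hh a b

theorem one_entry (a b : Fin 3) :
    (((((1 : HH) : GL3 Dp) : Matrix (Fin 3) (Fin 3) Dp) a b : Dp) : Op) =
      ev sI ((1 : Matrix (Fin 3) (Fin 3) AA) a b) := by
  show (((1 : Matrix (Fin 3) (Fin 3) Dp) a b : Dp) : Op) = _
  rw [Matrix.one_apply, Matrix.one_apply]
  split_ifs
  · rw [map_one]; rfl
  · rw [map_zero]; rfl

theorem one_entry' (n : ℕ) (a b : Fin 3) :
    (((((1 : HH) : GL3 Dp) : Matrix (Fin 3) (Fin 3) Dp) a b : Dp) : Op) =
      ev (sn n) ((1 : Matrix (Fin 3) (Fin 3) AA) a b) := by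
  show (((1 : Matrix (Fin 3) (Fin 3) Dp) a b : Dp) : Op) = _
  rw [Matrix.one_apply, Matrix.one_apply]
  split_ifs
  · rw [map_one]; rfl
  · rw [map_zero]; rfl

theorem Phi_one_of (g : EG AA) (h : ∀ a b, ev sI (ent g a b - (1 : Matrix (Fin 3) (Fin 3) AA) a b) = 0) :
    Phi g = 1 := by
  rw [← map_one cH, Phi_eq_cH]
  have h1 : ∀ᶠ n : ℕ in atTop, ∀ ab : Fin 3 × Fin 3,
      ev (sn n) (ent g ab.1 ab.2 - (1 : Matrix (Fin 3) (Fin 3) AA) ab.1 ab.2) = 0 := by
    rw [Filter.eventually_all]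
    rintro ⟨a, b⟩
    exact ev_zero _ (h a b)
  filter_upwards [h1] with n hn
  rw [gn_eq_iff]
  intro a b
  have h2 := hn (a, b)
  rw [map_sub, sub_eq_zero] at h2
  rw [h2, one_entry' n]

/-- the dichotomy: a nontrivial germ is eventually nontrivial -/
theorem dichotomy (g : EG AA) (hg : Phi g ≠ 1) : ∀ᶠ n : ℕ in atTop, gn n g ≠ 1 := by
  have h1 : ∃ a b, ev sI (ent g a b - (1 : Matrix (Fin 3) (Fin 3) AA) a b) ≠ 0 := by
    by_contra hcon
    push Not at hcon
    exact hg (Phi_one_of g hcon)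
  obtain ⟨a, b, hab⟩ := h1
  filter_upwards [ev_ne_zero _ hab] with n hn h2
  apply hn
  rw [gn_eq_iff] at h2
  rw [map_sub, h2 a b, one_entry' n, sub_self]

/-! ### infinite conjugacy classes -/

/-- determinant of the augmentation -/
theorem det_aug (g : EG AA) :
    (Matrix.of fun a b => aug (ent g a b)).det = 1 := by
  let f : GL3 AA →* FF := (Matrix.detMonoidHom).comp
    ((Units.coeHom _).comp (mapGL (aug : AA →+* FF)))
  have hf : ∀ g : GL3 AA, f g = (Matrix.of fun a b => aug ((g : Matrix (Fin 3) (Fin 3) AA) a b)).det :=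
    fun g => rfl
  have hle : EG AA ≤ f.ker := by
    unfold EG
    rw [Subgroup.closure_le]
    rintro _ ⟨i, j, h, r, rfl⟩
    show f (el h r) = 1
    show (((mapGL (aug : AA →+* FF) (el h r) : GL3 FF)) : Matrix (Fin 3) (Fin 3) FF).det = 1
    rw [mapGL_el, el_coe]
    exact Matrix.det_transvection_of_ne i j h _
  exact hle g.2

theorem conj_key (g : EG AA) {i i' j : Fin 3} (hi : i ≠ j) (hi' : i' ≠ j) (p p' : ℤ)
    (hfin : {x : GM | ∃ h : HH, x = cH h * Phi g * (cH h)⁻¹}.Finite) :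
    ∃ q q' : ℤ, q ≠ q' ∧
      (∀ᶠ n : ℕ in atTop, (eG hi (⟨Em p q', Em_mem _ _⟩ - ⟨Em p q, Em_mem _ _⟩ : Dp)) * gn n g =
        gn n g * eG hi (⟨Em p q', Em_mem _ _⟩ - ⟨Em p q, Em_mem _ _⟩ : Dp)) ∧
      (∀ᶠ n : ℕ in atTop, (eG hi' (⟨Em p' q', Em_mem _ _⟩ - ⟨Em p' q, Em_mem _ _⟩ : Dp)) * gn n g =
        gn n g * eG hi' (⟨Em p' q', Em_mem _ _⟩ - ⟨Em p' q, Em_mem _ _⟩ : Dp)) := by
  let X := {x : GM | ∃ h : HH, x = cH h * Phi g * (cH h)⁻¹}
  have : Finite X := hfin.to_subtype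
  let F : ∀ {i j : Fin 3} (_ : i ≠ j) (_ _ : ℤ), X := fun {i j} h p q =>
    ⟨cH (eG h (⟨Em p q, Em_mem _ _⟩ : Dp)) * Phi g * (cH (eG h (⟨Em p q, Em_mem _ _⟩ : Dp)))⁻¹,
      ⟨_, rfl⟩⟩
  obtain ⟨q, q', hne, heq⟩ := Finite.exists_ne_map_eq_of_infinite
    (fun q : ℤ => (F hi p q, F hi' p' q))
  rw [Prod.mk.injEq] at heq
  have key : ∀ {i j : Fin 3} (h : i ≠ j) (p : ℤ), F h p q = F h p q' →
      (∀ᶠ n : ℕ in atTop, (eG h (⟨Em p q', Em_mem _ _⟩ - ⟨Em p q, Em_mem _ _⟩ : Dp)) * gn n g =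
        gn n g * eG h (⟨Em p q', Em_mem _ _⟩ - ⟨Em p q, Em_mem _ _⟩ : Dp)) := by
    intro i j h p hF
    have h1 := congrArg Subtype.val hF
    have h2 : cH (eG h (⟨Em p q, Em_mem _ _⟩ : Dp)) * Phi g *
        (cH (eG h (⟨Em p q, Em_mem _ _⟩ : Dp)))⁻¹ =
        cH (eG h (⟨Em p q', Em_mem _ _⟩ : Dp)) * Phi g *
        (cH (eG h (⟨Em p q', Em_mem _ _⟩ : Dp)))⁻¹ := h1
    have h3 : eG h (⟨Em p q', Em_mem _ _⟩ - ⟨Em p q, Em_mem _ _⟩ : Dp) =
        (eG h (⟨Em p q, Em_mem _ _⟩ : Dp))⁻¹ * eG h (⟨Em p q', Em_mem _ _⟩ : Dp) := by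
      rw [← eG_neg, ← eG_add, sub_eq_add_neg, add_comm]
    have h4 : cH (eG h (⟨Em p q', Em_mem _ _⟩ - ⟨Em p q, Em_mem _ _⟩ : Dp)) * Phi g =
        Phi g * cH (eG h (⟨Em p q', Em_mem _ _⟩ - ⟨Em p q, Em_mem _ _⟩ : Dp)) := by
      rw [h3, map_mul, map_inv]
      generalize cH (eG h (⟨Em p q, Em_mem _ _⟩ : Dp)) = u at *
      generalize cH (eG h (⟨Em p q', Em_mem _ _⟩ : Dp)) = v at *
      have h5 : u * Phi g = v * Phi g * v⁻¹ * u := by
        rw [← h2, inv_mul_cancel_right]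
      calc u⁻¹ * v * Phi g = u⁻¹ * (v * Phi g * v⁻¹ * u) * u⁻¹ * v := by group
        _ = u⁻¹ * (u * Phi g) * u⁻¹ * v := by rw [← h5]
        _ = Phi g * (u⁻¹ * v) := by group
    rw [cH_eq, Phi_eq, ← Germ.coe_mul, ← Germ.coe_mul, Germ.coe_eq] at h4
    exact h4
  exact ⟨q, q', hne, key hi p heq.1, key hi' p' heq.2⟩

theorem comm_entries (n : ℕ) (g : EG AA) {i j : Fin 3} (hij : i ≠ j) (y : Dp)
    (h : eG hij y * gn n g = gn n g * eG hij y) :
    (∀ a, a ≠ i → ev (sn n) (ent g a i) * (y : Op) = 0) ∧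
      (y : Op) * ev (sn n) (ent g j j) = ev (sn n) (ent g i i) * (y : Op) := by
  have h1 : (Matrix.single i j y : Matrix (Fin 3) (Fin 3) Dp) *
      ((gn n g : GL3 Dp) : Matrix (Fin 3) (Fin 3) Dp) =
      ((gn n g : GL3 Dp) : Matrix (Fin 3) (Fin 3) Dp) * Matrix.single i j y := by
    have h2 := congrArg (fun x : HH => ((x : GL3 Dp) : Matrix (Fin 3) (Fin 3) Dp)) h
    have h3 : (1 + Matrix.single i j y : Matrix (Fin 3) (Fin 3) Dp) *
      ((gn n g : GL3 Dp) : Matrix (Fin 3) (Fin 3) Dp) =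
      ((gn n g : GL3 Dp) : Matrix (Fin 3) (Fin 3) Dp) * (1 + Matrix.single i j y) := h2
    rw [add_mul, mul_add, one_mul, mul_one] at h3
    exact add_left_cancel h3
  refine ⟨fun a ha => ?_, ?_⟩
  · have h4 := congrArg (fun M : Matrix (Fin 3) (Fin 3) Dp => ((M a j : Dp) : Op)) h1
    rw [Matrix.single_mul_apply_of_ne _ _ _ _ _ ha, Matrix.mul_single_apply_same] at h4
    exact h4.symm
  · have h4 := congrArg (fun M : Matrix (Fin 3) (Fin 3) Dp => ((M i j : Dp) : Op)) h1
    rw [Matrix.single_mul_apply_same, Matrix.mul_single_apply_same] at h4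
    exact h4

theorem exists_third (i i' : Fin 3) : ∃ j, i ≠ j ∧ i' ≠ j := by
  fin_cases i <;> fin_cases i' <;> first
    | exact ⟨0, by decide, by decide⟩
    | exact ⟨1, by decide, by decide⟩
    | exact ⟨2, by decide, by decide⟩

theorem icc (g : EG AA) (hfin : {x : GM | ∃ h : HH, x = cH h * Phi g * (cH h)⁻¹}.Finite) :
    Phi g = 1 := by
  -- action of the limit on basis vectors
  have hcol : ∀ (i : Fin 3) (p : ℤ), (∀ a, a ≠ i → ev sI (ent g a i) (bv p) = 0) := by
    intro i p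
    obtain ⟨j, hj, _⟩ := exists_third i i
    obtain ⟨q, q', hne, h1, _⟩ := conj_key g hj hj p p hfin
    intro a ha
    obtain ⟨n, e1, e2⟩ := (h1.and (ev_tendsto (ent g a i) p)).exists
    have e3 := (comm_entries n g hj _ e1).1 a ha
    rw [Dp_coe_sub] at e3
    have e4 := congrArg (fun T : Op => T (bv q')) e3
    have e5 : ev (sn n) (ent g a i) ((Em p q' - Em p q) (bv q')) = 0 := e4
    rw [LinearMap.sub_apply, Em_bv_self, Em_bv, if_neg (Ne.symm hne), sub_zero] at e5
    rw [← e2, e5]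
  have hdiag : ∀ (i : Fin 3) (p : ℤ), ∃ c : FF, ev sI (ent g i i) (bv p) = c • bv p := by
    intro i p
    obtain ⟨j, hj, _⟩ := exists_third i i
    obtain ⟨q, q', hne, h1, _⟩ := conj_key g hj hj p p hfin
    obtain ⟨n, e1, e2⟩ := (h1.and (ev_tendsto (ent g i i) p)).exists
    have e3 := (comm_entries n g hj _ e1).2
    rw [Dp_coe_sub] at e3
    have e4 := congrArg (fun T : Op => T (bv q')) e3
    have e5 : (Em p q' - Em p q) (ev (sn n) (ent g j j) (bv q')) =
      ev (sn n) (ent g i i) ((Em p q' - Em p q) (bv q')) := e4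
    rw [LinearMap.sub_apply, LinearMap.sub_apply, Em_bv_self, Em_bv, if_neg (Ne.symm hne),
      sub_zero, e2, Em_apply, Em_apply, ← Finsupp.single_sub] at e5
    refine ⟨(ev (sn n) (ent g j j) (bv q')) q' - (ev (sn n) (ent g j j) (bv q')) q,
      e5.symm.trans ?_⟩
    rw [Finsupp.smul_single, smul_eq_mul, mul_one]
  choose c hc using hdiag
  have hceq : ∀ (i i' : Fin 3) (p p' : ℤ), c i p = c i' p' := by
    intro i i' p p'
    obtain ⟨j, hj, hj'⟩ := exists_third i i'
    obtain ⟨q, q', hne, h1, h2⟩ := conj_key g hj hj' p p' hfin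
    have key : ∀ {i : Fin 3} (hj : i ≠ j) (p : ℤ), (∀ᶠ n : ℕ in atTop,
        (eG hj (⟨Em p q', Em_mem _ _⟩ - ⟨Em p q, Em_mem _ _⟩ : Dp)) * gn n g =
        gn n g * eG hj (⟨Em p q', Em_mem _ _⟩ - ⟨Em p q, Em_mem _ _⟩ : Dp)) → c i p = c j q' := by
      intro i hj p h1
      obtain ⟨n, ⟨e1, e2⟩, e6⟩ := ((h1.and (ev_tendsto (ent g i i) p)).and
        (ev_tendsto (ent g j j) q')).exists
      have e3 := (comm_entries n g hj _ e1).2
      rw [Dp_coe_sub] at e3
      have e4 := congrArg (fun T : Op => T (bv q')) e3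
      have e5 : (Em p q' - Em p q) (ev (sn n) (ent g j j) (bv q')) =
        ev (sn n) (ent g i i) ((Em p q' - Em p q) (bv q')) := e4
      rw [e6, hc, LinearMap.sub_apply, LinearMap.sub_apply, map_smul, map_smul, Em_bv_self, Em_bv,
        if_neg (Ne.symm hne), smul_zero, sub_zero, sub_zero, e2, hc] at e5
      have e7 := congrArg (fun v : VV => v p) e5
      rw [Finsupp.smul_apply, Finsupp.smul_apply, Finsupp.single_eq_same, smul_eq_mul, mul_one,
        smul_eq_mul, mul_one] at e7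
      exact e7.symm
    rw [key hj p h1, key hj' p' h2]
  -- the scalar is one
  have hone : c 0 0 = 1 := by
    have hD := det_aug g
    have hfar : ∀ a b : Fin 3, ev sI (ent g a b) = if a = b then algebraMap FF Op (c 0 0) else 0 := by
      intro a b
      apply Op_ext
      intro p
      split_ifs with hab
      · subst hab
        rw [hc, hceq a 0 p 0]
        rfl
      · rw [hcol b p a hab]
        rfl
    have hev : ∀ a b : Fin 3, ∀ᶠ n : ℕ in atTop, ev (sn n) (ent g a b) =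
        if a = b then algebraMap FF Op (c 0 0) else 0 := by
      intro a b
      have h1 : ev sI (ent g a b - if a = b then algebraMap FF AA (c 0 0) else 0) = 0 := by
        rw [map_sub, hfar]
        split_ifs
        · rw [AlgHom.commutes, sub_self]
        · rw [map_zero, sub_self]
      filter_upwards [ev_zero _ h1] with n hn
      rw [map_sub, sub_eq_zero] at hn
      rw [hn]
      split_ifs
      · rw [AlgHom.commutes]
      · rw [map_zero]
    have haug : ∀ a b : Fin 3, aug (ent g a b) = if a = b then c 0 0 else 0 := by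
      intro a b
      obtain ⟨n, hn⟩ := (hev a b).exists
      have h1 := aug_spec n (ent g a b) ((n : ℤ) + 1) (by
        rw [abs_of_nonneg (by positivity)]; omega)
      rw [hn] at h1
      have h2 := congrArg (fun v : VV => v ((n : ℤ) + 1)) h1
      rw [Finsupp.smul_apply, Finsupp.single_eq_same, smul_eq_mul, mul_one] at h2
      rw [← h2]
      split_ifs
      · show (c 0 0 • bv ((n : ℤ) + 1)) _ = _
        rw [Finsupp.smul_apply, Finsupp.single_eq_same, smul_eq_mul, mul_one]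
      · rfl
    have hmat : (Matrix.of fun a b => aug (ent g a b)) = Matrix.diagonal fun _ => c 0 0 := by
      ext a b
      rw [Matrix.of_apply, haug, Matrix.diagonal_apply]
    rw [hmat, Matrix.det_diagonal, Finset.prod_const, Finset.card_univ, Fintype.card_fin] at hD
    have hdec : ∀ x : FF, x ^ 3 = 1 → x = 1 := by decide
    exact hdec _ hD
  apply Phi_one_of
  intro a b
  apply Op_ext
  intro p
  rw [map_sub, LinearMap.sub_apply, Matrix.one_apply]
  split_ifs with hab
  · subst hab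
    rw [hc, hceq a 0 p 0, hone, one_smul, map_one]
    exact sub_self _
  · rw [hcol b p a hab, map_zero, LinearMap.zero_apply, sub_zero]

end Pool.Agent.TH256.HT
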