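import Mathlib
import Pool.Agent.TH256.HT.Grp

/-!
Local finiteness of `HH`, countability, and the strong property (T) of `GG`.
-/

set_option autoImplicit false
set_option linter.unusedSectionVars false
set_option linter.unusedSimpArgs false

namespace Pool.Agent.TH256.HT

open Filter

/-- every finite subset is contained in a finite subgroup -/
def LocFin (Γ : Type) [Group Γ] : Prop :=
  ∀ S : Finset Γ, ∃ F : Subgroup Γ, Finite F ∧ ∀ g ∈ S, g ∈ F

/-- a finite submonoid of a group as a subgroup -/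
def ofFinite {Γ : Type} [Group Γ] (N : Submonoid Γ) (hN : (N : Set Γ).Finite) : Subgroup Γ where
  toSubmonoid := N
  inv_mem' := by
    intro x hx
    have : Finite N := hN.to_subtype
    obtain ⟨i, j, hij, heq⟩ := Finite.exists_ne_map_eq_of_infinite
      (fun i : ℕ => (⟨x ^ i, N.pow_mem hx i⟩ : N))
    have h1 : x ^ i = x ^ j := congrArg Subtype.val heq
    have key : ∀ i j : ℕ, i < j → x ^ i = x ^ j → x⁻¹ ∈ N := by
      intro i j hlt h1
      have h2 : x ^ (j - i) = 1 := by
        have h3 : x ^ i * x ^ (j - i) = x ^ i := by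
          rw [← pow_add, Nat.add_sub_cancel' hlt.le, h1]
        exact mul_eq_left.1 h3
      have h3 : x⁻¹ = x ^ (j - i - 1) := by
        rw [inv_eq_iff_mul_eq_one, ← pow_succ', Nat.sub_add_cancel (by omega), h2]
      rw [h3]
      exact N.pow_mem hx _
    rcases lt_or_gt_of_ne hij with h | h
    · exact key i j h h1
    · exact key j i h h1.symm

/-- the elements of `HH` with entries in `DS S` -/
def HS (S : Finset ℤ) : Submonoid HH where
  carrier := {h | ∀ a b, ((((h : GL3 Dp) : Matrix (Fin 3) (Fin 3) Dp) a b : Dp) : Op) ∈ DS S}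
  mul_mem' := by
    intro x y hx hy a b
    have h1 : ((((x * y : HH) : GL3 Dp) : Matrix (Fin 3) (Fin 3) Dp) a b) =
        ∑ c, ((x : GL3 Dp) : Matrix (Fin 3) (Fin 3) Dp) a c *
          ((y : GL3 Dp) : Matrix (Fin 3) (Fin 3) Dp) c b := Matrix.mul_apply
    rw [h1, Fin.sum_univ_three]
    exact (DS S).add_mem ((DS S).add_mem ((DS S).mul_mem (hx _ _) (hy _ _))
      ((DS S).mul_mem (hx _ _) (hy _ _))) ((DS S).mul_mem (hx _ _) (hy _ _))
  one_mem' := by
    intro a b
    show (((1 : Matrix (Fin 3) (Fin 3) Dp) a b : Dp) : Op) ∈ DS S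
    rw [Matrix.one_apply]
    split_ifs
    · exact (DS S).one_mem
    · exact (DS S).zero_mem

theorem finite_HS (S : Finset ℤ) : ((HS S : Submonoid HH) : Set HH).Finite := by
  let f : ↥(HS S) → (Fin 3 → Fin 3 → DS S) := fun h a b => ⟨_, h.2 a b⟩
  have hf : Function.Injective f := by
    intro x y hxy
    apply Subtype.ext
    apply Subtype.ext
    apply Units.ext
    apply Matrix.ext
    intro a b
    apply Subtype.ext
    exact congrArg (fun z : DS S => (z : Op)) (congrFun (congrFun hxy a) b)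
  have : Finite ↥(HS S) := Finite.of_injective f hf
  exact Set.toFinite _

theorem locFin_HH : LocFin HH := by
  intro T
  have h1 : ∀ h : HH, ∃ S : Finset ℤ, h ∈ HS S := by
    intro h
    have h2 : ∀ ab : Fin 3 × Fin 3, ∃ S : Finset ℤ,
        ((((h : GL3 Dp) : Matrix (Fin 3) (Fin 3) Dp) ab.1 ab.2 : Dp) : Op) ∈ DS S := fun ab =>
      (((h : GL3 Dp) : Matrix (Fin 3) (Fin 3) Dp) ab.1 ab.2).2
    choose S hS using h2
    refine ⟨Finset.univ.biUnion S, fun a b => ?_⟩
    exact DS_mono (Finset.subset_biUnion_of_mem S (Finset.mem_univ (a, b))) (hS (a, b))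
  choose S hS using h1
  refine ⟨ofFinite (HS (T.biUnion S)) (finite_HS _), (finite_HS _).to_subtype, ?_⟩
  intro g hg
  show g ∈ HS (T.biUnion S)
  intro a b
  exact DS_mono (Finset.subset_biUnion_of_mem S hg) (hS g a b)

/-! ### countability -/

instance countable_AA : Countable AA := by
  rw [← Cardinal.mk_le_aleph0_iff]
  refine (FreeAlgebra.cardinalMk_le_max_lift FF (Fin 3)).trans ?_
  simp

instance countable_EGAA : Countable (EG AA) := by
  have : Function.Injective (fun g : EG AA => fun a b => ent g a b) := by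
    intro x y hxy
    apply Subtype.ext
    apply Units.ext
    apply Matrix.ext
    intro a b
    exact congrFun (congrFun hxy a) b
  exact this.countable

instance countable_GG : Countable GG :=
  Function.Surjective.countable (f := Phi.rangeRestrict) Phi.rangeRestrict_surjective

/-- the inclusion of `HH` in `GG` -/
noncomputable def incH : HH →* GG := cH.codRestrict GG const_mem

theorem incH_inj : Function.Injective incH := by
  intro a b h
  exact cH_inj (congrArg Subtype.val h)

instance countable_HH : Countable HH := incH_inj.countable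

/-! ### infinite conjugacy classes -/

theorem icc_GG' (g : GG) (hg : g ≠ 1) : {x : GG | ∃ h : HH, x = incH h * g * (incH h)⁻¹}.Infinite := by
  intro hfin
  apply hg
  obtain ⟨⟨_, x, rfl⟩, hgx⟩ : ∃ y : GG, y = g := ⟨g, rfl⟩
  have h1 : {y : GM | ∃ h : HH, y = cH h * Phi x * (cH h)⁻¹}.Finite := by
    refine (hfin.image Subtype.val).subset ?_
    rintro _ ⟨h, rfl⟩
    refine ⟨incH h * g * (incH h)⁻¹, ⟨h, rfl⟩, ?_⟩
    rw [← hgx]
    rfl
  have h2 := icc x h1
  rw [← hgx]
  exact Subtype.ext h2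

theorem icc_GG (g : GG) (hg : g ≠ 1) : (Set.range fun h : GG => h * g * h⁻¹).Infinite := by
  refine (icc_GG' g hg).mono ?_
  rintro _ ⟨h, rfl⟩
  exact ⟨incH h, rfl⟩

theorem icc_HH (g : HH) (hg : g ≠ 1) : (Set.range fun h : HH => h * g * h⁻¹).Infinite := by
  intro hfin
  refine icc_GG' (incH g) (fun h => hg (incH_inj (by rw [h, map_one]))) ?_
  refine (hfin.image incH).subset ?_
  rintro _ ⟨h, rfl⟩
  refine ⟨h * g * h⁻¹, ⟨h, rfl⟩, ?_⟩
  rw [map_mul, map_mul, map_inv]

instance nontrivial_HH : Nontrivial HH := by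
  refine ⟨eG d01 1, 1, fun h => ?_⟩
  have h1 := congrArg (fun x : HH => ((x : GL3 Dp) : Matrix (Fin 3) (Fin 3) Dp) 0 1) h
  have h2 : (1 + Matrix.single 0 1 1 : Matrix (Fin 3) (Fin 3) Dp) 0 1 =
    (1 : Matrix (Fin 3) (Fin 3) Dp) 0 1 := h1
  rw [Matrix.add_apply, Matrix.single_apply_same, Matrix.one_apply_ne (by decide), zero_add] at h2
  have h3 := congrArg (fun x : Dp => (x : Op) (bv 0) 0) h2
  have h4 : (bv 0 : VV) 0 = (0 : VV) 0 := h3
  rw [Finsupp.single_eq_same] at h4
  exact one_ne_zero h4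

theorem infinite_of_icc {Γ : Type} [Group Γ] [Nontrivial Γ]
    (h : ∀ g : Γ, g ≠ 1 → (Set.range fun h : Γ => h * g * h⁻¹).Infinite) : Infinite Γ := by
  obtain ⟨g, hg⟩ := exists_ne (1 : Γ)
  exact Set.infinite_univ_iff.1 ((h g hg).mono (Set.subset_univ _))

instance infinite_HH : Infinite HH := infinite_of_icc icc_HH

instance infinite_GG : Infinite GG := Infinite.of_injective incH incH_inj

/-! ### property (T) -/

/-- the strong property (T) of a group: a finite set `S` and a constant `δ` such that a unitary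
representation with an almost `S`-invariant unit vector has a nonzero invariant vector -/
def GroupT (Γ : Type) [Group Γ] : Prop :=
  ∃ (S : Finset Γ) (δ : ℝ), 0 < δ ∧ ∀ (E : Type) [NormedAddCommGroup E] [InnerProductSpace ℂ E]
    [CompleteSpace E] (σ : Γ →* (E →L[ℂ] E)), (∀ g, σ g ∈ unitary (E →L[ℂ] E)) → ∀ v : E, ‖v‖ = 1 →
      (∀ g ∈ S, ‖σ g v - v‖ < δ) → ∃ w : E, w ≠ 0 ∧ ∀ g, σ g w = w

/-- the generators -/
noncomputable def iW : (Fin 4 → FF) →ₗ[FF] AA :=
  (LinearMap.toSpanSingleton FF AA 1).comp (LinearMap.proj 3) +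
  ((LinearMap.toSpanSingleton FF AA (FreeAlgebra.ι FF 0)).comp (LinearMap.proj 0) +
  ((LinearMap.toSpanSingleton FF AA (FreeAlgebra.ι FF 1)).comp (LinearMap.proj 1) +
  (LinearMap.toSpanSingleton FF AA (FreeAlgebra.ι FF 2)).comp (LinearMap.proj 2)))

theorem iW_apply (w : Fin 4 → FF) : iW w = w 3 • (1 : AA) + (w 0 • FreeAlgebra.ι FF 0 +
    (w 1 • FreeAlgebra.ι FF 1 + w 2 • FreeAlgebra.ι FF 2)) := rfl

theorem groupT_EGAA : GroupT (EG AA) := by
  classical
  refine ⟨(Finset.univ.image fun a : FF => eG d01 (algebraMap FF AA a)) ∪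
    ((Finset.univ.image fun a : FF => eG d12 (algebraMap FF AA a)) ∪
    (Finset.univ.image fun w : Fin 4 → FF => eG d20 (iW w))), 1 / 61, by norm_num, ?_⟩
  intro E _ _ _ σ hσ v hv hS
  have h1 : Algebra.adjoin FF (Set.range iW) = ⊤ := by
    rw [eq_top_iff, ← FreeAlgebra.adjoin_range_ι]
    apply Algebra.adjoin_mono
    rintro _ ⟨x, rfl⟩
    fin_cases x
    · refine ⟨Pi.single 0 1, ?_⟩
      rw [iW_apply]; simp
    · refine ⟨Pi.single 1 1, ?_⟩
      rw [iW_apply]; simp
    · refine ⟨Pi.single 2 1, ?_⟩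
      rw [iW_apply]; simp
  have h2 : (1 : AA) ∈ Set.range iW := by
    refine ⟨Pi.single 3 1, ?_⟩
    rw [iW_apply]; simp
  have h3 : 7 ≤ Fintype.card FF := by
    rw [ZMod.card]; norm_num
  have h4 : ∀ a : FF, ‖σ (eG d01 (algebraMap FF AA a)) v - v‖ ≤ 1 / 61 := by
    intro a
    exact (hS _ (by
      rw [Finset.mem_union]; left
      exact Finset.mem_image_of_mem _ (Finset.mem_univ _))).le
  have h5 : ∀ a : FF, ‖σ (eG d12 (algebraMap FF AA a)) v - v‖ ≤ 1 / 61 := by
    intro a
    exact (hS _ (by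
      rw [Finset.mem_union]; right
      rw [Finset.mem_union]; left
      exact Finset.mem_image_of_mem _ (Finset.mem_univ _))).le
  have h6 : ∀ w : Fin 4 → FF, ‖σ (eG d20 (iW w)) v - v‖ ≤ 1 / 61 := by
    intro w
    exact (hS _ (by
      rw [Finset.mem_union]; right
      rw [Finset.mem_union]; right
      exact Finset.mem_image_of_mem _ (Finset.mem_univ _))).le
  obtain ⟨w, hw, hvw⟩ := EG_inv (k := FF) iW h1 h2 σ hσ h3 v (1 / 61) h4 h5 h6
  refine ⟨w, ?_, hw⟩
  rintro rfl
  rw [sub_zero, hv] at hvw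
  norm_num at hvw

theorem GroupT.of_surj {Γ Λ : Type} [Group Γ] [Group Λ] (h : GroupT Γ) (f : Γ →* Λ)
    (hf : Function.Surjective f) : GroupT Λ := by
  classical
  obtain ⟨S, δ, hδ, hS⟩ := h
  refine ⟨S.image f, δ, hδ, ?_⟩
  intro E _ _ _ σ hσ v hv hv2
  obtain ⟨w, hw, hw2⟩ := hS E (σ.comp f) (fun g => hσ _) v hv (fun g hg =>
    hv2 _ (Finset.mem_image_of_mem _ hg))
  refine ⟨w, hw, fun g => ?_⟩
  obtain ⟨x, rfl⟩ := hf g
  exact hw2 x

theorem groupT_GG : GroupT GG := groupT_EGAA.of_surj Phi.rangeRestrict Phi.rangeRestrict_surjective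

end Pool.Agent.TH256.HT
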