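import Mathlib
import Pool.Agent.H504R3.Defs
import Pool.Agent.Helper278.Defs

/-!
# Haagerup property, property (T) and existential embeddings of tracial von Neumann algebras

`TVN` (file `H504R3/Defs.lean`) is a tracial von Neumann algebra: a von Neumann algebra on a
Hilbert space with a faithful normal tracial state.  `Helper278.IsTracialUltrapower`
(file `Helper278/Defs.lean`) says that an algebra is the tracial ultrapower.
-/

set_option autoImplicit false

open scoped InnerProductSpace ComplexOrder BoundedContinuousFunction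
open Pool.Agent.H504R3 (TVN)

namespace Pool.Agent.TH256.HT

/-- `ψ` is a normal positive functional on `M`: a countable sum of vector functionals. -/
def IsNormalFunctional (M : TVN) (ψ : M.E → ℂ) : Prop :=
  ∃ ξ : ℕ → M.H, Summable (fun k => ‖ξ k‖ ^ 2) ∧
    ∀ x : M.E, ψ x = ∑' k, ⟪ξ k, (x : M.H →L[ℂ] M.H) (ξ k)⟫_ℂ

/-! ### the Haagerup property -/

/-- `φ : N → N` is completely positive: `∑ ⟨ζ i, φ(a i* a j) ζ j⟩ ≥ 0` for all finite families of
elements `a i` of `N` and of vectors `ζ i` of the Hilbert space on which `N` acts. -/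
def IsCompletelyPositive (N : TVN) (φ : N.E →ₗ[ℂ] N.E) : Prop :=
  ∀ (n : ℕ) (a : Fin n → N.E) (ζ : Fin n → N.H),
    0 ≤ ∑ i, ∑ j, ⟪ζ i, ((φ (star (a i) * a j) : N.E) : N.H →L[ℂ] N.H) (ζ j)⟫_ℂ

/-- `φ : N → N` is normal: its composition with every vector functional is normal. -/
def IsNormalMap (N : TVN) (φ : N.E →ₗ[ℂ] N.E) : Prop :=
  ∀ η : N.H, IsNormalFunctional N fun x => ⟪η, ((φ x : N.E) : N.H →L[ℂ] N.H) η⟫_ℂ

/-- `φ : N → N` induces a compact operator on `L²(N)`: the image of the unit ball of the 2-norm is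
totally bounded in the 2-norm. -/
def IsCompactL2 (N : TVN) (φ : N.E →ₗ[ℂ] N.E) : Prop :=
  ∀ ε : ℝ, 0 < ε → ∃ S : Finset N.E, ∀ x : N.E, N.norm2 x ≤ 1 → ∃ y ∈ S, N.norm2 (φ x - y) < ε

/-- `N` has the Haagerup property: there is a net (indexed by a nonempty directed preorder) of
normal, unital, trace preserving, completely positive maps `φ i : N → N`, each inducing a compact
operator on `L²(N)`, with `‖φ i x - x‖₂ → 0` for every `x` in `N`. -/
def HasHaagerupProperty (N : TVN) : Prop :=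
  ∃ (I : Type) (_ : Preorder I) (_ : IsDirectedOrder I) (_ : Nonempty I)
    (φ : I → (N.E →ₗ[ℂ] N.E)),
    (∀ i, IsNormalMap N (φ i)) ∧ (∀ i, φ i 1 = 1) ∧ (∀ i x, N.τ (φ i x) = N.τ x) ∧
    (∀ i, IsCompletelyPositive N (φ i)) ∧ (∀ i, IsCompactL2 N (φ i)) ∧
    ∀ x : N.E, Filter.Tendsto (fun i => N.norm2 (φ i x - x)) Filter.atTop (nhds 0)

/-! ### property (T) -/

/-- `f` is 2-norm continuous on the balls of the operator norm. -/
def IsContFunctional (M : TVN) (f : M.E → ℂ) : Prop :=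
  ∀ r ε : ℝ, 0 < ε → ∃ δ : ℝ, 0 < δ ∧ ∀ x y : M.E, M.opNorm x ≤ r → M.opNorm y ≤ r →
    M.norm2 (x - y) < δ → ‖f x - f y‖ < ε

/-- A Hilbert `M`-`M` bimodule: a Hilbert space with commuting normal unital `*`-representations
`L` of `M` and `R` of the opposite algebra of `M`; `x ξ = L x ξ` and `ξ x = R (op x) ξ`. -/
structure Bimodule (M : TVN) where
  /-- the Hilbert space -/
  K : Type
  [i1 : NormedAddCommGroup K]
  [i2 : InnerProductSpace ℂ K]
  [i3 : CompleteSpace K]
  /-- the left action -/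
  L : M.E →⋆ₐ[ℂ] (K →L[ℂ] K)
  /-- the right action -/
  R : M.Eᵐᵒᵖ →⋆ₐ[ℂ] (K →L[ℂ] K)
  comm : ∀ x y, L x * R y = R y * L x
  normal_left : ∀ ξ : K, IsContFunctional M fun x => ⟪ξ, L x ξ⟫_ℂ
  normal_right : ∀ ξ : K, IsContFunctional M fun x => ⟪ξ, R (MulOpposite.op x) ξ⟫_ℂ

attribute [instance] Bimodule.i1 Bimodule.i2 Bimodule.i3

/-- `M` has property (T): there are a finite set `F ⊆ M` and `δ > 0` such that every Hilbert
`M`-`M` bimodule which has a unit vector `ξ` with `‖x ξ - ξ x‖ < δ` for all `x ∈ F` has a nonzero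
vector `η` with `x η = η x` for all `x ∈ M`. -/
def HasPropertyT (M : TVN) : Prop :=
  ∃ (F : Finset M.E) (δ : ℝ), 0 < δ ∧ ∀ (B : Bimodule M) (ξ : B.K), ‖ξ‖ = 1 →
    (∀ x ∈ F, ‖B.L x ξ - B.R (MulOpposite.op x) ξ‖ < δ) →
      ∃ η : B.K, η ≠ 0 ∧ ∀ x : M.E, B.L x η = B.R (MulOpposite.op x) η

/-! ### existential embeddings -/

/-- The embedding `ι : N → M` is existential with respect to the ultrafilter `U` on `ℕ`: for a
tracial ultrapower `(Q, σ)` of `N` along `U` (with quotient map `π` from the bounded sequences of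
elements of `N`), there is a trace preserving embedding `θ : M → Q` such that `θ ∘ ι` is the
diagonal embedding of `N`. -/
def IsExistential (U : Ultrafilter ℕ) {N M : TVN} (ι : N.E →⋆ₐ[ℂ] M.E) : Prop :=
  ∃ (Q : Type) (_ : Ring Q) (_ : StarRing Q) (_ : Algebra ℂ Q) (_ : StarModule ℂ Q)
    (π : (ℕ →ᵇ N.E) →⋆ₐ[ℂ] Q) (σ : Q → ℂ),
    Helper278.IsTracialUltrapower (fun x => N.τ x) U π σ ∧
    ∃ θ : M.E →⋆ₐ[ℂ] Q, (∀ x : M.E, σ (θ x) = M.τ x) ∧
      ∀ x : N.E, θ (ι x) = π (BoundedContinuousFunction.const ℕ x)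

end Pool.Agent.TH256.HT
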