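import Mathlib
import Pool.Agent.Helper278.RGVN

/-!
Extension of a unitary representation of a group to its von Neumann algebra.
-/

set_option autoImplicit false
set_option linter.unusedSectionVars false

open scoped InnerProductSpace ComplexOrder
open Filter Topology

namespace Pool.Agent.TH256.HT

open Pool.Agent.Helper278 Pool.Agent.Helper278.RG

section

variable {G : Type} [Group G] {K : Type} [NormedAddCommGroup K] [InnerProductSpace ℂ K]
  [CompleteSpace K] (b : HilbertBasis G ℂ K)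
variable {K₂ : Type} [NormedAddCommGroup K₂] [InnerProductSpace ℂ K₂] [CompleteSpace K₂]

theorem ext_basis₂ {x y : K →L[ℂ] K₂} (h : ∀ g, x (b g) = y (b g)) : x = y := by
  have hd : Dense ((Submodule.span ℂ (Set.range b) : Submodule ℂ K) : Set K) := by
    rw [Submodule.dense_iff_topologicalClosure_eq_top]
    exact b.dense_span
  refine ContinuousLinearMap.ext_on hd ?_
  rintro _ ⟨g, rfl⟩
  exact h g

/-- `rhoK` on the basis -/
theorem rhoK_basis (g h : G) : rhoK b g (b h) = b (h * g⁻¹) := by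
  unfold rhoK
  rw [permK_basis]
  rfl

/-- `‖x‖² - x* x` is of the form `z* z` -/
theorem exists_compl {A : Type} [CStarAlgebra A] (x : A) :
    ∃ z : A, star z * z = ((‖x‖ ^ 2 : ℝ) : ℂ) • (1 : A) - star x * x := by
  let _ : PartialOrder A := CStarAlgebra.spectralOrder _
  have _ : StarOrderedRing A := CStarAlgebra.spectralOrderedRing _
  have h1 : star x * x ≤ algebraMap ℝ A (‖x‖ ^ 2) :=
    CStarAlgebra.star_mul_le_algebraMap_norm_sq
  have h2 : 0 ≤ algebraMap ℝ A (‖x‖ ^ 2) - star x * x := sub_nonneg.2 h1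
  obtain ⟨z, hz⟩ := (CStarAlgebra.nonneg_iff_eq_star_mul_self).1 h2
  refine ⟨z, ?_⟩
  rw [← hz, Algebra.algebraMap_eq_smul_one]
  rfl

/-- an operator that commutes with the left translations commutes with `L(G)` -/
theorem comm_LK {A : K →L[ℂ] K} (hA : ∀ g, lamK b g * A = A * lamK b g) (x : Elt (LK b)) :
    A * (x : K →L[ℂ] K) = (x : K →L[ℂ] K) * A :=
  (((mem_LK b _).1 x.2) A ((mem_comm b A).2 hA)).1

/-- a unitary representation on `K₂` -/
structure Rep (q : G → K₂ →L[ℂ] K₂) : Prop where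
  one : q 1 = 1
  mul : ∀ g h, q (g * h) = q g * q h
  star : ∀ g, star (q g) = q g⁻¹

variable (q : G → K₂ →L[ℂ] K₂)

/-- bounded vectors -/
def BV : Submodule ℂ K₂ where
  carrier := {ζ | ∃ T : K →L[ℂ] K₂, ∀ g, T (b g) = q g ζ}
  add_mem' := by
    rintro ζ η ⟨S, hS⟩ ⟨T, hT⟩
    exact ⟨S + T, fun g => by rw [add_apply, hS, hT, map_add]⟩
  zero_mem' := ⟨0, fun g => by rw [map_zero]; rfl⟩
  smul_mem' := by
    rintro c ζ ⟨S, hS⟩
    exact ⟨c • S, fun g => by rw [smul_apply, hS, map_smul]⟩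

theorem mem_BV {ζ : K₂} : ζ ∈ BV b q ↔ ∃ T : K →L[ℂ] K₂, ∀ g, T (b g) = q g ζ := Iff.rfl

/-- the operator of a bounded vector -/
noncomputable def TT : BV b q →ₗ[ℂ] (K →L[ℂ] K₂) where
  toFun ζ := Classical.choose ζ.2
  map_add' ζ η := by
    apply ext_basis₂ b
    intro g
    rw [Classical.choose_spec (ζ + η).2 g, add_apply,
      Classical.choose_spec ζ.2 g, Classical.choose_spec η.2 g, Submodule.coe_add, map_add]
  map_smul' c ζ := by
    apply ext_basis₂ b
    intro g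
    rw [Classical.choose_spec (c • ζ).2 g, smul_apply,
      Classical.choose_spec ζ.2 g, Submodule.coe_smul, map_smul]
    rfl

theorem TT_basis (ζ : BV b q) (g : G) : TT b q ζ (b g) = q g ζ := Classical.choose_spec ζ.2 g

theorem TT_eq {ζ : BV b q} {T : K →L[ℂ] K₂} (h : ∀ g, T (b g) = q g ζ) : TT b q ζ = T := by
  apply ext_basis₂ b
  intro g
  rw [TT_basis, h]

variable {q}

section rep

variable (hq : Rep q)
include hq

theorem TT_one (ζ : BV b q) : TT b q ζ (b 1) = ζ := by rw [TT_basis, hq.one]; rfl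

/-- the intertwining property -/
theorem TT_lam (ζ : BV b q) (g : G) :
    (TT b q ζ).comp (lamK b g) = (q g).comp (TT b q ζ) := by
  apply ext_basis₂ b
  intro h
  rw [ContinuousLinearMap.comp_apply, ContinuousLinearMap.comp_apply, lamK_basis, TT_basis,
    TT_basis, hq.mul]
  rfl

/-- `T_η* T_ζ` commutes with the left translations -/
theorem adj_comm (ζ η : BV b q) (g : G) :
    lamK b g * ((ContinuousLinearMap.adjoint (TT b q η)).comp (TT b q ζ)) =
      ((ContinuousLinearMap.adjoint (TT b q η)).comp (TT b q ζ)) * lamK b g := by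
  have h1 := TT_lam b hq ζ g
  have h2 := congrArg ContinuousLinearMap.adjoint (TT_lam b hq η g⁻¹)
  rw [ContinuousLinearMap.adjoint_comp, ContinuousLinearMap.adjoint_comp] at h2
  have h3 : ContinuousLinearMap.adjoint (lamK b g⁻¹) = lamK b g := by
    rw [← ContinuousLinearMap.star_eq_adjoint, star_lamK, inv_inv]
  have h4 : ContinuousLinearMap.adjoint (q g⁻¹) = q g := by
    rw [← ContinuousLinearMap.star_eq_adjoint, hq.star, inv_inv]
  rw [h3, h4] at h2
  show (lamK b g).comp ((ContinuousLinearMap.adjoint (TT b q η)).comp (TT b q ζ)) =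
    ((ContinuousLinearMap.adjoint (TT b q η)).comp (TT b q ζ)).comp (lamK b g)
  rw [ContinuousLinearMap.comp_assoc, h1, ← ContinuousLinearMap.comp_assoc, h2,
    ContinuousLinearMap.comp_assoc]

theorem inner_TT (ζ η : BV b q) (x y : Elt (LK b)) :
    ⟪TT b q η ((x : K →L[ℂ] K) (b 1)), TT b q ζ ((y : K →L[ℂ] K) (b 1))⟫_ℂ =
      ⟪((star y * x : Elt (LK b)) : K →L[ℂ] K) (b 1),
        ((ContinuousLinearMap.adjoint (TT b q η)).comp (TT b q ζ)) (b 1)⟫_ℂ := by
  set A := (ContinuousLinearMap.adjoint (TT b q η)).comp (TT b q ζ) with hA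
  have h1 : ⟪TT b q η ((x : K →L[ℂ] K) (b 1)), TT b q ζ ((y : K →L[ℂ] K) (b 1))⟫_ℂ =
      ⟪(x : K →L[ℂ] K) (b 1), A ((y : K →L[ℂ] K) (b 1))⟫_ℂ := by
    rw [hA, ContinuousLinearMap.comp_apply, ContinuousLinearMap.adjoint_inner_right]
  have h2 : A ((y : K →L[ℂ] K) (b 1)) = (y : K →L[ℂ] K) (A (b 1)) :=
    congrArg (fun T : K →L[ℂ] K => T (b 1)) (comm_LK b (adj_comm b hq ζ η) y)
  have h3 : ((star y * x : Elt (LK b)) : K →L[ℂ] K) (b 1) =
      ContinuousLinearMap.adjoint (y : K →L[ℂ] K) ((x : K →L[ℂ] K) (b 1)) := rfl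
  rw [h1, h2, h3, ContinuousLinearMap.adjoint_inner_left]

/-- the norm estimate -/
theorem norm_TT_le (ζ : BV b q) (x : Elt (LK b)) :
    ‖TT b q ζ ((x : K →L[ℂ] K) (b 1))‖ ≤ ‖x‖ * ‖(ζ : K₂)‖ := by
  set A := (ContinuousLinearMap.adjoint (TT b q ζ)).comp (TT b q ζ) with hA
  -- complement
  obtain ⟨z, hz⟩ : ∃ z : Elt (LK b), star z * z = ((‖x‖ ^ 2 : ℝ) : ℂ) • (1 : Elt (LK b)) -
      star x * x := exists_compl x
  have h1 := inner_TT b hq ζ ζ x x
  have h2 := inner_TT b hq ζ ζ z z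
  have h3 := inner_TT b hq ζ ζ 1 1
  rw [inner_self_eq_norm_sq_to_K] at h1 h2 h3
  have h4 : ((1 : Elt (LK b)) : K →L[ℂ] K) (b 1) = b 1 := rfl
  rw [h4, TT_one b hq, star_one, one_mul, h4] at h3
  have h5 : ((star z * z : Elt (LK b)) : K →L[ℂ] K) (b 1) = ((‖x‖ ^ 2 : ℝ) : ℂ) • b 1 -
      ((star x * x : Elt (LK b)) : K →L[ℂ] K) (b 1) := by
    rw [hz]
    rfl
  rw [h5, inner_sub_left, inner_smul_left, ← h3, ← h1, Complex.conj_ofReal] at h2
  have h6 : ‖TT b q ζ ((z : K →L[ℂ] K) (b 1))‖ ^ 2 =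
      ‖x‖ ^ 2 * ‖(ζ : K₂)‖ ^ 2 - ‖TT b q ζ ((x : K →L[ℂ] K) (b 1))‖ ^ 2 := by
    apply Complex.ofReal_injective
    push_cast
    push_cast at h2
    exact h2
  have h7 : ‖TT b q ζ ((x : K →L[ℂ] K) (b 1))‖ ^ 2 ≤ (‖x‖ * ‖(ζ : K₂)‖) ^ 2 := by
    rw [mul_pow]
    nlinarith [sq_nonneg ‖TT b q ζ ((z : K →L[ℂ] K) (b 1))‖]
  exact (pow_le_pow_iff_left₀ (norm_nonneg _) (by positivity) two_ne_zero).1 h7

end rep

/-- evaluation -/
def apl (K₂ : Type) [NormedAddCommGroup K₂] [InnerProductSpace ℂ K₂] (v : K) :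
    (K →L[ℂ] K₂) →ₗ[ℂ] K₂ where
  toFun T := T v
  map_add' _ _ := rfl
  map_smul' _ _ := rfl

/-- the extension of the representation -/
noncomputable def ext (q : G → K₂ →L[ℂ] K₂) (x : Elt (LK b)) : K₂ →L[ℂ] K₂ :=
  (apl K₂ ((x : K →L[ℂ] K) (b 1)) ∘ₗ TT b q).extendOfNorm (BV b q).subtype

section rep2

variable (hq : Rep q) (hd : Dense ((BV b q : Submodule ℂ K₂) : Set K₂))
include hq hd

theorem ext_apply (x : Elt (LK b)) (ζ : BV b q) :
    ext b q x ζ = TT b q ζ ((x : K →L[ℂ] K) (b 1)) := by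
  have hd' : DenseRange (BV b q).subtype := by
    have : Set.range (BV b q).subtype = ((BV b q : Submodule ℂ K₂) : Set K₂) := Subtype.range_coe
    rw [DenseRange, this]
    exact hd
  unfold ext
  have h1 := LinearMap.extendOfNorm_eq (f := apl K₂ ((x : K →L[ℂ] K) (b 1)) ∘ₗ TT b q)
    (e := (BV b q).subtype) hd'
    ⟨‖x‖, fun ζ => by
      show ‖TT b q ζ ((x : K →L[ℂ] K) (b 1))‖ ≤ ‖x‖ * ‖(ζ : K₂)‖
      exact norm_TT_le b hq ζ x⟩ ζ
  exact h1

theorem ext_D {S T : K₂ →L[ℂ] K₂} (h : ∀ ζ : BV b q, S ζ = T ζ) : S = T := by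
  ext ξ
  exact hd.induction (fun x hx => h ⟨x, hx⟩) (isClosed_eq S.continuous T.continuous) ξ

theorem q_mem (ζ : BV b q) (g : G) : q g ζ ∈ BV b q := by
  refine ⟨(TT b q ζ).comp (rhoK b g⁻¹), fun h => ?_⟩
  rw [ContinuousLinearMap.comp_apply, rhoK_basis, inv_inv, TT_basis, hq.mul]
  rfl

theorem TT_q (ζ : BV b q) (g : G) :
    TT b q ⟨q g ζ, q_mem b hq hd ζ g⟩ = (TT b q ζ).comp (rhoK b g⁻¹) := by
  apply TT_eq
  intro h
  rw [ContinuousLinearMap.comp_apply, rhoK_basis, inv_inv, TT_basis, hq.mul]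
  rfl

theorem rep_mem_comm {t : K₂ →L[ℂ] K₂} (ht : ∀ g, t * q g = q g * t) (ζ : BV b q) :
    t ζ ∈ BV b q := by
  refine ⟨t.comp (TT b q ζ), fun h => ?_⟩
  rw [ContinuousLinearMap.comp_apply, TT_basis]
  exact congrArg (fun T : K₂ →L[ℂ] K₂ => T ζ) (ht h)

theorem ext_comm {t : K₂ →L[ℂ] K₂} (ht : ∀ g, t * q g = q g * t) (x : Elt (LK b)) :
    t * ext b q x = ext b q x * t := by
  apply ext_D b hq hd
  intro ζ
  show t (ext b q x ζ) = ext b q x (t ζ)
  have h1 := ext_apply b hq hd x ⟨t ζ, rep_mem_comm b hq hd ht ζ⟩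
  have h2 : TT b q ⟨t ζ, rep_mem_comm b hq hd ht ζ⟩ = t.comp (TT b q ζ) := by
    apply TT_eq
    intro h
    rw [ContinuousLinearMap.comp_apply, TT_basis]
    exact congrArg (fun T : K₂ →L[ℂ] K₂ => T ζ) (ht h)
  rw [h2] at h1
  rw [ext_apply b hq hd]
  exact h1.symm

/-- the extension intertwines -/
theorem ext_TT (y : Elt (LK b)) (ζ : BV b q) :
    (TT b q ζ).comp (y : K →L[ℂ] K) = (ext b q y).comp (TT b q ζ) := by
  apply ext_basis₂ b
  intro g
  rw [ContinuousLinearMap.comp_apply, ContinuousLinearMap.comp_apply, TT_basis]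
  have h1 := ext_apply b hq hd y ⟨q g ζ, q_mem b hq hd ζ g⟩
  rw [TT_q b hq hd] at h1
  have h2 : b g = rhoK b g⁻¹ (b 1) := by rw [rhoK_basis, inv_inv, one_mul]
  have h3 : (y : K →L[ℂ] K) (b g) = rhoK b g⁻¹ ((y : K →L[ℂ] K) (b 1)) := by
    rw [h2]
    exact (congrArg (fun T : K →L[ℂ] K => T (b 1)) (comm_right b _ y.2 g⁻¹)).symm
  rw [h3]
  exact h1.symm

theorem ext_mul (x y : Elt (LK b)) : ext b q (x * y) = ext b q x * ext b q y := by
  apply ext_D b hq hd
  intro ζ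
  show _ = ext b q x (ext b q y ζ)
  rw [ext_apply b hq hd, ext_apply b hq hd y ζ]
  have h1 := congrArg (fun T : K →L[ℂ] K₂ => T ((y : K →L[ℂ] K) (b 1))) (ext_TT b hq hd x ζ)
  exact h1

theorem ext_one : ext b q 1 = 1 := by
  apply ext_D b hq hd
  intro ζ
  rw [ext_apply b hq hd]
  show TT b q ζ (b 1) = ζ
  exact TT_one b hq ζ

theorem ext_add (x y : Elt (LK b)) : ext b q (x + y) = ext b q x + ext b q y := by
  apply ext_D b hq hd
  intro ζ
  rw [add_apply, ext_apply b hq hd, ext_apply b hq hd, ext_apply b hq hd,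
    ← map_add]
  rfl

theorem ext_smul (c : ℂ) (x : Elt (LK b)) : ext b q (c • x) = c • ext b q x := by
  apply ext_D b hq hd
  intro ζ
  rw [smul_apply, ext_apply b hq hd, ext_apply b hq hd, ← map_smul]
  rfl

theorem ext_star (x : Elt (LK b)) : ext b q (star x) = star (ext b q x) := by
  apply ext_D b hq hd
  intro ζ
  refine hd.eq_of_inner_right ℂ ?_
  intro η' hη
  obtain ⟨η, rfl⟩ : ∃ η : BV b q, (η : K₂) = η' := ⟨⟨η', hη⟩, rfl⟩
  rw [ContinuousLinearMap.star_eq_adjoint, ContinuousLinearMap.adjoint_inner_right,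
    ext_apply b hq hd, ext_apply b hq hd]
  have h1 := inner_TT b hq ζ η 1 (star x)
  have h2 := inner_TT b hq ζ η x 1
  have h3 : ∀ ζ : BV b q, TT b q ζ (((1 : Elt (LK b)) : K →L[ℂ] K) (b 1)) = ζ := fun ζ =>
    TT_one b hq ζ
  rw [h3] at h1 h2
  rw [h1, h2, star_star, star_one, mul_one, one_mul]

theorem ext_La (g : G) : ext b q (La b g) = q g := by
  apply ext_D b hq hd
  intro ζ
  rw [ext_apply b hq hd]
  show TT b q ζ (lamK b g (b 1)) = _
  rw [lamK_basis, mul_one, TT_basis]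

theorem ext_mem (P : VonNeumannAlgebra K₂) (hP : ∀ g, q g ∈ P) (x : Elt (LK b)) :
    ext b q x ∈ P := by
  have h1 : ext b q x ∈ Set.centralizer (Set.centralizer (P : Set (K₂ →L[ℂ] K₂))) := by
    rw [Set.mem_centralizer_iff]
    intro t ht
    rw [Set.mem_centralizer_iff] at ht
    exact ext_comm b hq hd (fun g => (ht _ (hP g)).symm) x
  rw [VonNeumannAlgebra.centralizer_centralizer] at h1
  exact h1

/-- The extension of a unitary representation `q` of `G` in the von Neumann algebra `P` to `L(G)`. -/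
noncomputable def extHom (P : VonNeumannAlgebra K₂) (hP : ∀ g, q g ∈ P) :
    Elt (LK b) →⋆ₐ[ℂ] Elt P where
  toFun x := ⟨ext b q x, ext_mem b hq hd P hP x⟩
  map_one' := Subtype.ext (ext_one b hq hd)
  map_mul' x y := Subtype.ext (ext_mul b hq hd x y)
  map_zero' := by
    apply Subtype.ext
    have h1 := ext_smul b hq hd 0 0
    rw [zero_smul, zero_smul] at h1
    exact h1
  map_add' x y := Subtype.ext (ext_add b hq hd x y)
  commutes' c := by
    apply Subtype.ext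
    show ext b q (algebraMap ℂ (Elt (LK b)) c) = algebraMap ℂ (K₂ →L[ℂ] K₂) c
    rw [Algebra.algebraMap_eq_smul_one, ext_smul b hq hd, ext_one b hq hd,
      ← Algebra.algebraMap_eq_smul_one]
  map_star' x := Subtype.ext (ext_star b hq hd x)

theorem extHom_La (P : VonNeumannAlgebra K₂) (hP : ∀ g, q g ∈ P) (g : G) :
    extHom b hq hd P hP (La b g) = ⟨q g, hP g⟩ := Subtype.ext (ext_La b hq hd g)

/-- the trace -/
theorem ext_trace (Ω : K₂) (hΩ : Ω ∈ BV b q) (hΩ1 : ‖Ω‖ = 1)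
    (horth : ∀ g, g ≠ 1 → ⟪Ω, q g Ω⟫_ℂ = 0) (x : Elt (LK b)) :
    ⟪Ω, ext b q x Ω⟫_ℂ = trG b x := by
  set ζ : BV b q := ⟨Ω, hΩ⟩ with hζ
  have h0 := ext_apply b hq hd x ζ
  have h1 := inner_TT b hq ζ ζ 1 x
  have h3 : TT b q ζ (((1 : Elt (LK b)) : K →L[ℂ] K) (b 1)) = Ω := TT_one b hq ζ
  rw [h3, ← h0] at h1
  have hA : ((ContinuousLinearMap.adjoint (TT b q ζ)).comp (TT b q ζ)) (b 1) = b 1 := by
    apply ext_coef b
    intro g
    rw [ContinuousLinearMap.comp_apply, ContinuousLinearMap.adjoint_inner_right, TT_basis,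
      TT_one b hq]
    by_cases hg : g = 1
    · subst hg
      rw [hq.one, inner_bb_self]
      show ⟪Ω, Ω⟫_ℂ = 1
      rw [inner_self_eq_norm_sq_to_K, hΩ1]
      simp
    · rw [inner_bb b g 1 hg]
      have h5 := horth g⁻¹ (fun h => hg (inv_eq_one.1 h))
      rw [← hq.star, ContinuousLinearMap.star_eq_adjoint,
        ContinuousLinearMap.adjoint_inner_right] at h5
      exact h5
  rw [hA, mul_one] at h1
  have h6 : ((star x : Elt (LK b)) : K →L[ℂ] K) (b 1) =
    ContinuousLinearMap.adjoint (x : K →L[ℂ] K) (b 1) := rfl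
  rw [h6, ContinuousLinearMap.adjoint_inner_left] at h1
  exact h1

end rep2

end

end Pool.Agent.TH256.HT
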