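import Mathlib
import Pool.Agent.TH256.HT.Defs
import Pool.Agent.TH256.HT.Ext
import Pool.Agent.Helper278.CEPull

/-!
The group von Neumann algebra as a tracial von Neumann algebra.
-/

set_option autoImplicit false
set_option linter.unusedSectionVars false
set_option maxHeartbeats 1000000

open scoped InnerProductSpace ComplexOrder BoundedContinuousFunction
open Filter Topology

namespace Pool.Agent.TH256.HT

open Pool.Agent.H504R3 (TVN)
open Pool.Agent.Helper278 Pool.Agent.Helper278.RG

theorem trG_one (G : Type) [Group G] : trG (CE.sb G) 1 = 1 := inner_bb_self _ 1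

/-- the group von Neumann algebra `L(G)` -/
noncomputable abbrev LG (G : Type) [Group G] : TVN where
  H := EllTwo G
  N := LK (CE.sb G)
  τ := trG (CE.sb G)
  map_one := trG_one G
  tracial := fun x y => (isTr_trG (CE.sb G)).comm x y
  faithful := fun x hx => (faithful_trG (CE.sb G)).faithful x hx
  normal := normal_trG (CE.sb G)

variable {G : Type} [Group G]

theorem LG_iiOne [Infinite G]
    (hG : ∀ g : G, g ≠ 1 → (Set.range fun h : G => h * g * h⁻¹).Infinite) :
    (LG G).IsIIOneFactor := by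
  have h := isIIOne_LK (CE.sb G) hG
  refine ⟨?_, h.infinite⟩
  intro z hz
  obtain ⟨c, hc⟩ := h.center z.1 z.2 (fun x hx => congrArg Subtype.val (hz ⟨x, hx⟩))
  exact ⟨c, Subtype.ext hc⟩

theorem LG_norm2 (x : (LG G).E) : (LG G).norm2 x = N2 (CE.sb G) x := n2_TL (CE.sb G) x

theorem LG_separable [Countable G] : (LG G).IsSeparable := by
  have hsep : TopologicalSpace.SeparableSpace (EllTwo G) := by
    have h1 : TopologicalSpace.IsSeparable (Set.range (CE.sb G)) := (Set.countable_range _).isSeparable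
    have h2 : TopologicalSpace.IsSeparable
        ((Submodule.span ℂ (Set.range (CE.sb G)) : Submodule ℂ (EllTwo G)) : Set (EllTwo G)) :=
      h1.span (R := ℂ)
    have h3 := h2.closure
    have h4 : closure ((Submodule.span ℂ (Set.range (CE.sb G)) : Submodule ℂ (EllTwo G)) :
        Set (EllTwo G)) = Set.univ := by
      have h5 : Dense ((Submodule.span ℂ (Set.range (CE.sb G)) : Submodule ℂ (EllTwo G)) :
          Set (EllTwo G)) := by
        rw [Submodule.dense_iff_topologicalClosure_eq_top]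
        exact (CE.sb G).dense_span
      exact h5.closure_eq
    rw [h4] at h3
    exact TopologicalSpace.isSeparable_univ_iff.1 h3
  let f : (LG G).E → EllTwo G := fun x => (x.1 : EllTwo G →L[ℂ] EllTwo G) (CE.sb G 1)
  obtain ⟨t, ht, htc, htd⟩ := (TopologicalSpace.IsSeparable.of_separableSpace
    (Set.range f)).exists_countable_dense_subset
  have hsec : ∀ y : t, ∃ x : (LG G).E, f x = y := fun y => ht y.2
  choose s hs using hsec
  have : Countable t := htc.to_subtype
  refine ⟨Set.range s, Set.countable_range s, ?_⟩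
  intro x ε hε
  obtain ⟨y, hy, hxy⟩ := Metric.mem_closure_iff.1 (htd ⟨x, rfl⟩) ε hε
  refine ⟨s ⟨y, hy⟩, ⟨_, rfl⟩, ?_⟩
  rw [LG_norm2]
  have h1 : N2 (CE.sb G) (x - s ⟨y, hy⟩) = ‖f x - f (s ⟨y, hy⟩)‖ := by
    unfold N2
    rfl
  rw [h1, hs, ← dist_eq_norm]
  exact hxy

/-! ### operators from orthonormal families -/

theorem exists_iso {ι : Type} {K K₂ : Type} [NormedAddCommGroup K] [InnerProductSpace ℂ K]
    [CompleteSpace K] [NormedAddCommGroup K₂] [InnerProductSpace ℂ K₂] [CompleteSpace K₂]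
    (b : HilbertBasis ι ℂ K) (w : ι → K₂) (hw : Orthonormal ℂ w) :
    ∃ T : K →L[ℂ] K₂, (∀ g, T (b g) = w g) ∧ ∀ v, ‖T v‖ = ‖v‖ := by
  classical
  let V := hw.orthogonalFamily.linearIsometry
  refine ⟨V.toContinuousLinearMap.comp (b.repr.toContinuousLinearEquiv : K →L[ℂ] _), ?_, ?_⟩
  · intro g
    show V (b.repr (b g)) = w g
    rw [b.repr_self, OrthogonalFamily.linearIsometry_apply_single]
    simp
  · intro v
    show ‖V (b.repr v)‖ = ‖v‖
    rw [V.norm_map, b.repr.norm_map]

/-! ### inclusions -/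

section incl

variable {H : Type} [Group H] (f : H →* G) (hf : Function.Injective f)

/-- the representation of `H` on `ℓ²(G)` -/
noncomputable def qf (h : H) : EllTwo G →L[ℂ] EllTwo G := lamK (CE.sb G) (f h)

theorem rep_qf : Rep (qf f) where
  one := by unfold qf; rw [map_one, lamK_one]
  mul g h := by unfold qf; rw [map_mul, lamK_mul]
  star g := by unfold qf; rw [star_lamK, map_inv]

include hf in
theorem basis_mem (g : G) : CE.sb G g ∈ BV (CE.sb H) (qf f) := by
  have hw : Orthonormal ℂ (fun h : H => CE.sb G (f h * g)) :=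
    (CE.sb G).orthonormal.comp _ (fun x y hxy => hf (mul_right_cancel hxy))
  obtain ⟨T, hT, _⟩ := exists_iso (CE.sb H) _ hw
  refine ⟨T, fun h => ?_⟩
  rw [hT]
  exact (lamK_basis _ _ _).symm

include hf in
theorem dense_BV : Dense ((BV (CE.sb H) (qf f) : Submodule ℂ (EllTwo G)) : Set (EllTwo G)) := by
  have h5 : Dense ((Submodule.span ℂ (Set.range (CE.sb G)) : Submodule ℂ (EllTwo G)) :
      Set (EllTwo G)) := by
    rw [Submodule.dense_iff_topologicalClosure_eq_top]
    exact (CE.sb G).dense_span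
  refine h5.mono ?_
  have : Submodule.span ℂ (Set.range (CE.sb G)) ≤ BV (CE.sb H) (qf f) := by
    rw [Submodule.span_le]
    rintro _ ⟨g, rfl⟩
    exact basis_mem f hf g
  exact this

/-- the inclusion `L(H) → L(G)` -/
noncomputable def incl : (LG H).E →⋆ₐ[ℂ] (LG G).E :=
  extHom (CE.sb H) (rep_qf f) (dense_BV f hf) (LK (CE.sb G)) (fun _ => lamK_mem _ _)

theorem incl_La (h : H) : incl f hf (La (CE.sb H) h) = La (CE.sb G) (f h) :=
  extHom_La (CE.sb H) (rep_qf f) (dense_BV f hf) (LK (CE.sb G)) (fun _ => lamK_mem _ _) h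

theorem incl_trace (x : (LG H).E) : (LG G).τ (incl f hf x) = (LG H).τ x := by
  refine ext_trace (CE.sb H) (rep_qf f) (dense_BV f hf) (CE.sb G 1) (basis_mem f hf 1)
    ((CE.sb G).orthonormal.1 1) ?_ x
  intro h hh
  show ⟪CE.sb G 1, lamK (CE.sb G) (f h) (CE.sb G 1)⟫_ℂ = 0
  rw [lamK_basis, mul_one]
  apply inner_bb
  intro h1
  exact hh (hf (by rw [← h1, map_one]))

end incl

end Pool.Agent.TH256.HT
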