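import Mathlib
import Pool.Agent.TH256.HT.LG
import Pool.Agent.TH256.HT.Grp2
import Pool.Agent.Helper278.RGRep

/-!
The group von Neumann algebra of a countable locally finite group has the Haagerup property.
-/

set_option autoImplicit false
set_option linter.unusedSectionVars false
set_option maxHeartbeats 1000000

open scoped InnerProductSpace ComplexOrder BoundedContinuousFunction
open Filter Topology

namespace Pool.Agent.TH256.HT

open Pool.Agent.H504R3 (TVN)
open Pool.Agent.Helper278 Pool.Agent.Helper278.RG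

variable {G : Type} [Group G]

/-- the truncation of an element of `L(G)` to a finite set -/
noncomputable def trunc (S : Finset G) : (LG G).E →ₗ[ℂ] (LG G).E where
  toFun x := ∑ g ∈ S, ⟪CE.sb G g, x.1 (CE.sb G 1)⟫_ℂ • La (CE.sb G) g
  map_add' x y := by
    rw [← Finset.sum_add_distrib]
    refine Finset.sum_congr rfl fun g _ => ?_
    have h1 : (x + y).1 (CE.sb G 1) = x.1 (CE.sb G 1) + y.1 (CE.sb G 1) := rfl
    rw [h1, inner_add_right, add_smul]
  map_smul' c x := by
    rw [RingHom.id_apply, Finset.smul_sum]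
    refine Finset.sum_congr rfl fun g _ => ?_
    have h1 : (c • x).1 (CE.sb G 1) = c • x.1 (CE.sb G 1) := rfl
    rw [h1, inner_smul_right, smul_smul]

theorem trunc_apply (S : Finset G) (x : (LG G).E) :
    trunc S x = ∑ g ∈ S, ⟪CE.sb G g, x.1 (CE.sb G 1)⟫_ℂ • La (CE.sb G) g := rfl

theorem trunc_val (S : Finset G) (x : (LG G).E) (v : EllTwo G) :
    (trunc S x).1 v = ∑ g ∈ S, ⟪CE.sb G g, x.1 (CE.sb G 1)⟫_ℂ • lamK (CE.sb G) g v := by
  rw [trunc_apply]
  have h1 : (∑ g ∈ S, ⟪CE.sb G g, x.1 (CE.sb G 1)⟫_ℂ • La (CE.sb G) g : Elt (LK (CE.sb G))).1 =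
      ∑ g ∈ S, ⟪CE.sb G g, x.1 (CE.sb G 1)⟫_ℂ • lamK (CE.sb G) g := by
    rw [AddSubmonoidClass.coe_finsetSum]
    rfl
  rw [h1, sum_apply]
  rfl

theorem trunc_one (S : Finset G) (hS : 1 ∈ S) : trunc S (1 : (LG G).E) = 1 := by
  rw [trunc_apply, Finset.sum_eq_single 1]
  · have h1 : (1 : (LG G).E).1 (CE.sb G 1) = CE.sb G 1 := rfl
    rw [h1, inner_bb_self, one_smul, La_one]
  · intro g _ hg
    have h1 : (1 : (LG G).E).1 (CE.sb G 1) = CE.sb G 1 := rfl
    rw [h1, inner_bb _ _ _ hg, zero_smul]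
  · exact fun h => absurd hS h

theorem trunc_trace (S : Finset G) (hS : 1 ∈ S) (x : (LG G).E) :
    (LG G).τ (trunc S x) = (LG G).τ x := by
  show ⟪CE.sb G 1, (trunc S x).1 (CE.sb G 1)⟫_ℂ = ⟪CE.sb G 1, x.1 (CE.sb G 1)⟫_ℂ
  rw [trunc_val, inner_sum, Finset.sum_eq_single 1]
  · rw [inner_smul_right, lamK_basis, mul_one, inner_bb_self, mul_one]
  · intro g _ hg
    rw [inner_smul_right, lamK_basis, mul_one, inner_bb _ _ _ (Ne.symm hg), mul_zero]
  · exact fun h => absurd hS h

/-! ### compactness -/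

theorem norm2_lin (S : Finset G) (c : G → ℂ) :
    (LG G).norm2 (∑ g ∈ S, c g • La (CE.sb G) g) ≤ ∑ g ∈ S, ‖c g‖ := by
  classical
  rw [LG_norm2]
  induction S using Finset.induction_on with
  | empty =>
    rw [Finset.sum_empty, Finset.sum_empty]
    have h0 : N2 (CE.sb G) (0 : Elt (LK (CE.sb G))) = 0 := by
      unfold N2
      show ‖(0 : EllTwo G →L[ℂ] EllTwo G) _‖ = 0
      simp
    exact h0.le
  | insert a S ha ih =>
    rw [Finset.sum_insert ha, Finset.sum_insert ha]
    refine (N2_add _ _ _).trans (add_le_add ?_ ih)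
    rw [N2_smul]
    have h1 : N2 (CE.sb G) (La (CE.sb G) a) = 1 := by
      unfold N2
      show ‖lamK (CE.sb G) a (CE.sb G 1)‖ = 1
      rw [lamK_basis]
      exact (CE.sb G).orthonormal.1 _
    rw [h1, mul_one]

theorem trunc_compact (S : Finset G) : IsCompactL2 (LG G) (trunc S) := by
  classical
  intro ε hε
  -- a net of coefficients
  have htb : TotallyBounded (Metric.closedBall (0 : S → ℂ) 1) :=
    (isCompact_closedBall _ _).totallyBounded
  obtain ⟨t, htf, ht⟩ := Metric.totallyBounded_iff.1 htb (ε / (S.card + 1)) (by positivity)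
  let F : (S → ℂ) → (LG G).E := fun c => ∑ g : S, c g • La (CE.sb G) g
  refine ⟨htf.toFinset.image F, fun x hx => ?_⟩
  let c : S → ℂ := fun g => ⟪CE.sb G g, x.1 (CE.sb G 1)⟫_ℂ
  have hc : c ∈ Metric.closedBall (0 : S → ℂ) 1 := by
    rw [mem_closedBall_zero_iff, pi_norm_le_iff_of_nonneg zero_le_one]
    intro g
    have h1 := norm_inner_le_norm (𝕜 := ℂ) (CE.sb G g) (x.1 (CE.sb G 1))
    have h2 : ‖CE.sb G (g : G)‖ = 1 := (CE.sb G).orthonormal.1 _
    rw [h2, one_mul] at h1
    rw [LG_norm2] at hx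
    exact h1.trans hx
  obtain ⟨d, hd, hcd⟩ := Set.mem_iUnion₂.1 (ht hc)
  refine ⟨F d, Finset.mem_image_of_mem _ (htf.mem_toFinset.2 hd), ?_⟩
  rw [Metric.mem_ball, dist_eq_norm] at hcd
  have h1 : trunc S x = ∑ g : S, c g • La (CE.sb G) (g : G) := by
    rw [trunc_apply, ← Finset.sum_coe_sort]
  have h2 : trunc S x - F d = ∑ g : S, (c g - d g) • La (CE.sb G) (g : G) := by
    rw [h1]
    show _ - ∑ g : S, d g • La (CE.sb G) (g : G) = _
    rw [← Finset.sum_sub_distrib]
    exact Finset.sum_congr rfl fun g _ => (sub_smul _ _ _).symm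
  have h3 : (∑ g : S, (c g - d g) • La (CE.sb G) (g : G) : (LG G).E) =
      ∑ g ∈ S, (if h : g ∈ S then c ⟨g, h⟩ - d ⟨g, h⟩ else 0) • La (CE.sb G) g := by
    rw [← Finset.sum_coe_sort S]
    refine Finset.sum_congr rfl fun g _ => ?_
    rw [dif_pos g.2]
  rw [h2, h3]
  refine (norm2_lin S _).trans_lt ?_
  have h4 : ∀ g ∈ S, ‖(if h : g ∈ S then c ⟨g, h⟩ - d ⟨g, h⟩ else 0 : ℂ)‖ ≤ ‖c - d‖ := by
    intro g hg
    rw [dif_pos hg]
    exact norm_le_pi_norm (c - d) ⟨g, hg⟩
  refine (Finset.sum_le_sum h4).trans_lt ?_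
  rw [Finset.sum_const, nsmul_eq_mul]
  have h5 : (0 : ℝ) < S.card + 1 := by positivity
  rw [lt_div_iff₀ h5] at hcd
  have h6 := norm_nonneg (c - d)
  nlinarith

/-! ### the coset decomposition -/

section coset

variable (F : Subgroup G)

/-- right cosets `F h` -/
abbrev Cs : Type := Quotient (QuotientGroup.rightRel F)

/-- the coset of an element -/
def cs (h : G) : Cs F := Quotient.mk _ h

theorem cs_eq (h k : G) : cs F h = cs F k ↔ k * h⁻¹ ∈ F := by
  unfold cs
  rw [Quotient.eq, QuotientGroup.rightRel_apply]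

/-- `⊕ ℓ²(G)` over the cosets -/
abbrev BigK : Type := lp (fun _ : Cs F => EllTwo G) 2

open scoped Classical in
theorem exists_W : ∃ W : EllTwo G →L[ℂ] BigK F,
    (∀ h c, (W (CE.sb G h) : ∀ _ : Cs F, EllTwo G) c = if cs F h = c then CE.sb G h else 0) ∧
      ∀ v, ‖W v‖ = ‖v‖ := by
  classical
  have hw : Orthonormal ℂ (fun h : G => (lp.single 2 (cs F h) (CE.sb G h) : BigK F)) := by
    rw [orthonormal_iff_ite]
    intro h k
    rw [lp.inner_single_left, lp.coeFn_single]
    by_cases hk : h = k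
    · subst hk
      rw [if_pos rfl, Pi.single_eq_same, inner_bb_self]
    · rw [if_neg hk]
      by_cases hc : cs F h = cs F k
      · rw [hc, Pi.single_eq_same, inner_bb _ _ _ hk]
      · rw [Pi.single_eq_of_ne hc, inner_zero_right]
  obtain ⟨T, hT, hTn⟩ := exists_iso (CE.sb G) _ hw
  refine ⟨T, fun h c => ?_, hTn⟩
  rw [hT, lp.coeFn_single]
  by_cases hc : cs F h = c
  · subst hc
    rw [if_pos rfl, Pi.single_eq_same]
  · rw [if_neg hc, Pi.single_eq_of_ne (Ne.symm hc)]

/-- the isometry -/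
noncomputable def WW' : EllTwo G →L[ℂ] BigK F := Classical.choose (exists_W F)

/-- the projection to a coset -/
noncomputable def PP (c : Cs F) (v : EllTwo G) : EllTwo G := (WW' F v : ∀ _ : Cs F, EllTwo G) c

open scoped Classical in
theorem PP_basis (c : Cs F) (h : G) : PP F c (CE.sb G h) = if cs F h = c then CE.sb G h else 0 :=
  (Classical.choose_spec (exists_W F)).1 h c

theorem norm_WW' (v : EllTwo G) : ‖WW' F v‖ = ‖v‖ := (Classical.choose_spec (exists_W F)).2 v

/-- coordinates as a bounded operator -/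
theorem PP_clm (c : Cs F) : ∃ P : EllTwo G →L[ℂ] EllTwo G, ∀ v, P v = PP F c v := by
  refine ⟨LinearMap.mkContinuous
    { toFun := fun v => PP F c v
      map_add' := fun v w => by unfold PP; rw [map_add]; rfl
      map_smul' := fun r v => by unfold PP; rw [map_smul]; rfl } 1 (fun v => ?_), fun v => rfl⟩
  show ‖PP F c v‖ ≤ 1 * ‖v‖
  rw [one_mul, ← norm_WW' F v]
  exact lp.norm_apply_le_norm (by norm_num) _ _

theorem hasSum_norm_PP (v : EllTwo G) : HasSum (fun c => ‖PP F c v‖ ^ 2) (‖v‖ ^ 2) := by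
  have h1 := lp.hasSum_norm (p := 2) (by norm_num) (WW' F v)
  rw [norm_WW'] at h1
  have h2 : (2 : ENNReal).toReal = ((2 : ℕ) : ℝ) := by norm_num
  rw [h2] at h1
  simp only [Real.rpow_natCast] at h1
  exact h1

end coset

/-- the key formula: the conditional expectation is the block diagonal part -/
theorem key_formula (F : Subgroup G) (S : Finset G) (hS : ∀ g, g ∈ S ↔ g ∈ F) (x : (LG G).E)
    (η ζ : EllTwo G) :
    HasSum (fun c => ⟪PP F c η, x.1 (PP F c ζ)⟫_ℂ) ⟪η, (trunc S x).1 ζ⟫_ℂ := by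
  classical
  -- the vector `x* P_c η`
  have hmem : Memℓp (fun c : Cs F => ContinuousLinearMap.adjoint x.1 (PP F c η)) 2 := by
    refine memℓp_gen ?_
    have h1 := (hasSum_norm_PP F η).summable.mul_left (‖ContinuousLinearMap.adjoint x.1‖ ^ 2)
    refine Summable.of_nonneg_of_le (fun c => by positivity) (fun c => ?_) h1
    have h2 : (2 : ENNReal).toReal = ((2 : ℕ) : ℝ) := by norm_num
    rw [h2, Real.rpow_natCast, ← mul_pow]
    exact pow_le_pow_left₀ (norm_nonneg _) (ContinuousLinearMap.le_opNorm _ _) 2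
  let Z : BigK F := ⟨_, hmem⟩
  have hZ : ∀ c, (Z : ∀ _ : Cs F, EllTwo G) c = ContinuousLinearMap.adjoint x.1 (PP F c η) :=
    fun _ => rfl
  have hsum : HasSum (fun c => ⟪PP F c η, x.1 (PP F c ζ)⟫_ℂ) ⟪Z, WW' F ζ⟫_ℂ := by
    have h1 := lp.hasSum_inner (𝕜 := ℂ) Z (WW' F ζ)
    refine h1.congr_fun fun c => ?_
    rw [hZ, ContinuousLinearMap.adjoint_inner_left]
    rfl
  -- the two functionals agree on the basis
  have hcoef : ∀ (η : EllTwo G) (h : G), ⟪PP F (cs F h) η, x.1 (CE.sb G h)⟫_ℂ =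
      ⟪η, (trunc S x).1 (CE.sb G h)⟫_ℂ := by
    intro η h
    obtain ⟨P, hP⟩ := PP_clm F (cs F h)
    have h1 : ContinuousLinearMap.adjoint P (x.1 (CE.sb G h)) = (trunc S x).1 (CE.sb G h) := by
      apply ext_coef (CE.sb G)
      intro k
      rw [ContinuousLinearMap.adjoint_inner_right, hP, PP_basis, trunc_val, inner_sum]
      have h2 := coef_apply (CE.sb G) x.1 x.2 h k
      by_cases hk : cs F k = cs F h
      · rw [if_pos hk, h2]
        have hk2 : k * h⁻¹ ∈ S := (hS _).2 ((cs_eq F h k).1 hk.symm)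
        rw [Finset.sum_eq_single (k * h⁻¹)]
        · rw [inner_smul_right, lamK_basis, inv_mul_cancel_right, inner_bb_self, mul_one]
        · intro g _ hg
          rw [inner_smul_right, lamK_basis, inner_bb, mul_zero]
          intro h3
          exact hg (by rw [h3, mul_inv_cancel_right])
        · exact fun h => absurd hk2 h
      · rw [if_neg hk, inner_zero_left]
        symm
        apply Finset.sum_eq_zero
        intro g hg
        rw [inner_smul_right, lamK_basis, inner_bb, mul_zero]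
        intro h3
        apply hk
        symm
        rw [cs_eq, h3, mul_inv_cancel_right]
        exact (hS g).1 hg
    rw [← h1, ContinuousLinearMap.adjoint_inner_right, hP]
  have hagree : ⟪Z, WW' F ζ⟫_ℂ = ⟪η, (trunc S x).1 ζ⟫_ℂ := by
    have h1 : (innerSL ℂ Z).comp (WW' F) = (innerSL ℂ η).comp (trunc S x).1 := by
      apply ext_basis₂ (CE.sb G)
      intro h
      show ⟪Z, WW' F (CE.sb G h)⟫_ℂ = ⟪η, (trunc S x).1 (CE.sb G h)⟫_ℂ
      have h2 := lp.hasSum_inner (𝕜 := ℂ) Z (WW' F (CE.sb G h))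
      have h3 : HasSum (fun c => ⟪Z c, (WW' F (CE.sb G h)) c⟫_ℂ)
          ⟪Z (cs F h), (WW' F (CE.sb G h)) (cs F h)⟫_ℂ := by
        apply hasSum_single
        intro c hc
        have h4 : (WW' F (CE.sb G h) : ∀ _ : Cs F, EllTwo G) c = 0 := by
          have h5 := PP_basis F c h
          rw [if_neg (Ne.symm hc)] at h5
          exact h5
        rw [h4, inner_zero_right]
      rw [h2.unique h3, hZ]
      have h4 : (WW' F (CE.sb G h) : ∀ _ : Cs F, EllTwo G) (cs F h) = CE.sb G h := by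
        have h5 := PP_basis F (cs F h) h
        rw [if_pos rfl] at h5
        exact h5
      rw [h4, ContinuousLinearMap.adjoint_inner_left]
      exact hcoef η h
    exact congrArg (fun T : EllTwo G →L[ℂ] ℂ => T ζ) h1
  rw [← hagree]
  exact hsum

theorem trunc_cp (F : Subgroup G) (S : Finset G) (hS : ∀ g, g ∈ S ↔ g ∈ F) :
    IsCompletelyPositive (LG G) (trunc S) := by
  intro n a ζ
  have h1 : HasSum (fun c => ∑ i, ∑ j, ⟪PP F c (ζ i), (star (a i) * a j).1 (PP F c (ζ j))⟫_ℂ)
      (∑ i, ∑ j, ⟪ζ i, (trunc S (star (a i) * a j)).1 (ζ j)⟫_ℂ) :=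
    hasSum_sum fun i _ => hasSum_sum fun j _ => key_formula F S hS _ _ _
  refine h1.nonneg fun c => ?_
  have h2 : ∑ i, ∑ j, ⟪PP F c (ζ i), (star (a i) * a j).1 (PP F c (ζ j))⟫_ℂ =
      ⟪∑ i, (a i).1 (PP F c (ζ i)), ∑ j, (a j).1 (PP F c (ζ j))⟫_ℂ := by
    rw [sum_inner]
    refine Finset.sum_congr rfl fun i _ => ?_
    rw [inner_sum]
    refine Finset.sum_congr rfl fun j _ => ?_
    have h3 : (star (a i) * a j).1 (PP F c (ζ j)) =
      ContinuousLinearMap.adjoint (a i).1 ((a j).1 (PP F c (ζ j))) := rfl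
    rw [h3, ContinuousLinearMap.adjoint_inner_right]
  rw [h2, inner_self_eq_norm_sq_to_K]
  have h4 : (0 : ℝ) ≤ ‖∑ i, (a i).1 (PP F c (ζ i))‖ ^ 2 := by positivity
  have h5 := Complex.zero_le_real.2 h4
  push_cast at h5
  exact h5

theorem trunc_normal [Countable G] (F : Subgroup G) (S : Finset G) (hS : ∀ g, g ∈ S ↔ g ∈ F) :
    IsNormalMap (LG G) (trunc S) := by
  classical
  intro η
  have hcount : Countable (Cs F) := Quotient.countable
  obtain ⟨e, he⟩ := hcount.exists_injective_nat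
  let ξ : ℕ → EllTwo G := Function.extend e (fun c => PP F c η) 0
  have hξe : ∀ c, ξ (e c) = PP F c η := fun c => he.extend_apply _ _ _
  have hξ0 : ∀ k, k ∉ Set.range e → ξ k = 0 := fun k hk =>
    Function.extend_apply' _ _ _ (fun h => hk h)
  refine ⟨ξ, ?_, ?_⟩
  · refine (he.summable_iff ?_).1 ?_
    · intro k hk
      rw [hξ0 k hk, norm_zero, zero_pow two_ne_zero]
    · refine (hasSum_norm_PP F η).summable.congr fun c => ?_
      show _ = ‖ξ (e c)‖ ^ 2
      rw [hξe]
  · intro x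
    have h1 := key_formula F S hS x η η
    have h2 : HasSum (fun k => ⟪ξ k, x.1 (ξ k)⟫_ℂ) ⟪η, (trunc S x).1 η⟫_ℂ := by
      refine (he.hasSum_iff ?_).1 ?_
      · intro k hk
        rw [hξ0 k hk, inner_zero_left]
      · refine h1.congr_fun fun c => ?_
        show ⟪ξ (e c), x.1 (ξ (e c))⟫_ℂ = _
        rw [hξe]
    exact h2.tsum_eq.symm

/-- the group von Neumann algebra of a countable locally finite group has the Haagerup property -/
theorem haagerup_LG [Countable G] (hG : LocFin G) : HasHaagerupProperty (LG G) := by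
  classical
  let I : Type := {F : Subgroup G // (F : Set G).Finite}
  have hdir : IsDirectedOrder I := by
    refine ⟨fun F₁ F₂ => ?_⟩
    obtain ⟨F, hF, hFS⟩ := hG (F₁.2.toFinset ∪ F₂.2.toFinset)
    refine ⟨⟨F, Set.toFinite _⟩, ?_, ?_⟩
    · intro g hg
      exact hFS g (Finset.mem_union_left _ (F₁.2.mem_toFinset.2 hg))
    · intro g hg
      exact hFS g (Finset.mem_union_right _ (F₂.2.mem_toFinset.2 hg))
  have hne : Nonempty I := ⟨⟨⊥, by simp⟩⟩
  have hS : ∀ F : I, ∀ g, g ∈ F.2.toFinset ↔ g ∈ F.1 := fun F g => F.2.mem_toFinset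
  refine ⟨I, inferInstance, hdir, hne, fun F => trunc F.2.toFinset, ?_, ?_, ?_, ?_, ?_, ?_⟩
  · exact fun F => trunc_normal F.1 _ (hS F)
  · exact fun F => trunc_one _ ((hS F 1).2 F.1.one_mem)
  · exact fun F x => trunc_trace _ ((hS F 1).2 F.1.one_mem) x
  · exact fun F => trunc_cp F.1 _ (hS F)
  · exact fun F => trunc_compact _
  · intro x
    have h1 := (CE.sb G).hasSum_repr (x.1 (CE.sb G 1))
    have h2 : Tendsto (fun S : Finset G => (LG G).norm2 (trunc S x - x)) atTop (𝓝 0) := by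
      have h3 : Tendsto (fun S : Finset G =>
          ‖∑ g ∈ S, (CE.sb G).repr (x.1 (CE.sb G 1)) g • CE.sb G g - x.1 (CE.sb G 1)‖) atTop
          (𝓝 0) := by
        rw [← tendsto_iff_norm_sub_tendsto_zero]
        exact h1
      refine h3.congr fun S => ?_
      rw [LG_norm2]
      unfold N2
      have h4 : ((trunc S x - x : Elt (LK (CE.sb G))) : EllTwo G →L[ℂ] EllTwo G) (CE.sb G 1) =
          (trunc S x).1 (CE.sb G 1) - x.1 (CE.sb G 1) := rfl
      rw [h4, trunc_val]
      congr 2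
      refine Finset.sum_congr rfl fun g _ => ?_
      rw [lamK_basis, mul_one, HilbertBasis.repr_apply_apply]
    have h5 : Tendsto (fun F : I => F.2.toFinset) atTop atTop := by
      rw [tendsto_atTop_atTop]
      intro S
      obtain ⟨F, hF, hFS⟩ := hG S
      refine ⟨⟨F, Set.toFinite _⟩, fun F' hF' => ?_⟩
      intro g hg
      exact F'.2.mem_toFinset.2 (hF' (hFS g hg))
    exact h2.comp h5

end Pool.Agent.TH256.HT
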