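import Mathlib
import Pool.Agent.TH256.HT.LG
import Pool.Agent.TH256.HT.Grp2
import Pool.Agent.Helper278.RGRep

/-!
The group von Neumann algebra of a group with property (T) has property (T).
-/

set_option autoImplicit false
set_option linter.unusedSectionVars false
set_option maxHeartbeats 1000000

open scoped InnerProductSpace ComplexOrder BoundedContinuousFunction
open Filter Topology

namespace Pool.Agent.TH256.HT

open Pool.Agent.H504R3 (TVN)
open Pool.Agent.Helper278 Pool.Agent.Helper278.RG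

section conv

variable {K : Type} [NormedAddCommGroup K] [InnerProductSpace ℂ K] [CompleteSpace K]

/-- bounded sequences converging to zero on a total set converge to zero -/
theorem strong_of_total (T : ℕ → K →L[ℂ] K) (C : ℝ) (hC : ∀ n, ‖T n‖ ≤ C) (S : Set K)
    (hS : Dense ((Submodule.span ℂ S : Submodule ℂ K) : Set K))
    (h : ∀ v ∈ S, Tendsto (fun n => ‖T n v‖) atTop (𝓝 0)) (v : K) :
    Tendsto (fun n => ‖T n v‖) atTop (𝓝 0) := by
  have hC0 : 0 ≤ C := (norm_nonneg _).trans (hC 0)
  have hspan : ∀ v ∈ Submodule.span ℂ S, Tendsto (fun n => ‖T n v‖) atTop (𝓝 0) := by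
    intro v hv
    induction hv using Submodule.span_induction with
    | mem x hx => exact h x hx
    | zero => simp
    | add x y _ _ hx hy =>
      have := hx.add hy
      rw [add_zero] at this
      refine squeeze_zero (fun n => norm_nonneg _) (fun n => ?_) this
      rw [map_add]
      exact norm_add_le _ _
    | smul c x _ hx =>
      have := hx.const_mul ‖c‖
      rw [mul_zero] at this
      refine this.congr fun n => ?_
      rw [map_smul, norm_smul]
  rw [Metric.tendsto_atTop]
  intro ε hε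
  obtain ⟨w, hw, hvw⟩ := Metric.dense_iff.1 hS v (ε / (2 * (C + 1))) (by positivity)
  rw [Metric.mem_ball, dist_comm, dist_eq_norm] at hw
  obtain ⟨N, hN⟩ := (Metric.tendsto_atTop.1 (hspan w hvw)) (ε / 2) (by positivity)
  refine ⟨N, fun n hn => ?_⟩
  have h1 := hN n hn
  rw [dist_zero_right, norm_norm] at h1 ⊢
  have h2 : T n v = T n (v - w) + T n w := by rw [← map_add, sub_add_cancel]
  have h3 : ‖T n (v - w)‖ ≤ C * ‖v - w‖ := (T n).le_of_opNorm_le (hC n) _
  have h4 : C * ‖v - w‖ ≤ (C + 1) * (ε / (2 * (C + 1))) := by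
    apply mul_le_mul (by linarith) hw.le (norm_nonneg _) (by linarith)
  have h5 : (C + 1) * (ε / (2 * (C + 1))) = ε / 2 := by
    field_simp
  calc ‖T n v‖ ≤ ‖T n (v - w)‖ + ‖T n w‖ := by rw [h2]; exact norm_add_le _ _
    _ < ε / 2 + ε / 2 := by linarith
    _ = ε := by ring

end conv

variable {G : Type} [Group G]

/-- a bounded sequence of `L(G)` which converges to zero in the 2-norm converges strongly -/
theorem strong_of_N2 (y : ℕ → (LG G).E) (C : ℝ) (hC : ∀ n, ‖(y n).1‖ ≤ C)
    (h : Tendsto (fun n => N2 (CE.sb G) (y n)) atTop (𝓝 0)) (v : EllTwo G) :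
    Tendsto (fun n => ‖(y n).1 v‖) atTop (𝓝 0) := by
  refine strong_of_total (fun n => (y n).1) C hC (Set.range (CE.sb G)) ?_ ?_ v
  · rw [Submodule.dense_iff_topologicalClosure_eq_top]
    exact (CE.sb G).dense_span
  · rintro _ ⟨g, rfl⟩
    refine h.congr fun n => ?_
    have h2 : CE.sb G g = rhoK (CE.sb G) g⁻¹ (CE.sb G 1) := by rw [rhoK_basis, inv_inv, one_mul]
    have h3 : (y n).1 (CE.sb G g) = rhoK (CE.sb G) g⁻¹ ((y n).1 (CE.sb G 1)) := by
      rw [h2]
      exact (congrArg (fun T : EllTwo G →L[ℂ] EllTwo G => T (CE.sb G 1))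
        (comm_right (CE.sb G) _ (y n).2 g⁻¹)).symm
    have h4 : ∀ u : EllTwo G, ‖rhoK (CE.sb G) g⁻¹ u‖ = ‖u‖ := by
      intro u
      unfold rhoK
      rw [CE.permK_sb]
      exact CE.norm_permOp _ _
    rw [h3, h4]
    rfl

/-- functionals that are 2-norm continuous on bounded sets -/
theorem normal_tendsto (ψ : (LG G).E → ℂ) (hψ : IsContFunctional (LG G) ψ) (h0 : ψ 0 = 0)
    (y : ℕ → (LG G).E) (C : ℝ) (hC : ∀ n, ‖(y n).1‖ ≤ C)
    (h : Tendsto (fun n => N2 (CE.sb G) (y n)) atTop (𝓝 0)) :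
    Tendsto (fun n => ψ (star (y n) * y n)) atTop (𝓝 0) := by
  have hC0 : 0 ≤ C := (norm_nonneg _).trans (hC 0)
  have h1 : ∀ n, N2 (CE.sb G) (star (y n) * y n) ≤ C * N2 (CE.sb G) (y n) := by
    intro n
    unfold N2
    have h2 : ((star (y n) * y n : (LG G).E) : (LG G).H →L[ℂ] (LG G).H) (CE.sb G 1) =
      (star (y n).1) ((y n).1 (CE.sb G 1)) := rfl
    have h3 := (star (y n).1).le_opNorm ((y n).1 (CE.sb G 1))
    have h4 : ‖star (y n).1‖ ≤ C := by rw [norm_star]; exact hC n
    refine (le_of_eq (congrArg norm h2)).trans (h3.trans ?_)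
    exact mul_le_mul_of_nonneg_right h4 (norm_nonneg _)
  rw [Metric.tendsto_atTop]
  intro ε hε
  obtain ⟨δ, hδ, hc⟩ := hψ (C * C) ε hε
  have h5 : Tendsto (fun n => C * N2 (CE.sb G) (y n)) atTop (𝓝 0) := by
    have := h.const_mul C
    rwa [mul_zero] at this
  obtain ⟨N, hN⟩ := (Metric.tendsto_atTop.1 h5) δ hδ
  refine ⟨N, fun n hn => ?_⟩
  rw [dist_eq_norm, ← h0]
  refine hc _ _ ?_ ?_ ?_
  · show ‖(star (y n) * y n).1‖ ≤ C * C
    have h2 : (star (y n) * y n).1 = star (y n).1 * (y n).1 := rfl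
    rw [h2]
    refine (norm_mul_le _ _).trans ?_
    rw [norm_star]
    exact mul_le_mul (hC n) (hC n) (norm_nonneg _) hC0
  · show ‖(0 : EllTwo G →L[ℂ] EllTwo G)‖ ≤ C * C
    rw [norm_zero]
    positivity
  · rw [sub_zero, LG_norm2]
    have h6 := hN n hn
    rw [Real.dist_eq, sub_zero] at h6
    exact (h1 n).trans_lt ((le_abs_self _).trans_lt h6)

/-- a vector of a bimodule which is fixed by the canonical unitaries is central -/
theorem central_of_group (B : Bimodule (LG G)) (w : B.K)
    (h : ∀ g : G, B.L (La (CE.sb G) g) w = B.R (MulOpposite.op (La (CE.sb G) g)) w)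
    (x : (LG G).E) : B.L x w = B.R (MulOpposite.op x) w := by
  -- the linear functional
  let D : (LG G).E →ₗ[ℂ] B.K :=
    { toFun := fun x => B.L x w - B.R (MulOpposite.op x) w
      map_add' := by
        intro x y
        rw [map_add, MulOpposite.op_add, map_add, add_apply, add_apply]
        abel
      map_smul' := by
        intro c x
        rw [map_smul, MulOpposite.op_smul, map_smul, smul_apply, smul_apply, RingHom.id_apply,
          smul_sub] }
  have hD : ∀ x, D x = B.L x w - B.R (MulOpposite.op x) w := fun _ => rfl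
  have hLop : ∀ v : MonoidAlgebra ℂ G, D (Lop (CE.sb G) v) = 0 := by
    intro v
    rw [Lop_apply, Finsupp.sum, map_sum]
    refine Finset.sum_eq_zero fun g _ => ?_
    rw [map_smul, hD, h g, sub_self, smul_zero]
  have key : ∀ x : (LG G).E, ‖x.1‖ ≤ 1 → D x = 0 := by
    intro x hx
    have hk := fun n : ℕ => kap_LK (CE.sb G) x hx (1 / ((n : ℝ) + 1)) (by positivity)
    choose v hv1 hv2 using hk
    let y : ℕ → (LG G).E := fun n => x - Lop (CE.sb G) (v n)
    have hyD : ∀ n, D (y n) = D x := by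
      intro n
      show D (x - Lop (CE.sb G) (v n)) = _
      rw [map_sub, hLop, sub_zero]
    have hyC : ∀ n, ‖(y n).1‖ ≤ 3 := by
      intro n
      have h1 : (y n).1 = x.1 - (Lop (CE.sb G) (v n)).1 := rfl
      rw [h1]
      refine (norm_sub_le _ _).trans ?_
      have h2 : ‖(Lop (CE.sb G) (v n)).1‖ ≤ 2 := hv1 n
      linarith
    have hyN : Tendsto (fun n => N2 (CE.sb G) (y n)) atTop (𝓝 0) :=
      squeeze_zero (fun n => norm_nonneg _) (fun n => (hv2 n).le)
        tendsto_one_div_add_atTop_nhds_zero_nat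
    have hL := normal_tendsto _ (B.normal_left w) (by
      show ⟪w, B.L (0 : (LG G).E) w⟫_ℂ = 0
      rw [map_zero, zero_apply, inner_zero_right]) y 3 hyC hyN
    have hyC' : ∀ n, ‖(star (y n)).1‖ ≤ 3 := by
      intro n
      have h1 : (star (y n)).1 = star (y n).1 := rfl
      rw [h1, norm_star]
      exact hyC n
    have hyN' : Tendsto (fun n => N2 (CE.sb G) (star (y n))) atTop (𝓝 0) := by
      refine hyN.congr fun n => ?_
      exact (N2_star (CE.sb G) (y n)).symm
    have hR := normal_tendsto _ (B.normal_right w) (by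
      show ⟪w, B.R (MulOpposite.op (0 : (LG G).E)) w⟫_ℂ = 0
      rw [MulOpposite.op_zero, map_zero, zero_apply, inner_zero_right])
      (fun n => star (y n)) 3 hyC' hyN'
    have eL : ∀ n, ⟪w, B.L (star (y n) * y n) w⟫_ℂ = ((‖B.L (y n) w‖ ^ 2 : ℝ) : ℂ) := by
      intro n
      rw [map_mul, map_star]
      have h2 : (star (B.L (y n)) * B.L (y n)) w =
        ContinuousLinearMap.adjoint (B.L (y n)) (B.L (y n) w) := rfl
      rw [h2, ContinuousLinearMap.adjoint_inner_right, inner_self_eq_norm_sq_to_K]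
      push_cast
      rfl
    have eR : ∀ n, ⟪w, B.R (MulOpposite.op (star (star (y n)) * star (y n))) w⟫_ℂ =
        ((‖B.R (MulOpposite.op (y n)) w‖ ^ 2 : ℝ) : ℂ) := by
      intro n
      rw [star_star, MulOpposite.op_mul, MulOpposite.op_star, map_mul, map_star]
      have h2 : (star (B.R (MulOpposite.op (y n))) * B.R (MulOpposite.op (y n))) w =
        ContinuousLinearMap.adjoint (B.R (MulOpposite.op (y n))) (B.R (MulOpposite.op (y n)) w) := rfl
      rw [h2, ContinuousLinearMap.adjoint_inner_right, inner_self_eq_norm_sq_to_K]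
      push_cast
      rfl
    have hL' : Tendsto (fun n => ‖B.L (y n) w‖ ^ 2) atTop (𝓝 0) := by
      have h1 := (Complex.continuous_re.tendsto 0).comp hL
      rw [Complex.zero_re] at h1
      refine h1.congr fun n => ?_
      show (⟪w, B.L (star (y n) * y n) w⟫_ℂ).re = _
      rw [eL, Complex.ofReal_re]
    have hR' : Tendsto (fun n => ‖B.R (MulOpposite.op (y n)) w‖ ^ 2) atTop (𝓝 0) := by
      have h1 := (Complex.continuous_re.tendsto 0).comp hR
      rw [Complex.zero_re] at h1
      refine h1.congr fun n => ?_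
      show (⟪w, B.R (MulOpposite.op (star (star (y n)) * star (y n))) w⟫_ℂ).re = _
      rw [eR, Complex.ofReal_re]
    have h0 : Tendsto (fun _ : ℕ => ‖D x‖ ^ 2) atTop (𝓝 0) := by
      have h1 := (hL'.add hR').const_mul 2
      rw [add_zero, mul_zero] at h1
      refine squeeze_zero (fun n => by positivity) (fun n => ?_) h1
      rw [← hyD n, hD]
      have h2 := norm_sub_le (B.L (y n) w) (B.R (MulOpposite.op (y n)) w)
      have h3 := norm_nonneg (B.L (y n) w - B.R (MulOpposite.op (y n)) w)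
      nlinarith [sq_nonneg (‖B.L (y n) w‖ - ‖B.R (MulOpposite.op (y n)) w‖)]
    have h4 := tendsto_nhds_unique h0 tendsto_const_nhds
    have h5 : ‖D x‖ = 0 := by
      have : ‖D x‖ ^ 2 = 0 := h4.symm
      exact pow_eq_zero_iff two_ne_zero |>.1 this
    exact norm_eq_zero.1 h5
  have h1 : D x = 0 := by
    set c : ℝ := (‖x.1‖ + 1)⁻¹ with hc
    have hc0 : 0 < c := by positivity
    have h2 := key ((c : ℂ) • x) (by
      show ‖(c : ℂ) • x.1‖ ≤ 1
      rw [norm_smul, Complex.norm_real, Real.norm_eq_abs, abs_of_pos hc0, hc,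
        inv_mul_le_iff₀ (by positivity), mul_one]
      linarith)
    rw [map_smul, smul_eq_zero] at h2
    rcases h2 with h2 | h2
    · exfalso
      exact hc0.ne' (by exact_mod_cast h2)
    · exact h2
  rw [hD, sub_eq_zero] at h1
  exact h1

theorem star_op {A : Type} [Star A] (x : A) : star (MulOpposite.op x) = MulOpposite.op (star x) := rfl

/-- the group von Neumann algebra of a group with property (T) has property (T) -/
theorem propertyT_LG (hG : GroupT G) : HasPropertyT (LG G) := by
  classical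
  obtain ⟨S, δ, hδ, hS⟩ := hG
  refine ⟨S.image fun g => (La (CE.sb G) g : (LG G).E), δ, hδ, ?_⟩
  intro B ξ hξ hF
  -- the unitary representation
  have hLu : ∀ g : G, B.L (La (CE.sb G) g⁻¹) * B.L (La (CE.sb G) g) = 1 := by
    intro g
    rw [← map_mul, La_mul, inv_mul_cancel, La_one]
    exact map_one _
  let σ : G →* (B.K →L[ℂ] B.K) :=
    { toFun := fun g => B.L (La (CE.sb G) g) * B.R (MulOpposite.op (La (CE.sb G) g⁻¹))
      map_one' := by
        rw [inv_one, La_one]
        have h1 : B.L (1 : (LG G).E) = 1 := map_one _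
        have h2 : B.R (MulOpposite.op (1 : (LG G).E)) = 1 := by
          rw [MulOpposite.op_one]; exact map_one _
        exact (congrArg₂ (· * ·) h1 h2).trans (mul_one _)
      map_mul' := by
        intro g h
        have h1 : B.L (La (CE.sb G) (g * h)) = B.L (La (CE.sb G) g) * B.L (La (CE.sb G) h) := by
          rw [← map_mul, La_mul]
        have h2 : B.R (MulOpposite.op (La (CE.sb G) (g * h)⁻¹)) =
            B.R (MulOpposite.op (La (CE.sb G) g⁻¹)) * B.R (MulOpposite.op (La (CE.sb G) h⁻¹)) := by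
          rw [← map_mul, ← MulOpposite.op_mul, La_mul, mul_inv_rev]
        rw [h1, h2, mul_assoc, mul_assoc, ← mul_assoc (B.L (La (CE.sb G) h)), B.comm, mul_assoc] }
  have hσ : ∀ g, σ g = B.L (La (CE.sb G) g) * B.R (MulOpposite.op (La (CE.sb G) g⁻¹)) := fun _ => rfl
  have hstar : ∀ g, star (σ g) = σ g⁻¹ := by
    intro g
    rw [hσ, hσ, star_mul, ← map_star, ← map_star, star_op, star_La, star_La, B.comm]
  have hunit : ∀ g, σ g ∈ unitary (B.K →L[ℂ] B.K) := by
    intro g
    rw [Unitary.mem_iff, hstar, ← map_mul, ← map_mul, inv_mul_cancel, mul_inv_cancel, map_one]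
    exact ⟨rfl, rfl⟩
  have hRinv : ∀ g (v : B.K), B.R (MulOpposite.op (La (CE.sb G) g))
      (B.R (MulOpposite.op (La (CE.sb G) g⁻¹)) v) = v := by
    intro g v
    have h1 : B.R (MulOpposite.op (La (CE.sb G) g)) * B.R (MulOpposite.op (La (CE.sb G) g⁻¹)) =
        1 := by
      rw [← map_mul, ← MulOpposite.op_mul, La_mul, inv_mul_cancel, La_one]
      exact map_one B.R
    exact congrArg (fun T : B.K →L[ℂ] B.K => T v) h1
  have hRnorm : ∀ g (v : B.K), ‖B.R (MulOpposite.op (La (CE.sb G) g)) v‖ = ‖v‖ := by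
    intro g v
    have h1 : B.R (MulOpposite.op (La (CE.sb G) g)) ∈ unitary (B.K →L[ℂ] B.K) := by
      rw [Unitary.mem_iff, ← map_star, star_op, star_La, ← map_mul, ← map_mul,
        ← MulOpposite.op_mul, ← MulOpposite.op_mul, La_mul, La_mul, inv_mul_cancel,
        mul_inv_cancel, La_one]
      exact ⟨map_one B.R, map_one B.R⟩
    exact ContinuousLinearMap.norm_map_of_mem_unitary h1 v
  obtain ⟨w, hw0, hw⟩ := hS B.K σ hunit ξ hξ (by
    intro g hg
    have h1 := hF _ (Finset.mem_image_of_mem _ hg)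
    have h2 : B.R (MulOpposite.op (La (CE.sb G) g)) (σ g ξ - ξ) =
        B.L (La (CE.sb G) g) ξ - B.R (MulOpposite.op (La (CE.sb G) g)) ξ := by
      rw [map_sub, hσ]
      congr 1
      have h3 : (B.L (La (CE.sb G) g) * B.R (MulOpposite.op (La (CE.sb G) g⁻¹))) ξ =
        (B.R (MulOpposite.op (La (CE.sb G) g⁻¹)) * B.L (La (CE.sb G) g)) ξ := by rw [B.comm]
      rw [h3]
      exact hRinv g _
    rw [← hRnorm g, h2]
    exact h1)
  refine ⟨w, hw0, ?_⟩
  apply central_of_group
  intro g
  have h1 := congrArg (B.R (MulOpposite.op (La (CE.sb G) g))) (hw g)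
  rw [← h1, hσ]
  have h3 : (B.L (La (CE.sb G) g) * B.R (MulOpposite.op (La (CE.sb G) g⁻¹))) w =
    (B.R (MulOpposite.op (La (CE.sb G) g⁻¹)) * B.L (La (CE.sb G) g)) w := by rw [B.comm]
  rw [h3]
  exact (hRinv g _).symm

end Pool.Agent.TH256.HT
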