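import Mathlib
import Pool.Agent.TH256.HT.LG
import Pool.Agent.TH256.HT.Grp2
import Pool.Agent.Helper278.CEMod
import Pool.Agent.Helper278.Model
import Pool.Agent.Helper278.RGRep

/-!
Trace preserving embeddings of group von Neumann algebras in tracial ultrapowers.
-/

set_option autoImplicit false
set_option linter.unusedSectionVars false
set_option maxHeartbeats 1000000

open scoped InnerProductSpace ComplexOrder BoundedContinuousFunction
open Filter Topology

namespace Pool.Agent.TH256.HT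

open Pool.Agent.H504R3 (TVN)
open Pool.Agent.Helper278 Pool.Agent.Helper278.RG

section general

variable {H' : Type} [NormedAddCommGroup H'] [InnerProductSpace ℂ H'] [CompleteSpace H']
variable {N : VonNeumannAlgebra H'}
variable {Q : Type} [Ring Q] [StarRing Q] [Algebra ℂ Q] [StarModule ℂ Q]
variable {T : TracialState N} {U : Ultrafilter ℕ} {π : (ℕ →ᵇ Elt N) →⋆ₐ[ℂ] Q} {σ : Q → ℂ}

/-- Extension of a group homomorphism into the unitary group of an ultrapower. -/
theorem ult_hom (hU : ∀ n, {n} ∉ U) (hπ : IsTracialUltrapower T.τ U π σ) {G : Type} [Group G]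
    (q : G → Q) (hone : q 1 = 1) (hmul : ∀ g h, q (g * h) = q g * q h)
    (hstar : ∀ g, star (q g) = q g⁻¹) (horth : ∀ g, g ≠ 1 → σ (q g) = 0) :
    ∃ θ : Elt (LK (CE.sb G)) →⋆ₐ[ℂ] Q, (∀ x, σ (θ x) = trG (CE.sb G) x) ∧
      ∀ g, θ (La (CE.sb G) g) = q g := by
  have hA := sigma_trAlg hπ
  obtain ⟨K, _, _, _, j, hd, hj⟩ := CE.exists_gns hA
  have hB := CE.ball_ultra hU hπ
  let q' : G → K →L[ℂ] K := fun g => CE.Lm j (q g)
  have hrep : Rep q' := by
    refine ⟨?_, ?_, ?_⟩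
    · apply CE.ext_j hd
      intro x
      show CE.Lm j (q 1) (j x) = j x
      rw [CE.Lm_j hA hd hj hB, hone, one_mul]
    · intro g h
      apply CE.ext_j hd
      intro x
      show CE.Lm j (q (g * h)) (j x) = CE.Lm j (q g) (CE.Lm j (q h) (j x))
      rw [CE.Lm_j hA hd hj hB, CE.Lm_j hA hd hj hB, CE.Lm_j hA hd hj hB, hmul, mul_assoc]
    · intro g
      show star (CE.Lm j (q g)) = CE.Lm j (q g⁻¹)
      rw [CE.star_Lm hA hd hj hB, hstar]
  have horth' : Orthonormal ℂ (fun g : G => j (q g)) := by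
    classical
    rw [orthonormal_iff_ite]
    intro a c
    rw [hj, hstar, ← hmul]
    by_cases hac : a = c
    · subst hac
      rw [if_pos rfl, inv_mul_cancel, hone, hA.one]
    · rw [if_neg hac]
      exact horth _ (fun h => hac (inv_mul_eq_one.1 h))
  obtain ⟨V, hV, _⟩ := exists_iso (CE.sb G) _ horth'
  have hmemj : ∀ a : Q, j a ∈ BV (CE.sb G) q' := by
    intro a
    refine ⟨(CE.Rm j a).comp V, fun g => ?_⟩
    rw [ContinuousLinearMap.comp_apply, hV, CE.Rm_j hA hd hj hB]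
    exact (CE.Lm_j hA hd hj hB _ _).symm
  have hdense : Dense ((BV (CE.sb G) q' : Submodule ℂ K) : Set K) := by
    refine Dense.mono ?_ hd
    rintro _ ⟨a, rfl⟩
    exact hmemj a
  let e := CE.LmEquiv hA hd hj hB
  have hmemP : ∀ g, q' g ∈ CE.MM j := fun g => CE.Lm_mem (q g)
  let E := extHom (CE.sb G) hrep hdense (CE.MM j) hmemP
  let θ : Elt (LK (CE.sb G)) →⋆ₐ[ℂ] Q := (e.symm : Elt (CE.MM j) →⋆ₐ[ℂ] Q).comp E
  refine ⟨θ, fun x => ?_, fun g => ?_⟩
  · have h1 : sigmaL hπ (θ x) = CE.tauM j (E x) := by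
      rw [← CE.tauM_LmEquiv hA hd hj hB]
      show CE.tauM j (e (e.symm (E x))) = _
      rw [e.apply_symm_apply]
    have h2 : CE.tauM j (E x) = trG (CE.sb G) x := by
      refine ext_trace (CE.sb G) hrep hdense (j 1) (hmemj 1) ?_ ?_ x
      · rw [CE.norm_j hj]
        unfold n2
        rw [star_one, one_mul, hA.one, Complex.one_re, Real.sqrt_one]
      · intro g hg
        show ⟪j 1, CE.Lm j (q g) (j 1)⟫_ℂ = 0
        rw [CE.Lm_j hA hd hj hB, hj, star_one, one_mul, mul_one]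
        exact horth g hg
    exact h1.trans h2
  · show e.symm (E (La (CE.sb G) g)) = q g
    have h1 : E (La (CE.sb G) g) = e (q g) := by
      have h2 := extHom_La (CE.sb G) hrep hdense (CE.MM j) hmemP g
      exact h2.trans (Subtype.ext rfl)
    rw [h1, e.symm_apply_apply]

end general

section seqs

variable {H : Type} [Group H]

/-- the diagonal embedding -/
noncomputable def cstHom (N : TVN) : N.E →⋆ₐ[ℂ] (ℕ →ᵇ N.E) where
  toFun x := BoundedContinuousFunction.const ℕ x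
  map_one' := rfl
  map_mul' _ _ := rfl
  map_zero' := rfl
  map_add' _ _ := rfl
  commutes' _ := rfl
  map_star' _ := rfl

theorem cstHom_apply (N : TVN) (x : N.E) (n : ℕ) : cstHom N x n = x := rfl

variable {Q : Type} [Ring Q] [StarRing Q] [Algebra ℂ Q] [StarModule ℂ Q]
variable {U : Ultrafilter ℕ} {π : (ℕ →ᵇ Elt (LK (CE.sb H))) →⋆ₐ[ℂ] Q} {σ : Q → ℂ}

/-- the class of a sequence of group elements -/
noncomputable def cls (π : (ℕ →ᵇ Elt (LK (CE.sb H))) →⋆ₐ[ℂ] Q) (f : ℕ → H) : Q :=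
  π (mkB fun n => canU (CE.sb H) (f n))

theorem le_atTop (hU : ∀ n, {n} ∉ U) : (U : Filter ℕ) ≤ atTop := by
  rw [← Nat.cofinite_eq_atTop]
  rcases U.le_cofinite_or_eq_pure with h | ⟨a, ha⟩
  · exact h
  · refine absurd ?_ (hU a)
    rw [ha]
    exact Filter.mem_pure.2 (Set.mem_singleton a)

theorem cls_congr (hU : ∀ n, {n} ∉ U) (hπ : IsTracialUltrapower (TL (CE.sb H)).τ U π σ)
    {f g : ℕ → H} (h : ∀ᶠ n in atTop, f n = g n) : cls π f = cls π g := by
  unfold cls
  rw [← sub_eq_zero, ← map_sub, hπ.ker]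
  refine Tendsto.congr' ?_ tendsto_const_nhds
  have h1 : ∀ᶠ n in (U : Filter ℕ), f n = g n := le_atTop hU h
  filter_upwards [h1] with n hn
  have h2 : (mkB (fun n => canU (CE.sb H) (f n)) - mkB (fun n => canU (CE.sb H) (g n)) :
      ℕ →ᵇ Elt (LK (CE.sb H))) n = 0 := by
    show (canU (CE.sb H) (f n) : Elt (LK (CE.sb H))) - (canU (CE.sb H) (g n) : Elt (LK (CE.sb H))) = 0
    rw [hn, sub_self]
  rw [h2, mul_zero, map_zero]

theorem cls_mul (f g : ℕ → H) : cls π (fun n => f n * g n) = cls π f * cls π g := by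
  unfold cls
  rw [← map_mul]
  congr 1
  ext1 n
  show (canU (CE.sb H) (f n * g n) : Elt (LK (CE.sb H))) =
    (canU (CE.sb H) (f n) : Elt (LK (CE.sb H))) * (canU (CE.sb H) (g n) : Elt (LK (CE.sb H)))
  rw [map_mul]
  rfl

theorem cls_star (f : ℕ → H) : star (cls π f) = cls π (fun n => (f n)⁻¹) := by
  unfold cls
  rw [← map_star]
  congr 1
  ext1 n
  show star (canU (CE.sb H) (f n) : Elt (LK (CE.sb H))) =
    (canU (CE.sb H) (f n)⁻¹ : Elt (LK (CE.sb H)))
  exact star_La (CE.sb H) (f n)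

theorem cls_one : cls π (fun _ => (1 : H)) = 1 := by
  unfold cls
  rw [← map_one π]
  congr 1
  ext1 n
  show (canU (CE.sb H) 1 : Elt (LK (CE.sb H))) = 1
  exact La_one (CE.sb H)

theorem cls_trace (hU : ∀ n, {n} ∉ U) (hπ : IsTracialUltrapower (TL (CE.sb H)).τ U π σ)
    {f : ℕ → H} (h : ∀ᶠ n in atTop, f n ≠ 1) : σ (cls π f) = 0 := by
  refine tendsto_nhds_unique (hπ.trace _) (Tendsto.congr' ?_ tendsto_const_nhds)
  have h1 : ∀ᶠ n in (U : Filter ℕ), f n ≠ 1 := le_atTop hU h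
  filter_upwards [h1] with n hn
  show (0 : ℂ) = ⟪CE.sb H 1, lamK (CE.sb H) (f n) (CE.sb H 1)⟫_ℂ
  rw [lamK_basis, mul_one, inner_bb _ _ _ (Ne.symm hn)]

/-- two trace preserving homomorphisms that agree on the canonical unitaries are equal -/
theorem hom_unique (hπ : IsTracialUltrapower (TL (CE.sb H)).τ U π σ)
    (A B : (LG H).E →⋆ₐ[ℂ] Q) (hA : ∀ x, σ (A x) = (LG H).τ x) (hB : ∀ x, σ (B x) = (LG H).τ x)
    (h : ∀ g, A (La (CE.sb H) g) = B (La (CE.sb H) g)) (x : (LG H).E) : A x = B x := by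
  have hT := sigma_trAlg hπ
  have hn : ∀ (A : (LG H).E →⋆ₐ[ℂ] Q), (∀ x, σ (A x) = (LG H).τ x) → ∀ y,
      n2 (sigmaL hπ) (A y) = N2 (CE.sb H) y := by
    intro A hA y
    unfold n2
    rw [← map_star, ← map_mul]
    show Real.sqrt (σ (A (star y * y))).re = _
    rw [hA]
    exact n2_TL (CE.sb H) y
  have hL : ∀ v : MonoidAlgebra ℂ H, A (Lop (CE.sb H) v) = B (Lop (CE.sb H) v) := by
    intro v
    rw [Lop_apply, Finsupp.sum, map_sum, map_sum]
    refine Finset.sum_congr rfl fun g _ => ?_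
    rw [map_smul, map_smul, h]
  have h0 : n2 (sigmaL hπ) (A x - B x) = 0 := by
    apply le_antisymm _ (n2_nonneg _ _)
    refine le_of_forall_pos_le_add fun ε hε => ?_
    obtain ⟨_, ⟨v, rfl⟩, hv⟩ := dense_CG (CE.sb H) x (ε / 2) (by positivity)
    have e1 : A x - B x = A (x - Lop (CE.sb H) v) - B (x - Lop (CE.sb H) v) := by
      rw [map_sub, map_sub, hL]
      abel
    have e2 : N2 (CE.sb H) (x - Lop (CE.sb H) v) < ε / 2 := hv
    rw [e1]
    refine (hT.n2_sub_le _ _).trans ?_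
    rw [hn A hA, hn B hB]
    linarith
  have h1 : sigmaL hπ (star (A x - B x) * (A x - B x)) = 0 := by
    have h2 := hT.n2_sq (A x - B x)
    rw [h0, zero_pow two_ne_zero] at h2
    apply Complex.ext
    · exact h2.symm
    · exact hT.im_zero _
  exact sub_eq_zero.1 (hT.faithful _ h1)

end seqs

end Pool.Agent.TH256.HT
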