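import Mathlib
import Pool.Agent.TH256.HT.Tee
import Pool.Agent.TH256.HT.Haag
import Pool.Agent.TH256.HT.Ult

/-!
# An existential embedding of a Haagerup II₁ factor in a II₁ factor with property (T)
-/

set_option autoImplicit false
set_option linter.unusedSectionVars false
set_option maxHeartbeats 1000000

open scoped InnerProductSpace ComplexOrder BoundedContinuousFunction
open Filter Topology

namespace Pool.Agent.TH256.HT

open Pool.Agent.H504R3 (TVN)
open Pool.Agent.Helper278 Pool.Agent.Helper278.RG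

theorem exists_seq (x : GG) : ∃ f : ℕ → HH, ((f : ℕ → HH) : GM) = x.1 :=
  Quotient.exists_rep x.1

/-- a representing sequence -/
noncomputable def rr (x : GG) : ℕ → HH := Classical.choose (exists_seq x)

theorem rr_spec (x : GG) : ((rr x : ℕ → HH) : GM) = x.1 := Classical.choose_spec (exists_seq x)

theorem rr_eq {x : GG} {f : ℕ → HH} (h : ((f : ℕ → HH) : GM) = x.1) :
    ∀ᶠ n in atTop, rr x n = f n := by
  have h1 := (rr_spec x).trans h.symm
  rwa [Germ.coe_eq] at h1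

theorem rr_mul (x y : GG) : ∀ᶠ n in atTop, rr (x * y) n = rr x n * rr y n := by
  apply rr_eq
  show ((rr x * rr y : ℕ → HH) : GM) = x.1 * y.1
  rw [Germ.coe_mul, rr_spec, rr_spec]

theorem rr_inv (x : GG) : ∀ᶠ n in atTop, rr x⁻¹ n = (rr x n)⁻¹ := by
  apply rr_eq
  show (((rr x)⁻¹ : ℕ → HH) : GM) = x.1⁻¹
  rw [Germ.coe_inv, rr_spec]

theorem rr_one : ∀ᶠ n in atTop, rr 1 n = 1 := rr_eq rfl

theorem rr_inc (h : HH) : ∀ᶠ n in atTop, rr (incH h) n = h := rr_eq rfl

theorem rr_ne (x : GG) (hx : x ≠ 1) : ∀ᶠ n in atTop, rr x n ≠ 1 := by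
  obtain ⟨_, g, rfl⟩ := x
  have hg : Phi g ≠ 1 := fun h => hx (Subtype.ext h)
  have h1 : ∀ᶠ n in atTop, rr ⟨Phi g, ⟨g, rfl⟩⟩ n = gn n g := rr_eq rfl
  filter_upwards [h1, dichotomy g hg] with n e1 e2
  rw [e1]
  exact e2

theorem existential (U : Ultrafilter ℕ) (hU : ∀ n, {n} ∉ U) :
    IsExistential U (N := LG HH) (M := LG GG) (incl incH incH_inj) := by
  obtain ⟨Q, i1, i2, i3, i4, π, σ, hπ⟩ := exists_ultrapower (TL (CE.sb HH)) U
  obtain ⟨θ, hθ1, hθ2⟩ := ult_hom hU hπ (fun x : GG => cls π (rr x))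
    ((cls_congr hU hπ rr_one).trans cls_one)
    (fun x y => (cls_congr hU hπ (rr_mul x y)).trans (cls_mul _ _))
    (fun x => (cls_star _).trans (cls_congr hU hπ (rr_inv x)).symm)
    (fun x hx => cls_trace hU hπ (rr_ne x hx))
  refine ⟨Q, i1, i2, i3, i4, π, σ, hπ, θ, hθ1, fun x => ?_⟩
  let A : (LG HH).E →⋆ₐ[ℂ] Q := θ.comp (incl incH incH_inj)
  let B : (LG HH).E →⋆ₐ[ℂ] Q := π.comp (cstHom (LG HH))
  refine hom_unique hπ A B ?_ ?_ ?_ x
  · intro x
    show σ (θ (incl incH incH_inj x)) = _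
    rw [hθ1]
    exact incl_trace incH incH_inj x
  · intro x
    exact tendsto_nhds_unique (hπ.trace _) tendsto_const_nhds
  · intro h
    show θ (incl incH incH_inj (La (CE.sb HH) h)) = π (cstHom (LG HH) (La (CE.sb HH) h))
    have h1 : θ (incl incH incH_inj (La (CE.sb HH) h)) = cls π (rr (incH h)) :=
      (congrArg θ (incl_La incH incH_inj h)).trans (hθ2 (incH h))
    have h2 : cls π (rr (incH h)) = cls π (fun _ => h) := cls_congr hU hπ (rr_inc h)
    have h3 : cls π (fun _ => h) = π (cstHom (LG HH) (La (CE.sb HH) h)) := rfl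
    exact h1.trans (h2.trans h3)

theorem main : ∃ (N M : TVN) (ι : N.E →⋆ₐ[ℂ] M.E),
    N.IsIIOneFactor ∧ N.IsSeparable ∧ M.IsIIOneFactor ∧ M.IsSeparable ∧
    (∀ x : N.E, M.τ (ι x) = N.τ x) ∧ HasHaagerupProperty N ∧ HasPropertyT M ∧
    ∀ U : Ultrafilter ℕ, (∀ n, {n} ∉ U) → IsExistential U ι :=
  ⟨LG HH, LG GG, incl incH incH_inj, LG_iiOne icc_HH, LG_separable, LG_iiOne icc_GG, LG_separable,
    incl_trace incH incH_inj, haagerup_LG locFin_HH, propertyT_LG groupT_GG, existential⟩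

end Pool.Agent.TH256.HT
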