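import Mathlib
import Pool.Agent.H504R3.SDefs

/-!
# Haagerup property, property (T) and existential embeddings of tracial von Neumann algebras

`Str` (file `H504R3/SDefs.lean`) is a set with the operations of a `*`-algebra, an operator norm and a
trace; `Str.IsTVN` says that it is a tracial von Neumann algebra and `Str.IsIIOneFactor` that it is a
II₁ factor.  For tracial von Neumann algebras we define here: normal functionals, the Haagerup
property, Hilbert bimodules, property (T), tracial ultrapowers and existential embeddings.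
-/

set_option autoImplicit false

open scoped InnerProductSpace ComplexOrder
open Pool.Agent.H504R3.S (Str)

namespace Pool.Agent.TH256.HT.S

/-- The functional `f` on `M` is normal: it is 2-norm continuous on the balls of the operator norm
of `M`.  (On these balls the 2-norm defines the strong operator topology, for `M` a tracial von
Neumann algebra.) -/
def IsNormal (M : Str) (f : M.carrier → ℂ) : Prop :=
  ∀ r ε : ℝ, 0 < ε → ∃ δ : ℝ, 0 < δ ∧ ∀ x y : M.carrier, M.nrm x ≤ r → M.nrm y ≤ r →
    M.norm2 (M.sub x y) < δ → ‖f x - f y‖ < ε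

/-! ### the Haagerup property -/

/-- `φ : N → N` is a normal, unital, trace preserving, completely positive linear map.  (Complete
positivity: `∑ tr(bᵢ* φ(aᵢ* aⱼ) bⱼ) ≥ 0` for all finite families `a`, `b`; normality: `φ` is 2-norm
continuous on the balls of the operator norm.) -/
structure IsTracialCP (N : Str) (φ : N.carrier → N.carrier) : Prop where
  add : ∀ x y, φ (N.add x y) = N.add (φ x) (φ y)
  scal : ∀ c x, φ (N.scal c x) = N.scal c (φ x)
  one : φ N.one = N.one
  tr : ∀ x, N.tr (φ x) = N.tr x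
  cp : ∀ (n : ℕ) (a b : Fin n → N.carrier),
    0 ≤ ∑ i, ∑ j, N.tr (N.mul (N.adj (b i)) (N.mul (φ (N.mul (N.adj (a i)) (a j))) (b j)))
  normal : ∀ r ε : ℝ, 0 < ε → ∃ δ : ℝ, 0 < δ ∧ ∀ x y : N.carrier, N.nrm x ≤ r → N.nrm y ≤ r →
    N.norm2 (N.sub x y) < δ → N.norm2 (N.sub (φ x) (φ y)) < ε

/-- `φ : N → N` induces a compact operator on `L²(N)`: the image of the unit ball of the 2-norm is
totally bounded for the 2-norm. -/
def IsCompactL2 (N : Str) (φ : N.carrier → N.carrier) : Prop :=
  ∀ ε : ℝ, 0 < ε → ∃ S : Finset N.carrier, ∀ x, N.norm2 x ≤ 1 → ∃ y ∈ S,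
    N.norm2 (N.sub (φ x) y) < ε

/-- `N` has the Haagerup property: there is a net of normal, unital, trace preserving, completely
positive maps `φ : N → N`, each inducing a compact operator on `L²(N)`, with `‖φ x - x‖₂ → 0` for all
`x` in `N`; in other words, for every finite set `F` in `N` and `ε > 0` there is such a map `φ` with
`‖φ x - x‖₂ < ε` for all `x ∈ F`. -/
def HasHaagerupProperty (N : Str) : Prop :=
  ∀ (F : Finset N.carrier) (ε : ℝ), 0 < ε → ∃ φ : N.carrier → N.carrier,
    IsTracialCP N φ ∧ IsCompactL2 N φ ∧ ∀ x ∈ F, N.norm2 (N.sub (φ x) x) < ε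

/-! ### property (T) -/

/-- The Hilbert space `K` is an `M`-`M` bimodule with the left action `x ξ = L x ξ` and the right
action `ξ x = R x ξ`: `L` is a normal unital `*`-representation of `M`, `R` is a normal unital
`*`-representation of the opposite algebra of `M`, and `L` and `R` commute. -/
structure IsBimodule (M : Str) {K : Type} [NormedAddCommGroup K] [InnerProductSpace ℂ K]
    [CompleteSpace K] (L R : M.carrier → K →L[ℂ] K) : Prop where
  left_one : L M.one = 1
  left_add : ∀ x y, L (M.add x y) = L x + L y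
  left_scal : ∀ c x, L (M.scal c x) = c • L x
  left_mul : ∀ x y, L (M.mul x y) = L x * L y
  left_adj : ∀ x, L (M.adj x) = star (L x)
  left_normal : ∀ ξ : K, IsNormal M fun x => ⟪ξ, L x ξ⟫_ℂ
  right_one : R M.one = 1
  right_add : ∀ x y, R (M.add x y) = R x + R y
  right_scal : ∀ c x, R (M.scal c x) = c • R x
  right_mul : ∀ x y, R (M.mul x y) = R y * R x
  right_adj : ∀ x, R (M.adj x) = star (R x)
  right_normal : ∀ ξ : K, IsNormal M fun x => ⟪ξ, R x ξ⟫_ℂ
  comm : ∀ x y, L x * R y = R y * L x

/-- `M` has property (T): there are a finite set `F ⊆ M` and `δ > 0` such that every Hilbert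
`M`-`M` bimodule which has a unit vector `ξ` with `‖x ξ - ξ x‖ < δ` for all `x ∈ F` has a nonzero
vector `η` with `x η = η x` for all `x ∈ M`. -/
def HasPropertyT (M : Str) : Prop :=
  ∃ (F : Finset M.carrier) (δ : ℝ), 0 < δ ∧
    ∀ (K : Type) [NormedAddCommGroup K] [InnerProductSpace ℂ K] [CompleteSpace K]
      (L R : M.carrier → K →L[ℂ] K), IsBimodule M L R →
      ∀ ξ : K, ‖ξ‖ = 1 → (∀ x ∈ F, ‖L x ξ - R x ξ‖ < δ) →
        ∃ η : K, η ≠ 0 ∧ ∀ x, L x η = R x η

/-! ### existential embeddings -/

/-- The bounded sequences of elements of `N`. -/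
def BddSeq (N : Str) : Type := {x : ℕ → N.carrier // ∃ r : ℝ, ∀ n, N.nrm (x n) ≤ r}

/-- `Q`, with the quotient map `π` from the bounded sequences of elements of `N`, is the tracial
ultrapower of `N` along `U`: `π x = π y` if and only if `‖x n - y n‖₂ → 0` along `U`, the operations
of `Q` are given by the operations on the sequences, the trace of `Q` is the limit of the traces along
`U`, and the norm of `Q` is the quotient norm. -/
structure IsUltrapower (N : Str) (U : Ultrafilter ℕ) (Q : Str) (π : BddSeq N → Q.carrier) :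
    Prop where
  surj : ∀ q, ∃ x, π x = q
  ker : ∀ x y : BddSeq N, π x = π y ↔
    Filter.Tendsto (fun n => N.norm2 (N.sub (x.1 n) (y.1 n))) U (nhds 0)
  one : ∀ x : BddSeq N, (∀ n, x.1 n = N.one) → π x = Q.one
  add : ∀ x y z : BddSeq N, (∀ n, z.1 n = N.add (x.1 n) (y.1 n)) → π z = Q.add (π x) (π y)
  mul : ∀ x y z : BddSeq N, (∀ n, z.1 n = N.mul (x.1 n) (y.1 n)) → π z = Q.mul (π x) (π y)
  adj : ∀ x z : BddSeq N, (∀ n, z.1 n = N.adj (x.1 n)) → π z = Q.adj (π x)
  scal : ∀ (c : ℂ) (x z : BddSeq N), (∀ n, z.1 n = N.scal c (x.1 n)) → π z = Q.scal c (π x)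
  tr : ∀ x : BddSeq N, Filter.Tendsto (fun n => N.tr (x.1 n)) U (nhds (Q.tr (π x)))
  nrm : ∀ q, IsGLB {r : ℝ | ∃ x : BddSeq N, π x = q ∧ ∀ n, N.nrm (x.1 n) ≤ r} (Q.nrm q)

/-- The embedding `ι : N → M` is existential with respect to the ultrafilter `U`: there is a trace
preserving embedding `θ` of `M` in the tracial ultrapower `Q` of `N` along `U` such that `θ ∘ ι` is
the diagonal embedding of `N`. -/
def IsExistential (U : Ultrafilter ℕ) (N M : Str) (ι : N.carrier → M.carrier) : Prop :=
  ∃ (Q : Str) (π : BddSeq N → Q.carrier), IsUltrapower N U Q π ∧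
    ∃ θ : M.carrier → Q.carrier, Str.IsHom M Q θ ∧ (∀ x, Q.tr (θ x) = M.tr x) ∧
      ∀ (x : N.carrier) (s : BddSeq N), (∀ n, s.1 n = x) → θ (ι x) = π s

end Pool.Agent.TH256.HT.S
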