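import Mathlib
import Pool.Agent.TH256.HT.SDefs
import Pool.Agent.TH256.HT.Tee
import Pool.Agent.TH256.HT.Haag
import Pool.Agent.TH256.HT.Ult

/-!
From the bundled tracial von Neumann algebras to the plain structures.
-/

set_option autoImplicit false
set_option linter.unusedSectionVars false
set_option maxHeartbeats 1000000

open scoped InnerProductSpace ComplexOrder BoundedContinuousFunction
open Filter Topology

namespace Pool.Agent.TH256.HT

open Pool.Agent.H504R3 (TVN)
open Pool.Agent.H504R3.S (Str vnStr)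
open Pool.Agent.Helper278 Pool.Agent.Helper278.RG

/-- the structure of a tracial von Neumann algebra -/
noncomputable def str (T : TVN) : Str where
  carrier := T.E
  one := 1
  add x y := x + y
  mul x y := x * y
  adj x := star x
  scal c x := c • x
  nrm x := T.opNorm x
  tr x := T.τ x

theorem str_isTVN (T : TVN) : (str T).IsTVN := by
  obtain ⟨ξ, hs, hξ⟩ := T.normal
  refine ⟨T.H, T.i1, T.i2, T.i3, T.N, ξ, hs, ?_, T.map_one, T.tracial, fun x hx => ?_⟩
  · have : (fun x : T.E => T.τ x) = fun x : T.E => ∑' k, ⟪ξ k, (x : T.H →L[ℂ] T.H) (ξ k)⟫_ℂ :=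
      funext hξ
    show (⟨T.E, 1, fun x y => x + y, fun x y => x * y, fun x => star x, fun c x => c • x,
      fun x => T.opNorm x, fun x => T.τ x⟩ : Str) = _
    rw [this]
    rfl
  · rw [T.faithful x hx]
    exact (zero_smul ℂ (1 : T.E)).symm

theorem str_sub (T : TVN) (x y : T.E) : (str T).sub x y = x - y := by
  show x + (-1 : ℂ) • y = x - y
  rw [neg_one_smul, sub_eq_add_neg]

theorem str_norm2 (T : TVN) (x : T.E) : (str T).norm2 x = T.norm2 x := rfl

theorem str_norm2_sub (T : TVN) (x y : T.E) : (str T).norm2 ((str T).sub x y) = T.norm2 (x - y) := by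
  rw [str_sub]; rfl

theorem str_sep (T : TVN) (h : T.IsSeparable) : (str T).IsSeparable := by
  obtain ⟨S, hS, hd⟩ := h
  refine ⟨S, hS, fun x ε hε => ?_⟩
  obtain ⟨y, hy, hxy⟩ := hd x ε hε
  exact ⟨y, hy, (str_norm2_sub T x y).trans_lt hxy⟩

theorem str_hom {N M : TVN} (f : N.E →⋆ₐ[ℂ] M.E) : Str.IsHom (str N) (str M) f where
  one := map_one f
  add := fun (x y : N.E) => map_add f x y
  mul := fun (x y : N.E) => map_mul f x y
  adj := fun (x : N.E) => map_star f x
  scal := fun c (x : N.E) => map_smul f c x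

variable {G : Type} [Group G]

theorem str_LG_iiOne [Infinite G]
    (hG : ∀ g : G, g ≠ 1 → (Set.range fun h : G => h * g * h⁻¹).Infinite) :
    (str (LG G)).IsIIOneFactor := by
  have h := LG_iiOne hG
  refine ⟨str_isTVN _, fun z hz => h.center z hz, fun n => ?_⟩
  obtain ⟨e⟩ : Nonempty (ℕ ↪ G) := ⟨Infinite.natEmbedding G⟩
  refine ⟨fun i => La (CE.sb G) (e i), fun i k => ?_⟩
  show (LG G).τ (star (La (CE.sb G) (e i)) * La (CE.sb G) (e k)) = _
  rw [star_La, La_mul]
  show ⟪CE.sb G 1, lamK (CE.sb G) ((e i)⁻¹ * e k) (CE.sb G 1)⟫_ℂ = _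
  rw [lamK_basis, mul_one]
  by_cases hik : i = k
  · subst hik
    rw [if_pos rfl, inv_mul_cancel, inner_bb_self]
  · rw [if_neg hik, inner_bb]
    intro h1
    apply hik
    have h2 : e i = e k := by
      have h3 := h1.symm
      rwa [inv_mul_eq_one] at h3
    exact Fin.val_injective (e.injective h2)

/-! ### the Haagerup property -/

theorem trunc_norm2 (S : Finset G) (x : (LG G).E) : (LG G).norm2 (trunc S x) ≤ (LG G).norm2 x := by
  classical
  rw [LG_norm2, LG_norm2]
  unfold N2
  have h1 : (trunc S x).1 (CE.sb G 1) = ∑ g ∈ S, ⟪CE.sb G g, x.1 (CE.sb G 1)⟫_ℂ • CE.sb G g := by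
    rw [trunc_val]
    refine Finset.sum_congr rfl fun g _ => ?_
    rw [lamK_basis, mul_one]
  rw [h1]
  have h2 : ‖∑ g ∈ S, ⟪CE.sb G g, x.1 (CE.sb G 1)⟫_ℂ • CE.sb G g‖ ^ 2 =
      ∑ g ∈ S, ‖⟪CE.sb G g, x.1 (CE.sb G 1)⟫_ℂ‖ ^ 2 := by
    have h3 := (CE.sb G).orthonormal.inner_sum (fun g => ⟪CE.sb G g, x.1 (CE.sb G 1)⟫_ℂ)
      (fun g => ⟪CE.sb G g, x.1 (CE.sb G 1)⟫_ℂ) S
    rw [inner_self_eq_norm_sq_to_K] at h3
    have h4 : ∀ g : G, (starRingEnd ℂ) ⟪CE.sb G g, x.1 (CE.sb G 1)⟫_ℂ * ⟪CE.sb G g, x.1 (CE.sb G 1)⟫_ℂ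
        = ((‖⟪CE.sb G g, x.1 (CE.sb G 1)⟫_ℂ‖ ^ 2 : ℝ) : ℂ) := by
      intro g
      rw [Complex.conj_mul']
      push_cast
      rfl
    simp only [h4] at h3
    rw [← Complex.ofReal_sum] at h3
    apply Complex.ofReal_injective
    rw [← h3]
    push_cast
    rfl
  have h5 := (CE.sb G).orthonormal.sum_inner_products_le (x := x.1 (CE.sb G 1)) (s := S)
  rw [← h2] at h5
  exact (sq_le_sq₀ (norm_nonneg _) (norm_nonneg _)).1 h5

theorem trunc_str (F : Subgroup G) (A : Finset G) (hA : ∀ g, g ∈ A ↔ g ∈ F) :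
    S.IsTracialCP (str (LG G)) (trunc A) where
  add := fun (x y : (LG G).E) => map_add (trunc A) x y
  scal := fun c (x : (LG G).E) => map_smul (trunc A) c x
  one := trunc_one _ ((hA 1).2 F.one_mem)
  tr := fun (x : (LG G).E) => trunc_trace _ ((hA 1).2 F.one_mem) x
  cp := by
    intro n (a : Fin n → (LG G).E) (b : Fin n → (LG G).E)
    have h := trunc_cp F A hA n a (fun i => (b i).1 (CE.sb G 1))
    refine h.trans_eq ?_
    refine Finset.sum_congr rfl fun i _ => Finset.sum_congr rfl fun j _ => ?_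
    show _ = ⟪CE.sb G 1, (ContinuousLinearMap.adjoint (b i).1)
      ((trunc A (star (a i) * a j)).1 ((b j).1 (CE.sb G 1)))⟫_ℂ
    rw [ContinuousLinearMap.adjoint_inner_right]
  normal := by
    intro r ε hε
    refine ⟨ε, hε, fun (x : (LG G).E) (y : (LG G).E) _ _ h => ?_⟩
    have h1 : (LG G).norm2 (x - y) < ε := (str_norm2_sub _ x y).symm.trans_lt h
    refine (str_norm2_sub (LG G) (trunc A x) (trunc A y)).trans_lt ?_
    rw [← map_sub]
    exact (trunc_norm2 A _).trans_lt h1

theorem haagerup_str [Countable G] (hG : LocFin G) : S.HasHaagerupProperty (str (LG G)) := by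
  classical
  intro E ε hε
  have hx : ∀ x : (LG G).E, ∃ A : Finset G, ∀ B : Finset G, A ⊆ B →
      (LG G).norm2 (trunc B x - x) < ε := by
    intro x
    have h1 := (CE.sb G).hasSum_repr (x.1 (CE.sb G 1))
    have h2 : Tendsto (fun S : Finset G => (LG G).norm2 (trunc S x - x)) atTop (𝓝 0) := by
      have h3 : Tendsto (fun S : Finset G =>
          ‖∑ g ∈ S, (CE.sb G).repr (x.1 (CE.sb G 1)) g • CE.sb G g - x.1 (CE.sb G 1)‖) atTop
          (𝓝 0) := by
        rw [← tendsto_iff_norm_sub_tendsto_zero]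
        exact h1
      refine h3.congr fun S => ?_
      rw [LG_norm2]
      unfold N2
      have h4 : ((trunc S x - x : Elt (LK (CE.sb G))) : EllTwo G →L[ℂ] EllTwo G) (CE.sb G 1) =
          (trunc S x).1 (CE.sb G 1) - x.1 (CE.sb G 1) := rfl
      rw [h4, trunc_val]
      congr 2
      refine Finset.sum_congr rfl fun g _ => ?_
      rw [lamK_basis, mul_one, HilbertBasis.repr_apply_apply]
    obtain ⟨A, hA⟩ := eventually_atTop.1 (h2.eventually (gt_mem_nhds hε))
    exact ⟨A, hA⟩
  choose A hA using hx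
  obtain ⟨F, hF, hFS⟩ := hG (E.biUnion A)
  have hfin : (F : Set G).Finite := Set.toFinite _
  have hB : ∀ g, g ∈ hfin.toFinset ↔ g ∈ F := fun g => hfin.mem_toFinset
  refine ⟨trunc hfin.toFinset, trunc_str F _ hB, ?_, ?_⟩
  · intro η hη
    obtain ⟨S, hS⟩ := trunc_compact hfin.toFinset η hη
    refine ⟨S, fun (x : (LG G).E) hx => ?_⟩
    obtain ⟨y, hy, hxy⟩ := hS x hx
    exact ⟨y, hy, (str_norm2_sub (LG G) _ y).trans_lt hxy⟩
  · intro (x : (LG G).E) hx
    refine (str_norm2_sub (LG G) _ x).trans_lt (hA x _ ?_)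
    intro g hg
    rw [hB]
    exact hFS g (Finset.mem_biUnion.2 ⟨x, hx, hg⟩)

/-! ### property (T) -/

theorem propertyT_str (M : TVN) (hM : HasPropertyT M) : S.HasPropertyT (str M) := by
  obtain ⟨F, δ, hδ, h⟩ := hM
  refine ⟨F, δ, hδ, ?_⟩
  intro K _ _ _ L R hLR ξ hξ hF
  have hc : ∀ f : M.E → ℂ, S.IsNormal (str M) f → IsContFunctional M f := by
    intro f hf r ε hε
    obtain ⟨d, hd, hfd⟩ := hf r ε hε
    refine ⟨d, hd, fun x y hx hy hxy => hfd x y hx hy ?_⟩
    exact (str_norm2_sub M x y).trans_lt hxy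
  have hL0 : L (0 : M.E) = 0 := by
    have h1 : L ((0 : ℂ) • (0 : M.E) : M.E) = (0 : ℂ) • L (0 : M.E) := hLR.left_scal 0 (0 : M.E)
    rw [smul_zero, zero_smul] at h1
    exact h1
  have hR0 : R (0 : M.E) = 0 := by
    have h1 : R ((0 : ℂ) • (0 : M.E) : M.E) = (0 : ℂ) • R (0 : M.E) := hLR.right_scal 0 (0 : M.E)
    rw [smul_zero, zero_smul] at h1
    exact h1
  let B : Bimodule M :=
    { K := K
      L :=
        { toFun := L
          map_one' := hLR.left_one
          map_mul' := hLR.left_mul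
          map_zero' := hL0
          map_add' := hLR.left_add
          commutes' := by
            intro c
            rw [Algebra.algebraMap_eq_smul_one, Algebra.algebraMap_eq_smul_one]
            have h2 := hLR.left_scal c (1 : M.E)
            have h3 : L (1 : M.E) = 1 := hLR.left_one
            rw [h3] at h2
            exact h2
          map_star' := hLR.left_adj }
      R :=
        { toFun := fun x => R (MulOpposite.unop x)
          map_one' := hLR.right_one
          map_mul' := fun x y => hLR.right_mul (MulOpposite.unop y) (MulOpposite.unop x)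
          map_zero' := hR0
          map_add' := fun x y => hLR.right_add (MulOpposite.unop x) (MulOpposite.unop y)
          commutes' := by
            intro c
            rw [Algebra.algebraMap_eq_smul_one, Algebra.algebraMap_eq_smul_one]
            have h2 := hLR.right_scal c (1 : M.E)
            have h3 : R (1 : M.E) = 1 := hLR.right_one
            rw [h3] at h2
            exact h2
          map_star' := fun x => hLR.right_adj (MulOpposite.unop x) }
      comm := fun x y => hLR.comm x (MulOpposite.unop y)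
      normal_left := fun ξ => hc _ (hLR.left_normal ξ)
      normal_right := fun ξ => hc _ (hLR.right_normal ξ) }
  obtain ⟨η, h0, hη⟩ := h B ξ hξ hF
  exact ⟨η, h0, hη⟩

/-! ### ultrapowers -/

section ultra

variable {H : Type} [Group H]

/-- bounded sequences -/
noncomputable def bcf (x : S.BddSeq (str (LG H))) : ℕ →ᵇ Elt (LK (CE.sb H)) :=
  BoundedContinuousFunction.ofNormedAddCommGroupDiscrete (x.1 : ℕ → Elt (LK (CE.sb H)))
    (Classical.choose x.2) (Classical.choose_spec x.2)

theorem bcf_apply (x : S.BddSeq (str (LG H))) (n : ℕ) : bcf x n = x.1 n := rfl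

/-- a bounded sequence -/
noncomputable def ofBcf (x : ℕ →ᵇ Elt (LK (CE.sb H))) : S.BddSeq (str (LG H)) :=
  ⟨fun n => x n, ‖x‖, fun n => x.norm_coe_le_norm n⟩

theorem bcf_ofBcf (x : ℕ →ᵇ Elt (LK (CE.sb H))) : bcf (ofBcf x) = x := by
  ext1 n; rfl

variable {Q : Type} [Ring Q] [StarRing Q] [Algebra ℂ Q] [StarModule ℂ Q]
variable {U : Ultrafilter ℕ}

/-- the ultrapower as a structure -/
noncomputable def Qs (π : (ℕ →ᵇ Elt (LK (CE.sb H))) →⋆ₐ[ℂ] Q) (σ : Q → ℂ) : Str where
  carrier := Q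
  one := 1
  add x y := x + y
  mul x y := x * y
  adj x := star x
  scal c x := c • x
  nrm q := sInf {r : ℝ | ∃ x : S.BddSeq (str (LG H)), π (bcf x) = q ∧
    ∀ n, (str (LG H)).nrm (x.1 n) ≤ r}
  tr x := σ x

theorem ult_str {π : (ℕ →ᵇ Elt (LK (CE.sb H))) →⋆ₐ[ℂ] Q} {σ : Q → ℂ}
    (hπ : IsTracialUltrapower (TL (CE.sb H)).τ U π σ) :
    S.IsUltrapower (str (LG H)) U (Qs π σ) (fun x => π (bcf x)) where
  surj := by
    intro (q : Q)
    obtain ⟨x, hx⟩ := hπ.surj q
    exact ⟨ofBcf x, (congrArg π (bcf_ofBcf x)).trans hx⟩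
  ker := by
    intro x y
    refine (pi_eq_iff hπ (bcf x) (bcf y)).trans ?_
    refine iff_of_eq (congrArg (fun f : ℕ → ℝ => Tendsto f U (𝓝 0)) (funext fun n => ?_))
    exact (str_norm2_sub (LG H) (x.1 n) (y.1 n)).symm
  one := by
    intro x hx
    have h1 : bcf x = 1 := by ext1 n; exact hx n
    exact (congrArg π h1).trans (map_one π)
  add := by
    intro x y z h
    have h1 : bcf z = bcf x + bcf y := by ext1 n; exact h n
    exact (congrArg π h1).trans (map_add π _ _)
  mul := by
    intro x y z h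
    have h1 : bcf z = bcf x * bcf y := by ext1 n; exact h n
    exact (congrArg π h1).trans (map_mul π _ _)
  adj := by
    intro x z h
    have h1 : bcf z = star (bcf x) := by ext1 n; exact h n
    exact (congrArg π h1).trans (map_star π _)
  scal := by
    intro c x z h
    have h1 : bcf z = c • bcf x := by ext1 n; exact h n
    exact (congrArg π h1).trans (map_smul π _ _)
  tr := fun x => hπ.trace (bcf x)
  nrm := by
    intro (q : Q)
    refine isGLB_csInf ?_ ?_
    · obtain ⟨x, hx⟩ := hπ.surj q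
      exact ⟨‖x‖, ofBcf x, (congrArg π (bcf_ofBcf x)).trans hx, fun n => x.norm_coe_le_norm n⟩
    · refine ⟨0, ?_⟩
      rintro r ⟨x, _, hx⟩
      exact (norm_nonneg _).trans (hx 0)

end ultra

end Pool.Agent.TH256.HT
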