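import Mathlib
import Pool.Agent.TH256.HT.Main
import Pool.Agent.TH256.HT.SB

/-!
# An existential embedding of a Haagerup II₁ factor in a II₁ factor with property (T)
-/

set_option autoImplicit false
set_option linter.unusedSectionVars false
set_option maxHeartbeats 1000000

open scoped InnerProductSpace ComplexOrder BoundedContinuousFunction
open Filter Topology

namespace Pool.Agent.TH256.HT

open Pool.Agent.H504R3 (TVN)
open Pool.Agent.H504R3.S (Str)
open Pool.Agent.Helper278 Pool.Agent.Helper278.RG

theorem existential_str (U : Ultrafilter ℕ) (hU : ∀ n, {n} ∉ U) :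
    S.IsExistential U (str (LG HH)) (str (LG GG)) (incl incH incH_inj) := by
  obtain ⟨Q, i1, i2, i3, i4, π, σ, hπ, θ, hθ1, hθ2⟩ := existential U hU
  refine ⟨Qs π σ, fun x => π (bcf x), ult_str hπ, θ, ?_, hθ1, ?_⟩
  · exact
      { one := map_one θ
        add := fun (x y : (LG GG).E) => map_add θ x y
        mul := fun (x y : (LG GG).E) => map_mul θ x y
        adj := fun (x : (LG GG).E) => map_star θ x
        scal := fun c (x : (LG GG).E) => map_smul θ c x }
  · intro (x : (LG HH).E) s hs
    refine (hθ2 x).trans (congrArg π ?_)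
    ext1 n
    exact (hs n).symm

theorem main_str : ∃ (N M : Str) (ι : N.carrier → M.carrier),
    N.IsIIOneFactor ∧ N.IsSeparable ∧ M.IsIIOneFactor ∧ M.IsSeparable ∧
    Str.IsHom N M ι ∧ (∀ x, M.tr (ι x) = N.tr x) ∧ S.HasHaagerupProperty N ∧ S.HasPropertyT M ∧
    ∀ U : Ultrafilter ℕ, (∀ n, {n} ∉ U) → S.IsExistential U N M ι :=
  ⟨str (LG HH), str (LG GG), incl incH incH_inj, str_LG_iiOne icc_HH, str_sep _ LG_separable,
    str_LG_iiOne icc_GG, str_sep _ LG_separable, str_hom _, incl_trace incH incH_inj,
    haagerup_str locFin_HH, propertyT_str _ (propertyT_LG groupT_GG), existential_str⟩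

end Pool.Agent.TH256.HT
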